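import Pool.Agent.Lib_helper92.BFA.Defs2

set_option linter.unusedSectionVars false

/-! Block MU: the law of the syndrome. -/

namespace Pool.Agent.BF

open Finset

variable {ι : Type} [Fintype ι] [DecidableEq ι] {S : Type} [AddCommGroup S] [Fintype S]
  [DecidableEq S]

theorem mu_bw_nonneg (n j : ℕ) : 0 ≤ bw n j := by
  unfold bw
  positivity

theorem mu_bw_zero {n j : ℕ} (h : n < j) : bw n j = 0 := by
  simp [bw, Nat.choose_eq_zero_of_lt h]

theorem mu_bw_sum (n : ℕ) : ∑ j ∈ range (n + 1), bw n j = 1 := by
  unfold bw
  rw [← Finset.sum_div, ← Nat.cast_sum, Nat.sum_range_choose]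
  push_cast
  exact div_self (by positivity)

theorem mu_bw_succ (n j : ℕ) :
    bw (n + 1) j = (bw n j + (if 1 ≤ j then bw n (j - 1) else 0)) / 2 := by
  unfold bw
  rcases Nat.eq_zero_or_pos j with rfl | hj
  · simp only [Nat.choose_zero_right, Nat.cast_one]
    rw [if_neg (by omega), pow_succ]
    field_simp
    ring
  · obtain ⟨i, rfl⟩ : ∃ i, j = i + 1 := ⟨j - 1, by omega⟩
    rw [if_pos (by omega), Nat.choose_succ_succ, Nat.add_sub_cancel, pow_succ]
    push_cast
    field_simp
    ring

theorem mu_nonneg_pr (e : ι → S) (n : ι → ℕ) (g : S) : 0 ≤ mu e n g := by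
  unfold mu
  refine Finset.sum_nonneg (fun v _ => ?_)
  split_ifs
  · exact Finset.prod_nonneg (fun x _ => mu_bw_nonneg _ _)
  · exact le_rfl

theorem mu_sum_pr (e : ι → S) (n : ι → ℕ) : ∑ g, mu e n g = 1 := by
  unfold mu
  rw [Finset.sum_comm]
  have h1 : ∀ v ∈ Fintype.piFinset (fun x => range (n x + 1)),
      (∑ g : S, if ∑ x, v x • e x = g then ∏ x, bw (n x) (v x) else 0) =
        ∏ x, bw (n x) (v x) := by
    intro v _
    rw [Finset.sum_ite_eq]
    simp
  rw [Finset.sum_congr rfl h1, ← Finset.prod_univ_sum]
  exact Finset.prod_eq_one (fun x _ => mu_bw_sum _)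

theorem mu_zero_pr (e : ι → S) (g : S) : mu e 0 g = if g = 0 then 1 else 0 := by
  unfold mu
  have h1 : Fintype.piFinset (fun x : ι => range ((0 : ι → ℕ) x + 1)) = {0} := by
    ext v
    simp only [Fintype.mem_piFinset, Pi.zero_apply, zero_add, Finset.mem_range, Nat.lt_one_iff,
      Finset.mem_singleton]
    exact ⟨fun h => funext h, fun h x => by rw [h]; rfl⟩
  rw [h1, Finset.sum_singleton]
  have h2 : ∏ x : ι, bw ((0 : ι → ℕ) x) ((0 : ι → ℕ) x) = 1 := by
    refine Finset.prod_eq_one (fun x _ => ?_)
    simp [bw]
  rw [h2]
  simp only [Pi.zero_apply, zero_smul, Finset.sum_const_zero]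
  congr 1
  exact propext eq_comm

theorem mu_box (e : ι → S) (n : ι → ℕ) (M : ℕ) (hM : ∀ x, n x < M) (g : S) :
    mu e n g = ∑ v ∈ Fintype.piFinset (fun _ : ι => range M),
      if ∑ x, v x • e x = g then ∏ x, bw (n x) (v x) else 0 := by
  unfold mu
  refine Finset.sum_subset ?_ ?_
  · intro v hv
    rw [Fintype.mem_piFinset] at hv ⊢
    intro x
    have := Finset.mem_range.mp (hv x)
    have := hM x
    exact Finset.mem_range.mpr (by omega)
  · intro v _ hv
    rw [Fintype.mem_piFinset] at hv
    push Not at hv
    obtain ⟨x, hx⟩ := hv
    rw [Finset.mem_range] at hx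
    split_ifs
    · exact Finset.prod_eq_zero (Finset.mem_univ x) (mu_bw_zero (by omega))
    · rfl

theorem mu_step_pr (e : ι → S) (n : ι → ℕ) (x : ι) (g : S) :
    mu e (n + Pi.single x 1) g = (mu e n g + mu e n (g - e x)) / 2 := by
  obtain ⟨M, hM⟩ : ∃ M, ∀ y, n y + 1 < M :=
    ⟨(∑ y, n y) + 2, fun y => by
      have := Finset.single_le_sum (f := n) (fun i _ => Nat.zero_le _) (Finset.mem_univ y)
      omega⟩
  have hM1 : ∀ y, (n + Pi.single x 1 : ι → ℕ) y < M := by
    intro y
    have h1 := hM y
    rw [Pi.add_apply, Pi.single_apply]
    split_ifs <;> omega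
  have hM2 : ∀ y, n y < M := fun y => by have := hM y; omega
  rw [mu_box e _ M hM1, mu_box e n M hM2 g, mu_box e n M hM2 (g - e x)]
  -- the product splits
  have hprod : ∀ v : ι → ℕ, ∏ y, bw ((n + Pi.single x 1 : ι → ℕ) y) (v y) =
      (∏ y, bw (n y) (v y) + (if 1 ≤ v x then
        bw (n x) (v x - 1) * ∏ y ∈ univ.erase x, bw (n y) (v y) else 0)) / 2 := by
    intro v
    rw [← Finset.mul_prod_erase univ _ (Finset.mem_univ x),
      ← Finset.mul_prod_erase univ (fun y => bw (n y) (v y)) (Finset.mem_univ x)]
    have h1 : ∏ y ∈ univ.erase x, bw ((n + Pi.single x 1 : ι → ℕ) y) (v y) =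
        ∏ y ∈ univ.erase x, bw (n y) (v y) := by
      refine Finset.prod_congr rfl (fun y hy => ?_)
      have hyx : y ≠ x := Finset.ne_of_mem_erase hy
      rw [Pi.add_apply, Pi.single_eq_of_ne hyx, add_zero]
    rw [h1, Pi.add_apply, Pi.single_eq_same, mu_bw_succ]
    split_ifs <;> ring
  have h3 : ∑ v ∈ Fintype.piFinset (fun _ : ι => range M),
      (if ∑ y, v y • e y = g then (if 1 ≤ v x then
        bw (n x) (v x - 1) * ∏ y ∈ univ.erase x, bw (n y) (v y) else 0) else 0) =
      ∑ v ∈ Fintype.piFinset (fun _ : ι => range M),
        if ∑ y, v y • e y = g - e x then ∏ y, bw (n y) (v y) else 0 := by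
    symm
    refine Finset.sum_bij_ne_zero (fun v _ _ => Function.update v x (v x + 1)) ?_ ?_ ?_ ?_
    · intro v hv hne
      rw [Fintype.mem_piFinset] at hv ⊢
      intro y
      by_cases hy : y = x
      · subst hy
        rw [Function.update_self]
        by_contra hcon
        apply hne
        have h4 : n y < v y := by
          have := hM y
          rw [Finset.mem_range] at hcon
          omega
        rw [Finset.prod_eq_zero (Finset.mem_univ y) (mu_bw_zero h4)]
        simp
      · rw [Function.update_of_ne hy]
        exact hv y
    · intro v _ _ w _ _ h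
      funext y
      by_cases hy : y = x
      · subst hy
        have := congrFun h y
        simp only [Function.update_self] at this
        omega
      · have := congrFun h y
        simpa [Function.update_of_ne hy] using this
    · intro w hw hne
      have hw1 : 1 ≤ w x := by
        by_contra h
        apply hne
        rw [if_neg h]
        simp
      refine ⟨Function.update w x (w x - 1), ?_, ?_, ?_⟩
      · rw [Fintype.mem_piFinset] at hw ⊢
        intro y
        by_cases hy : y = x
        · subst hy
          rw [Function.update_self]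
          have := Finset.mem_range.mp (hw y)
          exact Finset.mem_range.mpr (by omega)
        · rw [Function.update_of_ne hy]
          exact hw y
      · have hs : ∑ y, Function.update w x (w x - 1) y • e y + e x = ∑ y, w y • e y := by
          rw [← Finset.add_sum_erase univ _ (Finset.mem_univ x),
            ← Finset.add_sum_erase univ (fun y => w y • e y) (Finset.mem_univ x),
            Function.update_self]
          have h5 : ∑ y ∈ univ.erase x, Function.update w x (w x - 1) y • e y =
              ∑ y ∈ univ.erase x, w y • e y := by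
            refine Finset.sum_congr rfl (fun y hy => ?_)
            rw [Function.update_of_ne (Finset.ne_of_mem_erase hy)]
          rw [h5]
          have h6 : w x • e x = (w x - 1) • e x + e x := by
            conv_lhs => rw [show w x = (w x - 1) + 1 by omega, add_smul, one_smul]
          rw [h6]
          abel
        have hp : ∏ y, bw (n y) (Function.update w x (w x - 1) y) =
            bw (n x) (w x - 1) * ∏ y ∈ univ.erase x, bw (n y) (w y) := by
          rw [← Finset.mul_prod_erase univ _ (Finset.mem_univ x), Function.update_self]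
          congr 1
          refine Finset.prod_congr rfl (fun y hy => ?_)
          rw [Function.update_of_ne (Finset.ne_of_mem_erase hy)]
        rw [hp]
        rw [if_pos hw1] at hne
        by_cases hg : ∑ y, w y • e y = g
        · rw [if_pos hg] at hne
          rw [if_pos (by rw [eq_sub_iff_add_eq, hs, hg])]
          exact hne
        · rw [if_neg hg] at hne
          exact absurd rfl hne
      · funext y
        by_cases hy : y = x
        · subst hy
          rw [Function.update_self, Function.update_self]
          omega
        · rw [Function.update_of_ne hy, Function.update_of_ne hy]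
    · intro v hv hne
      have hs : ∑ y, Function.update v x (v x + 1) y • e y = ∑ y, v y • e y + e x := by
        rw [← Finset.add_sum_erase univ _ (Finset.mem_univ x),
          ← Finset.add_sum_erase univ (fun y => v y • e y) (Finset.mem_univ x),
          Function.update_self]
        have h5 : ∑ y ∈ univ.erase x, Function.update v x (v x + 1) y • e y =
            ∑ y ∈ univ.erase x, v y • e y := by
          refine Finset.sum_congr rfl (fun y hy => ?_)
          rw [Function.update_of_ne (Finset.ne_of_mem_erase hy)]
        rw [h5, add_smul, one_smul]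
        abel
      have hp : ∏ y, bw (n y) (v y) = bw (n x) (Function.update v x (v x + 1) x - 1) *
          ∏ y ∈ univ.erase x, bw (n y) (Function.update v x (v x + 1) y) := by
        rw [← Finset.mul_prod_erase univ _ (Finset.mem_univ x), Function.update_self,
          Nat.add_sub_cancel]
        congr 1
        refine Finset.prod_congr rfl (fun y hy => ?_)
        rw [Function.update_of_ne (Finset.ne_of_mem_erase hy)]
      rw [hs, ← hp, Function.update_self, if_pos (by omega : 1 ≤ v x + 1)]
      by_cases hg : ∑ y, v y • e y = g - e x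
      · rw [if_pos hg, if_pos (by rw [hg]; abel)]
      · rw [if_neg hg, if_neg (by
          intro h
          apply hg
          rw [← h]
          abel)]
  rw [← h3, ← Finset.sum_add_distrib, Finset.sum_div]
  refine Finset.sum_congr rfl (fun v _ => ?_)
  rw [hprod v]
  split_ifs <;> ring

end Pool.Agent.BF

namespace Pool.Agent.BF

theorem mu_nonneg : type_of% @mu_nonneg_pr := @mu_nonneg_pr

theorem mu_sum : type_of% @mu_sum_pr := @mu_sum_pr

theorem mu_zero : type_of% @mu_zero_pr := @mu_zero_pr

theorem mu_step : type_of% @mu_step_pr := @mu_step_pr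

end Pool.Agent.BF
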