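import Pool.Agent.Lib_helper92.BFA.Defs2
import Pool.Agent.Lib_helper92.BFA.MU

set_option linter.unusedSectionVars false

/-! Block AREA: the entropy increments. -/

namespace Pool.Agent.BF

open Finset

variable {ι : Type} [Fintype ι] [DecidableEq ι] {S : Type} [AddCommGroup S] [Fintype S]
  [DecidableEq S]

theorem area_titu {a b c d : ℝ} (ha : 0 ≤ a) (hb : 0 ≤ b) (hc : 0 ≤ c) (hd : 0 ≤ d) :
    ((a + c) / 2 - (b + d) / 2) ^ 2 / ((a + c) / 2 + (b + d) / 2) ≤
      (a - b) ^ 2 / (a + b) / 2 + (c - d) ^ 2 / (c + d) / 2 := by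
  rcases (add_nonneg ha hb).eq_or_lt with h1 | h1
  · have ha0 : a = 0 := by linarith
    have hb0 : b = 0 := by linarith
    subst ha0; subst hb0
    rcases (add_nonneg hc hd).eq_or_lt with h2 | h2
    · have hc0 : c = 0 := by linarith
      have hd0 : d = 0 := by linarith
      subst hc0; subst hd0
      simp
    · have hne : c + d ≠ 0 := h2.ne'
      have : ((0 + c) / 2 - (0 + d) / 2) ^ 2 / ((0 + c) / 2 + (0 + d) / 2) =
          (c - d) ^ 2 / (c + d) / 2 := by
        rw [zero_add, zero_add, ← add_div, ← sub_div]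
        field_simp
      rw [this]
      simp
  · rcases (add_nonneg hc hd).eq_or_lt with h2 | h2
    · have hc0 : c = 0 := by linarith
      have hd0 : d = 0 := by linarith
      subst hc0; subst hd0
      have hne : a + b ≠ 0 := h1.ne'
      have : ((a + 0) / 2 - (b + 0) / 2) ^ 2 / ((a + 0) / 2 + (b + 0) / 2) =
          (a - b) ^ 2 / (a + b) / 2 := by
        rw [add_zero, add_zero, ← add_div, ← sub_div]
        field_simp
      rw [this]
      simp
    · have h3 : 0 < (a + c) / 2 + (b + d) / 2 := by linarith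
      rw [div_le_iff₀ h3]
      have h4 : ((a - b) ^ 2 / (a + b) / 2 + (c - d) ^ 2 / (c + d) / 2) *
          ((a + c) / 2 + (b + d) / 2) - ((a + c) / 2 - (b + d) / 2) ^ 2 =
          ((a - b) * (c + d) - (c - d) * (a + b)) ^ 2 / (4 * ((a + b) * (c + d))) := by
        field_simp
        ring
      have h5 : 0 ≤ ((a - b) * (c + d) - (c - d) * (a + b)) ^ 2 / (4 * ((a + b) * (c + d))) := by
        positivity
      linarith

theorem dd_mono_pr (e : ι → S) (n : ι → ℕ) (y : ι) (a : S) :
    dd (mu e (n + Pi.single y 1)) a ≤ dd (mu e n) a := by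
  unfold dd
  have h1 : ∀ g, (mu e (n + Pi.single y 1) g - mu e (n + Pi.single y 1) (g - a)) ^ 2 /
      (mu e (n + Pi.single y 1) g + mu e (n + Pi.single y 1) (g - a)) / 2 ≤
      ((mu e n g - mu e n (g - a)) ^ 2 / (mu e n g + mu e n (g - a)) / 2) / 2 +
      ((mu e n (g - e y) - mu e n ((g - e y) - a)) ^ 2 /
        (mu e n (g - e y) + mu e n ((g - e y) - a)) / 2) / 2 := by
    intro g
    rw [mu_step, mu_step, show g - a - e y = g - e y - a by abel]
    have := area_titu (mu_nonneg e n g) (mu_nonneg e n (g - a)) (mu_nonneg e n (g - e y))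
      (mu_nonneg e n (g - e y - a))
    linarith
  refine (Finset.sum_le_sum fun g _ => h1 g).trans ?_
  rw [Finset.sum_add_distrib]
  have h0 : ∀ f : S → ℝ, ∑ g, f g / 2 = (∑ g, f g) / 2 := fun f => (Finset.sum_div _ _ _).symm
  rw [h0 (fun g => (mu e n g - mu e n (g - a)) ^ 2 / (mu e n g + mu e n (g - a)) / 2),
    h0 (fun g => (mu e n (g - e y) - mu e n ((g - e y) - a)) ^ 2 /
        (mu e n (g - e y) + mu e n ((g - e y) - a)) / 2)]
  have h2 : ∑ g, (mu e n (g - e y) - mu e n ((g - e y) - a)) ^ 2 /
        (mu e n (g - e y) + mu e n ((g - e y) - a)) / 2 =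
      ∑ g, (mu e n g - mu e n (g - a)) ^ 2 / (mu e n g + mu e n (g - a)) / 2 :=
    Equiv.sum_comp (Equiv.subRight (e y)) (fun g =>
      (mu e n g - mu e n (g - a)) ^ 2 / (mu e n g + mu e n (g - a)) / 2)
  rw [h2]
  linarith

theorem area_point {a b : ℝ} (ha : 0 ≤ a) (hb : 0 ≤ b) :
    Real.negMulLog ((a + b) / 2) ≤ (Real.negMulLog a + Real.negMulLog b) / 2 +
      (a - b) ^ 2 / (a + b) / 2 := by
  rcases (add_nonneg ha hb).eq_or_lt with h1 | h1
  · have ha0 : a = 0 := by linarith
    have hb0 : b = 0 := by linarith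
    subst ha0; subst hb0
    simp
  · set m := (a + b) / 2 with hm
    have hm0 : 0 < m := by positivity
    have key : ∀ c : ℝ, 0 ≤ c → c * (Real.log c - Real.log m) ≤ c * (c / m - 1) := by
      intro c hc
      rcases hc.eq_or_lt with h2 | h2
      · rw [← h2]; simp
      · refine mul_le_mul_of_nonneg_left ?_ hc
        rw [← Real.log_div h2.ne' hm0.ne']
        exact Real.log_le_sub_one_of_pos (by positivity)
    have h2 := key a ha
    have h3 := key b hb
    have h4 : a * (a / m - 1) + b * (b / m - 1) = (a - b) ^ 2 / (a + b) := by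
      rw [hm]
      field_simp
      ring
    unfold Real.negMulLog
    have h5 : m * 2 = a + b := by rw [hm]; ring
    have h6 : m * Real.log m * 2 = a * Real.log m + b * Real.log m := by
      rw [← add_mul, ← h5]; ring
    nlinarith

theorem ent_half_pr (ν : S → ℝ) (hν : ∀ g, 0 ≤ ν g) (a : S) :
    ent (fun g => (ν g + ν (g - a)) / 2) ≤ ent ν + dd ν a := by
  unfold ent dd
  have h1 : ∑ g, Real.negMulLog (ν (g - a)) = ∑ g, Real.negMulLog (ν g) :=
    Equiv.sum_comp (Equiv.subRight a) (fun g => Real.negMulLog (ν g))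
  calc ∑ g, Real.negMulLog ((ν g + ν (g - a)) / 2)
      ≤ ∑ g, ((Real.negMulLog (ν g) + Real.negMulLog (ν (g - a))) / 2 +
          (ν g - ν (g - a)) ^ 2 / (ν g + ν (g - a)) / 2) :=
        Finset.sum_le_sum fun g _ => area_point (hν g) (hν (g - a))
    _ = (∑ g, Real.negMulLog (ν g)) +
          ∑ g, (ν g - ν (g - a)) ^ 2 / (ν g + ν (g - a)) / 2 := by
        rw [Finset.sum_add_distrib, ← Finset.sum_div, Finset.sum_add_distrib, h1]
        ring

theorem area_ind (A : Finset ι) (n : ι → ℕ) (y : ι) (hy : y ∉ A) :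
    (fun z => n z + if z ∈ insert y A then 1 else 0) =
      (fun z => n z + if z ∈ A then 1 else 0) + Pi.single y 1 := by
  funext z
  simp only [Finset.mem_insert, Pi.add_apply]
  by_cases h : z = y
  · subst h
    simp [hy]
  · simp [h, Pi.single_eq_of_ne h]

theorem area_dd (e : ι → S) (n : ι → ℕ) (a : S) (A : Finset ι) :
    dd (mu e (fun z => n z + if z ∈ A then 1 else 0)) a ≤ dd (mu e n) a := by
  induction A using Finset.induction_on with
  | empty => simp
  | insert y A hy ih =>
    rw [area_ind A n y hy]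
    exact (dd_mono_pr e _ y a).trans ih

theorem ent_step_pr (e : ι → S) {K : ℕ} (hK : 1 ≤ K) :
    ent (mu e (fun _ => K + 1)) ≤ ent (mu e (fun _ => K)) + ∑ x, ww e K x / K := by
  have hK' : (K : ℝ) ≠ 0 := by exact_mod_cast (by omega : K ≠ 0)
  have hmain : ∀ A : Finset ι, ent (mu e (fun z => K + if z ∈ A then 1 else 0)) ≤
      ent (mu e (fun _ => K)) + ∑ x ∈ A, ww e K x / K := by
    intro A
    induction A using Finset.induction_on with
    | empty => simp
    | insert y A hy ih =>
      have e1 := area_ind A (fun _ => K) y hy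
      rw [e1, Finset.sum_insert hy]
      have h2 : mu e ((fun z => K + if z ∈ A then 1 else 0) + Pi.single y 1) =
          fun g => (mu e (fun z => K + if z ∈ A then 1 else 0) g +
            mu e (fun z => K + if z ∈ A then 1 else 0) (g - e y)) / 2 := by
        funext g
        exact mu_step e _ y g
      rw [h2]
      have h3 := ent_half_pr (mu e (fun z => K + if z ∈ A then 1 else 0)) (mu_nonneg e _) (e y)
      have h4 : dd (mu e (fun z => K + if z ∈ A then 1 else 0)) (e y) ≤
          dd (mu e (mn K y)) (e y) := by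
        have h5 : (fun z => K + if z ∈ A then 1 else 0) =
            (fun z => (mn K y) z + if z ∈ insert y A then 1 else 0) := by
          funext z
          unfold mn
          by_cases h : z = y
          · subst h
            simp [hy]
            omega
          · simp [h, Function.update_of_ne h]
        rw [h5]
        exact area_dd e (mn K y) (e y) (insert y A)
      have h6 : ww e K y / K = dd (mu e (mn K y)) (e y) := by
        unfold ww
        field_simp
      rw [h6]
      linarith
  have := hmain Finset.univ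
  simpa using this

end Pool.Agent.BF

namespace Pool.Agent.BF

theorem dd_mono : type_of% @dd_mono_pr := @dd_mono_pr

theorem ent_half : type_of% @ent_half_pr := @ent_half_pr

theorem ent_step : type_of% @ent_step_pr := @ent_step_pr

end Pool.Agent.BF
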