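import Pool.Agent.Lib_helper92.BFA.Defs2

set_option linter.unusedSectionVars false

/-!
# BF block BENT
-/

namespace Pool.Agent.BF

open Finset

open Pool.Agent.Lib_helper75.Bent in
theorem bent_family_pr (a : ℕ) : ∃ 𝓑 : Finset ((Fin (2 * a) → ZMod 2) → ℤ),
    𝓑.card = numBent (2 * a) ∧ (∀ X ∈ 𝓑, ∀ x, X x = 1 ∨ X x = -1) ∧
    (∀ X ∈ 𝓑, X ∈ Lam (2 * a) a) ∧ (∀ X ∈ 𝓑, -X ∈ 𝓑) := by
  classical
  have hadd : ∀ u v : ZMod 2, ((-1 : ℤ)) ^ (u + v).val = (-1) ^ u.val * (-1) ^ v.val := by decide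
  let X : ((Fin (2 * a) → ZMod 2) → ZMod 2) → ((Fin (2 * a) → ZMod 2) → ℤ) :=
    fun f x => (-1) ^ (f x).val
  have hXinj : Function.Injective X := by
    intro f g h
    funext x
    have h1 : ((-1 : ℤ)) ^ (f x).val = (-1) ^ (g x).val := congrFun h x
    have h2 : ∀ u v : ZMod 2, ((-1 : ℤ)) ^ u.val = (-1) ^ v.val → u = v := by decide
    exact h2 _ _ h1
  have hwt : ∀ f y, wt (X f) y = walsh f y := by
    intro f y
    unfold wt walsh
    refine Finset.sum_congr rfl fun x _ => ?_
    rw [add_comm, hadd]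
  refine ⟨(univ.filter fun f => IsBent (2 * a) f).image X, ?_, ?_, ?_, ?_⟩
  · rw [Finset.card_image_of_injective _ hXinj]
    unfold numBent
    rw [Nat.card_eq_fintype_card, Fintype.card_subtype]
  · intro Y hY x
    rw [mem_image] at hY
    obtain ⟨f, _, rfl⟩ := hY
    exact neg_one_pow_eq_or ℤ _
  · intro Y hY
    rw [mem_image] at hY
    obtain ⟨f, hf, rfl⟩ := hY
    rw [mem_filter] at hf
    intro y
    rw [hwt]
    have h1 := hf.2 y
    have e : 2 * a / 2 = a := by omega
    rw [e] at h1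
    rw [← dvd_abs, h1]
  · intro Y hY
    rw [mem_image] at hY
    obtain ⟨f, hf, rfl⟩ := hY
    rw [mem_filter] at hf
    rw [mem_image]
    refine ⟨fun x => f x + 1, ?_, ?_⟩
    · rw [mem_filter]
      refine ⟨mem_univ _, fun y => ?_⟩
      have h1 := hf.2 y
      have h2 : walsh (fun x => f x + 1) y = - walsh f y := by
        unfold walsh
        rw [← Finset.sum_neg_distrib]
        refine Finset.sum_congr rfl fun x _ => ?_
        rw [hadd, hadd, hadd]
        have : ((-1 : ℤ)) ^ (1 : ZMod 2).val = -1 := by decide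
        rw [this]; ring
      rw [h2, abs_neg]
      exact h1
    · funext x
      show ((-1 : ℤ)) ^ (f x + 1).val = - (-1) ^ (f x).val
      rw [hadd]
      have : ((-1 : ℤ)) ^ (1 : ZMod 2).val = -1 := by decide
      rw [this]; ring

end Pool.Agent.BF

namespace Pool.Agent.BF

theorem bent_family : type_of% @bent_family_pr := @bent_family_pr

end Pool.Agent.BF
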