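import Pool.Agent.Lib_helper92.BFA.Defs2

set_option linter.unusedSectionVars false

/-! BLOCK LAT1 of MP_bb510f_co -/

namespace Pool.Agent.BF

open Finset

/-- the Walsh transform modulo `2 ^ a` -/
def lat1_hom (n a : ℕ) : ((Fin n → ZMod 2) → ℤ) →+ ((Fin n → ZMod 2) → ZMod (2 ^ a)) where
  toFun X := fun y => (wt X y : ZMod (2 ^ a))
  map_zero' := by funext y; simp [wt]
  map_add' X Y := by
    funext y
    have : wt (X + Y) y = wt X y + wt Y y := by
      simp [wt, mul_add, Finset.sum_add_distrib]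
    simp [this]

theorem lat1_ker (n a : ℕ) : Lam n a = (lat1_hom n a).ker := by
  ext X
  rw [AddMonoidHom.mem_ker]
  constructor
  · intro h
    funext y
    have h1 : ∀ y, (2 : ℤ) ^ a ∣ wt X y := h
    show ((wt X y : ℤ) : ZMod (2 ^ a)) = 0
    rw [ZMod.intCast_zmod_eq_zero_iff_dvd]
    push_cast
    exact h1 y
  · intro h y
    have h1 : ((wt X y : ℤ) : ZMod (2 ^ a)) = 0 := congrFun h y
    rw [ZMod.intCast_zmod_eq_zero_iff_dvd] at h1
    push_cast at h1
    exact h1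

theorem finite_quot_pr (n a : ℕ) : Finite (((Fin n → ZMod 2) → ℤ) ⧸ Lam n a) := by
  rw [lat1_ker]
  have : NeZero (2 ^ a : ℕ) := ⟨by positivity⟩
  exact Finite.of_injective _ (QuotientAddGroup.kerLift_injective (lat1_hom n a))

theorem lat1_sum (n a : ℕ) (X : (Fin n → ZMod 2) → ℤ) :
    ∑ x, X x • ee n a x = QuotientAddGroup.mk X := by
  have h : X = ∑ x, X x • (Pi.single x (1 : ℤ) : (Fin n → ZMod 2) → ℤ) := by
    funext z
    simp [Finset.sum_apply, Pi.single_apply]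
  conv_rhs => rw [h]
  have h2 : ∀ s : Finset (Fin n → ZMod 2),
      (QuotientAddGroup.mk (∑ x ∈ s, X x • (Pi.single x (1 : ℤ) : (Fin n → ZMod 2) → ℤ)) :
        ((Fin n → ZMod 2) → ℤ) ⧸ Lam n a) = ∑ x ∈ s, X x • ee n a x := by
    intro s
    exact map_sum (QuotientAddGroup.mk' (Lam n a)) _ s
  exact (h2 univ).symm

theorem ee_sum_pr (n a : ℕ) (X : (Fin n → ZMod 2) → ℤ) (hX : X ∈ Lam n a) :
    ∑ x, X x • ee n a x = 0 := by
  rw [lat1_sum]
  exact (QuotientAddGroup.eq_zero_iff X).2 hX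

theorem lat1_mem_of_dvd (n a : ℕ) (X : (Fin n → ZMod 2) → ℤ) (h : ∀ x, (2 : ℤ) ^ a ∣ X x) :
    X ∈ Lam n a := by
  intro y
  exact Finset.dvd_sum fun x _ => Dvd.dvd.mul_left (h x) _

theorem ee_gen_pr (n a : ℕ) : Gen (ee n a) := by
  intro g
  obtain ⟨X, rfl⟩ := QuotientAddGroup.mk_surjective g
  refine ⟨fun x => (X x % 2 ^ a).toNat, ?_⟩
  have h1 : ∀ x, (((X x % 2 ^ a).toNat : ℕ) : ℤ) = X x % 2 ^ a := fun x =>
    Int.toNat_of_nonneg (Int.emod_nonneg _ (by positivity))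
  have h2 : ∑ x, (X x % 2 ^ a).toNat • ee n a x =
      ∑ x, (fun x => X x % 2 ^ a) x • ee n a x := by
    refine Finset.sum_congr rfl fun x _ => ?_
    show (X x % 2 ^ a).toNat • ee n a x = (X x % 2 ^ a) • ee n a x
    rw [← natCast_zsmul, h1 x]
  rw [h2, lat1_sum]
  rw [QuotientAddGroup.eq]
  refine lat1_mem_of_dvd n a _ fun x => ?_
  show (2 : ℤ) ^ a ∣ -(X x % 2 ^ a) + X x
  have := Int.emod_add_mul_ediv (X x) (2 ^ a)
  exact ⟨X x / 2 ^ a, by linarith⟩

end Pool.Agent.BF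

namespace Pool.Agent.BF

theorem ee_gen : type_of% @ee_gen_pr := @ee_gen_pr

theorem ee_sum : type_of% @ee_sum_pr := @ee_sum_pr

theorem finite_quot : type_of% @finite_quot_pr := @finite_quot_pr

end Pool.Agent.BF
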