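import Pool.Agent.Lib_helper92.BFA.Defs2
import Pool.Agent.Lib_helper92.BFA.LAT1

set_option linter.unusedSectionVars false

/-! BLOCK CARDQ of MP_bb510f_co -/

namespace Pool.Agent.BF

open Finset

/-- the sum of `X` over the points above `A` -/
def cardq_s {n : ℕ} (A : Finset (Fin n)) (X : (Fin n → ZMod 2) → ℤ) : ℤ :=
  ∑ x : Fin n → ZMod 2, (∏ i, if i ∈ A then (if x i = 1 then (1 : ℤ) else 0) else 1) * X x

theorem cardq_two (s t : ZMod 2) : (∑ b : ZMod 2, (-1 : ℤ) ^ (s * b).val * (-1) ^ (t * b).val)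
    = 1 + (-1) ^ s.val * (-1) ^ t.val := by
  revert s t; decide

theorem cardq_sign {n : ℕ} (y x : Fin n → ZMod 2) :
    (-1 : ℤ) ^ (∑ i, y i * x i).val = ∏ i, (-1 : ℤ) ^ (y i * x i).val := by
  have h : ∀ s : Finset (Fin n), (-1 : ℤ) ^ (∑ i ∈ s, y i * x i).val =
      ∏ i ∈ s, (-1 : ℤ) ^ (y i * x i).val := by
    intro s
    induction s using Finset.induction_on with
    | empty => simp
    | insert a s ha ih =>
      rw [Finset.sum_insert ha, Finset.prod_insert ha, ← ih]
      have : ∀ u v : ZMod 2, (-1 : ℤ) ^ (u + v).val = (-1) ^ u.val * (-1) ^ v.val := by decide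
      exact this _ _
  exact h univ

/-- the key identity -/
theorem cardq_key {n : ℕ} (A : Finset (Fin n)) (X : (Fin n → ZMod 2) → ℤ) :
    (2 : ℤ) ^ A.card * cardq_s A X =
      ∑ y : Fin n → ZMod 2,
        (∏ i, if i ∈ A then (-1 : ℤ) ^ (y i).val else (if y i = 0 then 1 else 0)) * wt X y := by
  unfold cardq_s wt
  simp only [Finset.mul_sum]
  rw [Finset.sum_comm]
  refine Finset.sum_congr rfl fun x _ => ?_
  have h1 : ∀ y : Fin n → ZMod 2,
      (∏ i, if i ∈ A then (-1 : ℤ) ^ (y i).val else (if y i = 0 then 1 else 0)) *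
        ((-1) ^ (∑ i, y i * x i).val * X x) =
      (∏ i, (if i ∈ A then (-1 : ℤ) ^ (y i).val else (if y i = 0 then 1 else 0)) *
        (-1 : ℤ) ^ (y i * x i).val) * X x := by
    intro y
    rw [cardq_sign, Finset.prod_mul_distrib]
    ring
  rw [Finset.sum_congr rfl fun y _ => h1 y, ← Finset.sum_mul, ← mul_assoc]
  congr 1
  have h2 := Finset.prod_univ_sum (fun _ : Fin n => (univ : Finset (ZMod 2)))
    (fun i b => (if i ∈ A then (-1 : ℤ) ^ b.val else (if b = 0 then 1 else 0)) *
        (-1 : ℤ) ^ (b * x i).val)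
  rw [Fintype.piFinset_univ] at h2
  rw [← h2]
  have h3 : (2 : ℤ) ^ A.card = ∏ i : Fin n, if i ∈ A then (2 : ℤ) else 1 := by
    rw [Finset.prod_ite_mem, Finset.univ_inter, Finset.prod_const]
  rw [h3, ← Finset.prod_mul_distrib]
  refine Finset.prod_congr rfl fun i _ => ?_
  by_cases hi : i ∈ A
  · simp only [hi, if_true]
    have : ∀ t : ZMod 2, (2 : ℤ) * (if t = 1 then (1 : ℤ) else 0) =
        ∑ b : ZMod 2, (-1 : ℤ) ^ b.val * (-1 : ℤ) ^ (b * t).val := by decide
    exact this _
  · simp only [hi, if_false]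
    have : ∀ t : ZMod 2, (1 : ℤ) * 1 =
        ∑ b : ZMod 2, (if b = 0 then (1 : ℤ) else 0) * (-1 : ℤ) ^ (b * t).val := by decide
    exact this _

/-- the sums of the elements of the lattice -/
theorem cardq_dvd {n a : ℕ} (A : Finset (Fin n)) (X : (Fin n → ZMod 2) → ℤ) (hX : X ∈ Lam n a) :
    (2 : ℤ) ^ (a - A.card) ∣ cardq_s A X := by
  have h : (2 : ℤ) ^ a ∣ (2 : ℤ) ^ A.card * cardq_s A X := by
    rw [cardq_key]
    exact Finset.dvd_sum fun y _ => Dvd.dvd.mul_left (hX y) _
  rcases le_total a A.card with h1 | h1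
  · rw [Nat.sub_eq_zero_of_le h1]; simp
  · have h2 : (2 : ℤ) ^ a = 2 ^ A.card * 2 ^ (a - A.card) := by
      rw [← pow_add]; congr 1; omega
    rw [h2] at h
    exact (mul_dvd_mul_iff_left (by positivity)).1 h

/-- the dual basis -/
def cardq_b {n : ℕ} (B : Finset (Fin n)) : (Fin n → ZMod 2) → ℤ := fun x =>
  ∏ i, if i ∈ B then (if x i = 1 then (1 : ℤ) else -1) else (if x i = 1 then 0 else 1)

theorem cardq_dual {n : ℕ} (A B : Finset (Fin n)) :
    cardq_s A (cardq_b B) = if A = B then 1 else 0 := by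
  unfold cardq_s cardq_b
  simp only [← Finset.prod_mul_distrib]
  have h2 := Finset.prod_univ_sum (fun _ : Fin n => (univ : Finset (ZMod 2)))
    (fun i b => (if i ∈ A then (if b = 1 then (1 : ℤ) else 0) else 1) *
        (if i ∈ B then (if b = 1 then (1 : ℤ) else -1) else (if b = 1 then 0 else 1)))
  rw [Fintype.piFinset_univ] at h2
  rw [← h2]
  by_cases h : A = B
  · subst h
    rw [if_pos rfl]
    refine Finset.prod_eq_one fun i _ => ?_
    by_cases hi : i ∈ A
    · simp only [hi, if_true]; decide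
    · simp only [hi, if_false]; decide
  · rw [if_neg h]
    obtain ⟨i, hi⟩ : ∃ i, ¬ (i ∈ A ↔ i ∈ B) := by
      by_contra hc
      push Not at hc
      exact h (Finset.ext hc)
    refine Finset.prod_eq_zero (Finset.mem_univ i) ?_
    by_cases hA : i ∈ A <;> by_cases hB : i ∈ B
    · exact absurd (iff_of_true hA hB) hi
    · simp only [hA, hB, if_true, if_false]; decide
    · simp only [hA, hB, if_true, if_false]; decide
    · exact absurd (iff_of_false hA hB) hi

/-- the map to the product of cyclic groups -/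
def cardq_hom (n a : ℕ) : ((Fin n → ZMod 2) → ℤ) →+
    ((A : Finset (Fin n)) → ZMod (2 ^ (a - A.card))) where
  toFun X := fun A => (cardq_s A X : ZMod (2 ^ (a - A.card)))
  map_zero' := by funext A; simp [cardq_s]
  map_add' X Y := by
    funext A
    have : cardq_s A (X + Y) = cardq_s A X + cardq_s A Y := by
      simp [cardq_s, mul_add, Finset.sum_add_distrib]
    simp [this]

theorem cardq_surj (n a : ℕ) : Function.Surjective (cardq_hom n a) := by
  intro t
  have ht : ∀ A : Finset (Fin n), ∃ k : ℤ, (k : ZMod (2 ^ (a - A.card))) = t A := fun A =>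
    ZMod.intCast_surjective _
  choose k hk using ht
  refine ⟨fun x => ∑ B : Finset (Fin n), k B * cardq_b B x, ?_⟩
  funext A
  show ((cardq_s A (fun x => ∑ B : Finset (Fin n), k B * cardq_b B x) : ℤ) :
    ZMod (2 ^ (a - A.card))) = t A
  have h1 : cardq_s A (fun x => ∑ B : Finset (Fin n), k B * cardq_b B x) = k A := by
    have h2 : cardq_s A (fun x => ∑ B : Finset (Fin n), k B * cardq_b B x) =
        ∑ B : Finset (Fin n), k B * cardq_s A (cardq_b B) := by
      unfold cardq_s
      simp only [Finset.mul_sum]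
      rw [Finset.sum_comm]
      refine Finset.sum_congr rfl fun B _ => Finset.sum_congr rfl fun x _ => ?_
      ring
    rw [h2]
    simp [cardq_dual]
  rw [h1, hk]

theorem cardq_count (n a : ℕ) :
    ∑ A : Finset (Fin n), (a - A.card) = ∑ j ∈ range a, (a - j) * n.choose j := by
  have h1 : ∑ A : Finset (Fin n), (a - A.card) =
      ∑ j ∈ range (n + 1), n.choose j * (a - j) := by
    have := Finset.sum_powerset_apply_card (fun j => a - j) (x := (univ : Finset (Fin n)))
    simpa [Finset.powerset_univ] using this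
  rw [h1]
  have h2 : ∑ j ∈ range (n + 1), n.choose j * (a - j) =
      ∑ j ∈ range (n + 1 + a), n.choose j * (a - j) := by
    refine Finset.sum_subset (Finset.range_mono (by omega)) fun j _ hj => ?_
    rw [Finset.mem_range] at hj
    rw [Nat.choose_eq_zero_of_lt (by omega)]
    simp
  have h3 : ∑ j ∈ range a, (a - j) * n.choose j =
      ∑ j ∈ range (n + 1 + a), (a - j) * n.choose j := by
    refine Finset.sum_subset (Finset.range_mono (by omega)) fun j _ hj => ?_
    rw [Finset.mem_range] at hj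
    rw [Nat.sub_eq_zero_of_le (by omega)]
    simp
  rw [h2, h3]
  exact Finset.sum_congr rfl fun j _ => mul_comm _ _

/-- The index of the lattice. -/
theorem card_quot_pr (n a : ℕ) :
    2 ^ (∑ j ∈ range a, (a - j) * n.choose j) ≤
      Nat.card (((Fin n → ZMod 2) → ℤ) ⧸ Lam n a) := by
  have hfin : Finite (((Fin n → ZMod 2) → ℤ) ⧸ Lam n a) := finite_quot_pr n a
  have hker : Lam n a ≤ (cardq_hom n a).ker := by
    intro X hX
    rw [AddMonoidHom.mem_ker]
    funext A
    show ((cardq_s A X : ℤ) : ZMod (2 ^ (a - A.card))) = 0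
    rw [ZMod.intCast_zmod_eq_zero_iff_dvd]
    push_cast
    exact cardq_dvd A X hX
  have hs : Function.Surjective (QuotientAddGroup.lift (Lam n a) (cardq_hom n a)
      (fun X hX => hker hX)) := by
    intro t
    obtain ⟨X, hX⟩ := cardq_surj n a t
    exact ⟨QuotientAddGroup.mk X, by simpa using hX⟩
  have h1 := Nat.card_le_card_of_surjective _ hs
  refine le_trans (le_of_eq ?_) h1
  rw [Nat.card_pi]
  simp only [Nat.card_zmod]
  rw [Finset.prod_pow_eq_pow_sum, cardq_count]

end Pool.Agent.BF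

namespace Pool.Agent.BF

theorem card_quot : type_of% @card_quot_pr := @card_quot_pr

end Pool.Agent.BF
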