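import Pool.Agent.Lib_helper92.BF.Defs
import Pool.Agent.Lib_helper75.Bent.Defs

/-!
# The lattice of a bent function
-/

namespace Pool.Agent.BF

open Finset

/-- The integer Walsh transform. -/
def wt {n : ℕ} (X : (Fin n → ZMod 2) → ℤ) (y : Fin n → ZMod 2) : ℤ :=
  ∑ x : Fin n → ZMod 2, (-1) ^ (∑ i, y i * x i).val * X x

/-- `Λ_{n,a}`: the integer functions on `F_2^n` with Walsh transform divisible by `2^a`. -/
def Lam (n a : ℕ) : AddSubgroup ((Fin n → ZMod 2) → ℤ) where
  carrier := {X | ∀ y, (2 : ℤ) ^ a ∣ wt X y}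
  zero_mem' := by intro y; simp [wt]
  add_mem' := by
    intro X Y hX hY y
    have : wt (X + Y) y = wt X y + wt Y y := by
      simp [wt, mul_add, Finset.sum_add_distrib]
    rw [this]; exact dvd_add (hX y) (hY y)
  neg_mem' := by
    intro X hX y
    have : wt (-X) y = -wt X y := by simp [wt, Finset.sum_neg_distrib]
    rw [this]; exact (dvd_neg).2 (hX y)

/-- The generators of `ℤ^ι / Λ`. -/
def ee (n a : ℕ) (x : Fin n → ZMod 2) : ((Fin n → ZMod 2) → ℤ) ⧸ Lam n a :=
  QuotientAddGroup.mk (Pi.single x 1)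

end Pool.Agent.BF
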