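import Pool.Agent.Lib_helper92.BFA.Defs2
import Pool.Agent.Lib_helper92.BFA.MU

set_option linter.unusedSectionVars false

/-! # BF, block EQD: equidistribution -/

namespace Pool.Agent.BF

open Finset Filter Topology

variable {ι : Type} [Fintype ι] [DecidableEq ι] {S : Type} [AddCommGroup S] [Fintype S]
  [DecidableEq S]

/-- Convolution. -/
theorem eqd_conv (e : ι → S) (n : ι → ℕ) : ∀ (k : ℕ) (m : ι → ℕ), ∑ x, m x = k → ∀ g,
    mu e (n + m) g = ∑ h, mu e n (g - h) * mu e m h := by
  intro k
  induction k with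
  | zero =>
    intro m hm g
    have hm0 : m = 0 := by
      funext x
      have := (Finset.sum_eq_zero_iff.1 hm) x (mem_univ x)
      simpa using this
    subst hm0
    simp only [add_zero, mu_zero]
    rw [Finset.sum_eq_single (0 : S)]
    · simp
    · intro b _ hb
      simp [hb]
    · simp
  | succ k ih =>
    intro m hm g
    have hx : ∃ x, m x ≠ 0 := by
      by_contra h
      push Not at h
      have : ∑ x, m x = 0 := Finset.sum_eq_zero fun x _ => h x
      omega
    obtain ⟨x, hx⟩ := hx
    let m' : ι → ℕ := Function.update m x (m x - 1)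
    have hmm : m = m' + Pi.single x 1 := by
      funext y
      by_cases hy : y = x
      · subst hy
        simp only [m', Pi.add_apply, Function.update_self, Pi.single_eq_same]
        omega
      · simp [m', hy]
    have hs : ∑ x, m' x = k := by
      have h1 : ∑ y, m y = ∑ y, m' y + ∑ y, (Pi.single x 1 : ι → ℕ) y := by
        rw [← Finset.sum_add_distrib]
        apply Finset.sum_congr rfl
        intro y _
        conv_lhs => rw [hmm]
        rfl
      rw [Finset.sum_pi_single'] at h1
      simp at h1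
      omega
    have h0 := ih m' hs
    rw [hmm, ← add_assoc, mu_step, h0 g, h0 (g - e x)]
    have h2 : ∑ h, mu e n (g - e x - h) * mu e m' h =
        ∑ h, mu e n (g - h) * mu e m' (h - e x) := by
      rw [← (Equiv.subRight (e x)).sum_comp]
      apply Finset.sum_congr rfl
      intro h _
      simp only [Equiv.subRight_apply]
      congr 2
      abel
    rw [h2]
    simp_rw [mu_step]
    rw [← Finset.sum_add_distrib, Finset.sum_div]
    apply Finset.sum_congr rfl
    intro h _
    ring

/-- Some constant profile has full support. -/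
theorem eqd_pos (e : ι → S) (he : Gen e) : ∃ q : ℕ, 1 ≤ q ∧ ∀ g, 0 < mu e (fun _ => q) g := by
  choose r hr using he
  let q : ℕ := 1 + ∑ g, ∑ x, r g x
  have hq : ∀ g x, r g x ≤ q := by
    intro g x
    have h1 : r g x ≤ ∑ x, r g x := Finset.single_le_sum (f := fun x => r g x)
      (fun _ _ => Nat.zero_le _) (mem_univ x)
    have h2 : ∑ x, r g x ≤ ∑ g, ∑ x, r g x :=
      Finset.single_le_sum (f := fun g => ∑ x, r g x) (fun _ _ => Nat.zero_le _) (mem_univ g)
    omega
  refine ⟨q, by omega, fun g => ?_⟩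
  unfold mu
  apply Finset.sum_pos'
  · intro v _
    split_ifs
    · exact Finset.prod_nonneg fun x _ => by unfold bw; positivity
    · exact le_rfl
  · refine ⟨r g, ?_, ?_⟩
    · rw [Fintype.mem_piFinset]
      intro x
      rw [mem_range]
      exact Nat.lt_succ_of_le (hq g x)
    · rw [if_pos (hr g)]
      apply Finset.prod_pos
      intro x _
      unfold bw
      have : 0 < q.choose (r g x) := Nat.choose_pos (hq g x)
      positivity

theorem eqd_contr (e : ι → S) (q : ℕ) (c : ℝ) (hc : ∀ g, c ≤ mu e (fun _ => q) g) (j : ℕ)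
    (D : ℝ) (hD : ∀ g, |mu e (fun _ => j * q) g - 1 / (Fintype.card S : ℝ)| ≤ D) (g : S) :
    |mu e (fun _ => (j + 1) * q) g - 1 / (Fintype.card S : ℝ)| ≤
      (1 - c * Fintype.card S) * D := by
  have hN : (Fintype.card S : ℝ) ≠ 0 := by
    have : 0 < Fintype.card S := Fintype.card_pos
    positivity
  have h1 : (fun _ : ι => (j + 1) * q) = (fun _ => j * q) + (fun _ => q) := by
    funext x
    simp [add_mul]
  have h2 := eqd_conv e (fun _ => j * q) _ (fun _ => q) rfl g
  rw [h1, h2]
  have h3 : ∑ h, mu e (fun _ => j * q) (g - h) * mu e (fun _ => q) h - 1 / (Fintype.card S : ℝ) =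
      ∑ h, (mu e (fun _ => j * q) (g - h) - 1 / (Fintype.card S : ℝ)) *
        (mu e (fun _ => q) h - c) := by
    have h4 : ∑ h, (mu e (fun _ => j * q) (g - h) - 1 / (Fintype.card S : ℝ)) *
        (mu e (fun _ => q) h - c) =
        ∑ h, mu e (fun _ => j * q) (g - h) * mu e (fun _ => q) h
        - (1 / (Fintype.card S : ℝ)) * ∑ h, mu e (fun _ => q) h
        - c * (∑ h, mu e (fun _ => j * q) (g - h) - ∑ _h : S, 1 / (Fintype.card S : ℝ)) := by
      rw [Finset.mul_sum, ← Finset.sum_sub_distrib, ← Finset.sum_sub_distrib, Finset.mul_sum,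
        ← Finset.sum_sub_distrib]
      apply Finset.sum_congr rfl
      intro h _
      ring
    rw [h4, mu_sum]
    have h5 : ∑ h, mu e (fun _ => j * q) (g - h) = 1 := by
      rw [← mu_sum e (fun _ => j * q)]
      exact (Equiv.subLeft g).sum_comp (fun h => mu e (fun _ => j * q) h)
    rw [h5]
    simp only [Finset.sum_const, card_univ, nsmul_eq_mul]
    field_simp
    ring
  rw [h3]
  calc |∑ h, (mu e (fun _ => j * q) (g - h) - 1 / (Fintype.card S : ℝ)) *
        (mu e (fun _ => q) h - c)|
      ≤ ∑ h, |(mu e (fun _ => j * q) (g - h) - 1 / (Fintype.card S : ℝ)) *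
        (mu e (fun _ => q) h - c)| := Finset.abs_sum_le_sum_abs _ _
    _ ≤ ∑ h, D * (mu e (fun _ => q) h - c) := by
        apply Finset.sum_le_sum
        intro h _
        rw [abs_mul, abs_of_nonneg (sub_nonneg.2 (hc h))]
        exact mul_le_mul_of_nonneg_right (hD _) (sub_nonneg.2 (hc h))
    _ = (1 - c * Fintype.card S) * D := by
        rw [← Finset.mul_sum, Finset.sum_sub_distrib, mu_sum]
        simp only [Finset.sum_const, card_univ, nsmul_eq_mul]
        ring

theorem ent_large_pr (e : ι → S) (he : Gen e) (ε : ℝ) (hε : 0 < ε) (K₀ : ℕ) :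
    ∃ M, K₀ ≤ M ∧ Real.log (Fintype.card S) - ε ≤ ent (mu e (fun _ => M)) := by
  obtain ⟨q, hq, hpos⟩ := eqd_pos e he
  have hNpos : 0 < Fintype.card S := Fintype.card_pos
  have hN : (0 : ℝ) < Fintype.card S := by exact_mod_cast hNpos
  obtain ⟨c, hc0, hc⟩ : ∃ c : ℝ, 0 < c ∧ ∀ g, c ≤ mu e (fun _ => q) g := by
    obtain ⟨g₀, -, hg₀⟩ := Finset.exists_min_image (univ : Finset S) (fun g => mu e (fun _ => q) g)
      ⟨0, mem_univ _⟩
    exact ⟨mu e (fun _ => q) g₀, hpos g₀, fun g => hg₀ g (mem_univ g)⟩
  have hcN : c * Fintype.card S ≤ 1 := by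
    rw [← mu_sum e (fun _ => q)]
    calc c * Fintype.card S = ∑ _g : S, c := by simp [mul_comm]
      _ ≤ _ := Finset.sum_le_sum fun g _ => hc g
  set ρ : ℝ := 1 - c * Fintype.card S with hρ
  have hρ0 : 0 ≤ ρ := by rw [hρ]; linarith
  have hρ1 : ρ < 1 := by
    rw [hρ]
    have := mul_pos hc0 hN
    linarith
  have hbd : ∀ j : ℕ, ∀ g, |mu e (fun _ => j * q) g - 1 / (Fintype.card S : ℝ)| ≤ ρ ^ j := by
    intro j
    induction j with
    | zero =>
      intro g
      have h0 : 0 ≤ mu e (fun _ => 0 * q) g := mu_nonneg _ _ _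
      have h1 : mu e (fun _ => 0 * q) g ≤ 1 := by
        rw [← mu_sum e (fun _ => 0 * q)]
        exact Finset.single_le_sum (f := fun g => mu e (fun _ => 0 * q) g)
          (fun g _ => mu_nonneg _ _ _) (mem_univ g)
      have h2 : (0 : ℝ) ≤ 1 / (Fintype.card S : ℝ) := by positivity
      have h3 : 1 / (Fintype.card S : ℝ) ≤ 1 := by
        rw [div_le_one hN]
        exact_mod_cast hNpos
      rw [pow_zero, abs_le]
      constructor <;> linarith
    | succ j ih =>
      intro g
      have := eqd_contr e q c hc j (ρ ^ j) ih g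
      rw [pow_succ, mul_comm (ρ ^ j)]
      exact this
  have hlim : ∀ g, Tendsto (fun j : ℕ => mu e (fun _ => j * q) g) atTop
      (𝓝 (1 / (Fintype.card S : ℝ))) := by
    intro g
    rw [tendsto_iff_dist_tendsto_zero]
    refine squeeze_zero (fun _ => dist_nonneg) (fun j => ?_)
      (tendsto_pow_atTop_nhds_zero_of_lt_one hρ0 hρ1)
    rw [Real.dist_eq]
    exact hbd j g
  have hent : Tendsto (fun j : ℕ => ent (mu e (fun _ => j * q))) atTop
      (𝓝 (Real.log (Fintype.card S))) := by
    have h1 : Real.log (Fintype.card S) =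
        ∑ _g : S, Real.negMulLog (1 / (Fintype.card S : ℝ)) := by
      simp only [Finset.sum_const, card_univ, nsmul_eq_mul, Real.negMulLog, one_div,
        Real.log_inv]
      field_simp
    rw [h1]
    unfold ent
    apply tendsto_finsetSum
    intro g _
    exact (Real.continuous_negMulLog.tendsto _).comp (hlim g)
  have hev : ∀ᶠ j : ℕ in atTop, Real.log (Fintype.card S) - ε < ent (mu e (fun _ => j * q)) :=
    hent.eventually (lt_mem_nhds (by linarith))
  obtain ⟨j, hj1, hj2⟩ := (hev.and (eventually_ge_atTop K₀)).exists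
  refine ⟨j * q, ?_, hj1.le⟩
  calc K₀ ≤ j := hj2
    _ = j * 1 := (mul_one j).symm
    _ ≤ j * q := Nat.mul_le_mul_left j hq

end Pool.Agent.BF

namespace Pool.Agent.BF

theorem ent_large : type_of% @ent_large_pr := @ent_large_pr

end Pool.Agent.BF
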