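import Pool.Agent.Lib_helper92.BFA.Defs2
import Pool.Agent.Lib_helper92.BFA.MU

set_option linter.unusedSectionVars false

/-! Block EXP1: expectations on `Om ι K` and the law. -/

namespace Pool.Agent.BF

open Finset

variable {ι : Type} [Fintype ι] [DecidableEq ι] {S : Type} [AddCommGroup S] [Fintype S]
  [DecidableEq S]

/-- flip one bit -/
def exp1_flip {K : ℕ} (j : ι × Fin K) (ω : Om ι K) : Om ι K := Function.update ω j (!(ω j))

theorem exp1_flip_flip {K : ℕ} (j : ι × Fin K) (ω : Om ι K) :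
    exp1_flip j (exp1_flip j ω) = ω := by
  unfold exp1_flip
  simp

theorem exp1_flip_same {K : ℕ} (j : ι × Fin K) (ω : Om ι K) : exp1_flip j ω j = !(ω j) := by
  unfold exp1_flip
  simp

theorem exp1_flip_ne {K : ℕ} (j i : ι × Fin K) (h : i ≠ j) (ω : Om ι K) :
    exp1_flip j ω i = ω i := by
  unfold exp1_flip
  simp [h]

theorem exp1_Ex_flip {K : ℕ} (j : ι × Fin K) (G : Om ι K → ℝ) :
    Ex (fun ω => G (exp1_flip j ω)) = Ex G := by
  unfold Ex
  congr 1
  exact Equiv.sum_comp (Function.Involutive.toPerm (exp1_flip j) (exp1_flip_flip j)) G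

theorem exp1_Ex_add {α : Type} [Fintype α] (F G : α → ℝ) :
    Ex (fun a => F a + G a) = Ex F + Ex G := by
  unfold Ex
  rw [Finset.sum_add_distrib, add_div]

theorem exp1_Ex_smul {α : Type} [Fintype α] (c : ℝ) (F : α → ℝ) :
    Ex (fun a => c * F a) = c * Ex F := by
  unfold Ex
  rw [← Finset.mul_sum, mul_div_assoc]

theorem exp1_bt_not (b : Bool) : bt (!b) = - bt b := by
  cases b <;> simp [bt]

/-- a function that does not depend on a bit is orthogonal to the sign of the bit -/
theorem exp1_orth {K : ℕ} (j : ι × Fin K) (H : Om ι K → ℝ)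
    (hH : ∀ ω, H (exp1_flip j ω) = H ω) : Ex (fun ω => H ω * bt (ω j)) = 0 := by
  have h1 := exp1_Ex_flip j (fun ω => H ω * bt (ω j))
  simp only [hH, exp1_flip_same, exp1_bt_not] at h1
  have h2 : Ex (fun ω => H ω * -bt (ω j)) = - Ex (fun ω => H ω * bt (ω j)) := by
    have := exp1_Ex_smul (-1) (fun ω => H ω * bt (ω j))
    rw [neg_one_mul] at this
    rw [← this]
    congr 1
    funext ω
    ring
  rw [h2] at h1
  linarith

/-- partial syndrome -/
def exp1_P (e : ι → S) {K : ℕ} (A : Finset (ι × Fin K)) (ω : Om ι K) : S :=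
  ∑ j ∈ A, if ω j then e j.1 else 0

theorem exp1_P_flip (e : ι → S) {K : ℕ} (A : Finset (ι × Fin K)) (j : ι × Fin K) (hj : j ∉ A)
    (ω : Om ι K) : exp1_P e A (exp1_flip j ω) = exp1_P e A ω := by
  unfold exp1_P
  refine Finset.sum_congr rfl fun i hi => ?_
  rw [exp1_flip_ne j i (fun h => hj (h ▸ hi))]

/-- number of bits of `A` at every coordinate -/
def exp1_n {K : ℕ} (A : Finset (ι × Fin K)) (x : ι) : ℕ := (A.filter fun j => j.1 = x).card

theorem exp1_n_insert {K : ℕ} (A : Finset (ι × Fin K)) (j : ι × Fin K) (hj : j ∉ A) :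
    exp1_n (insert j A) = exp1_n A + Pi.single j.1 1 := by
  funext x
  unfold exp1_n
  rw [Finset.filter_insert, Pi.add_apply]
  by_cases h : j.1 = x
  · rw [if_pos h, Finset.card_insert_of_notMem (by simp [hj]), ← h]
    simp
  · rw [if_neg h, Pi.single_eq_of_ne (fun h' => h h'.symm)]
    rfl

theorem exp1_split (e : ι → S) {K : ℕ} (A : Finset (ι × Fin K)) (j : ι × Fin K) (hj : j ∉ A)
    (φ : S → ℝ) (ω : Om ι K) : φ (exp1_P e (insert j A) ω) =
      (1 / 2) * (φ (e j.1 + exp1_P e A ω) + φ (exp1_P e A ω)) +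
      (1 / 2) * ((φ (e j.1 + exp1_P e A ω) - φ (exp1_P e A ω)) * bt (ω j)) := by
  have h1 : exp1_P e (insert j A) ω = (if ω j then e j.1 else 0) + exp1_P e A ω := by
    unfold exp1_P
    rw [Finset.sum_insert hj]
  rw [h1]
  cases h : ω j
  · simp [bt]
    ring
  · simp [bt]
    ring

theorem exp1_shift (φ : S → ℝ) (ν : S → ℝ) (a : S) :
    ∑ g, φ (a + g) * ν g = ∑ g, φ g * ν (g - a) := by
  rw [← Equiv.sum_comp (Equiv.addLeft a) (fun g => φ g * ν (g - a))]
  refine Finset.sum_congr rfl fun g _ => ?_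
  simp

theorem exp1_main (e : ι → S) {K : ℕ} (A : Finset (ι × Fin K)) : ∀ φ : S → ℝ,
    Ex (fun ω : Om ι K => φ (exp1_P e A ω)) = ∑ g, φ g * mu e (exp1_n A) g := by
  induction A using Finset.induction_on with
  | empty =>
    intro φ
    have h1 : exp1_n (∅ : Finset (ι × Fin K)) = 0 := by
      funext x
      simp [exp1_n]
    rw [h1]
    simp only [mu_zero]
    unfold Ex exp1_P
    simp
  | insert j A hj ih =>
    intro φ
    simp only [exp1_split e A j hj φ]
    rw [exp1_Ex_add, exp1_Ex_smul, exp1_Ex_smul, exp1_Ex_add,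
      exp1_orth j (fun ω => φ (e j.1 + exp1_P e A ω) - φ (exp1_P e A ω))
        (fun ω => by simp only [exp1_P_flip e A j hj]),
      ih (fun g => φ (e j.1 + g)), ih φ, exp1_n_insert A j hj, exp1_shift, mul_zero, add_zero,
      ← Finset.sum_add_distrib, Finset.mul_sum]
    refine Finset.sum_congr rfl fun g _ => ?_
    rw [mu_step]
    ring

theorem exp1_sg (e : ι → S) {K : ℕ} (ω : Om ι K) : exp1_P e univ ω = sg e ω := by
  unfold exp1_P sg gam
  rw [Fintype.sum_prod_type]
  refine Finset.sum_congr rfl fun x _ => ?_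
  rw [← Finset.sum_filter]
  exact Finset.sum_const (e x)

theorem exp1_n_univ (K : ℕ) : exp1_n (univ : Finset (ι × Fin K)) = fun _ => K := by
  funext x
  unfold exp1_n
  have h : (univ : Finset (ι × Fin K)).filter (fun j => j.1 = x) =
      (univ : Finset (Fin K)).map ⟨fun k => (x, k), fun a b h => (Prod.mk.inj h).2⟩ := by
    ext ⟨a, b⟩
    simp only [Finset.mem_filter, Finset.mem_univ, true_and, Finset.mem_map,
      Function.Embedding.coeFn_mk]
    constructor
    · intro h
      subst h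
      exact ⟨b, rfl⟩
    · rintro ⟨c, hc⟩
      exact ((Prod.mk.inj hc).1).symm
  rw [h, Finset.card_map, Finset.card_univ, Fintype.card_fin]

theorem ex_sg_pr (e : ι → S) (K : ℕ) (φ : S → ℝ) :
    Ex (fun ω : Om ι K => φ (sg e ω)) = ∑ g, φ g * mu e (fun _ => K) g := by
  have := exp1_main e (univ : Finset (ι × Fin K)) φ
  rw [exp1_n_univ] at this
  simpa only [exp1_sg] using this

theorem exp1_n_erase {K : ℕ} (x : ι) (k : Fin K) :
    exp1_n ((univ : Finset (ι × Fin K)).erase (x, k)) = mn K x := by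
  have h1 := exp1_n_insert ((univ : Finset (ι × Fin K)).erase (x, k)) (x, k)
    (Finset.notMem_erase _ _)
  rw [Finset.insert_erase (Finset.mem_univ _), exp1_n_univ] at h1
  funext y
  have h2 := congrFun h1 y
  rw [Pi.add_apply] at h2
  unfold mn
  by_cases h : y = x
  · subst h
    simp only [Pi.single_eq_same] at h2
    simp only [Function.update_self]
    omega
  · rw [Pi.single_eq_of_ne h] at h2
    rw [Function.update_of_ne h]
    omega

theorem ex_sg_bt_pr (e : ι → S) {K : ℕ} (x : ι) (k : Fin K) (φ : S → ℝ) :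
    Ex (fun ω : Om ι K => φ (sg e ω) * bt (ω (x, k))) =
      ∑ g, φ g * ((mu e (mn K x) (g - e x) - mu e (mn K x) g) / 2) := by
  set A := (univ : Finset (ι × Fin K)).erase (x, k) with hA
  have hj : (x, k) ∉ A := Finset.notMem_erase _ _
  have h1 : ∀ ω : Om ι K, φ (sg e ω) * bt (ω (x, k)) =
      (1 / 2) * ((φ (e x + exp1_P e A ω) + φ (exp1_P e A ω)) * bt (ω (x, k))) +
      (1 / 2) * (φ (e x + exp1_P e A ω) + (-1) * φ (exp1_P e A ω)) := by
    intro ω
    have h2 : exp1_P e (insert (x, k) A) ω = sg e ω := by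
      rw [hA, Finset.insert_erase (Finset.mem_univ _), exp1_sg]
    have h3 := exp1_split e A (x, k) hj φ ω
    rw [h2] at h3
    rw [h3]
    have h4 : bt (ω (x, k)) * bt (ω (x, k)) = 1 := by
      cases ω (x, k) <;> simp [bt]
    linear_combination (1 / 2) * (φ (e x + exp1_P e A ω) - φ (exp1_P e A ω)) * h4
  simp only [h1]
  rw [exp1_Ex_add, exp1_Ex_smul, exp1_Ex_smul, exp1_Ex_add, exp1_Ex_smul,
    exp1_orth (x, k) (fun ω => φ (e x + exp1_P e A ω) + φ (exp1_P e A ω))
      (fun ω => by simp only [exp1_P_flip e A (x, k) hj]),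
    exp1_main e A (fun g => φ (e x + g)), exp1_main e A φ, exp1_shift, hA, exp1_n_erase,
    mul_zero, zero_add, Finset.mul_sum, ← Finset.sum_add_distrib, Finset.mul_sum]
  refine Finset.sum_congr rfl fun g _ => ?_
  ring

end Pool.Agent.BF

namespace Pool.Agent.BF

theorem ex_sg : type_of% @ex_sg_pr := @ex_sg_pr

theorem ex_sg_bt : type_of% @ex_sg_bt_pr := @ex_sg_bt_pr

end Pool.Agent.BF
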