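import Pool.Agent.Lib_helper92.BFA.Defs2
import Pool.Agent.Lib_helper92.BFA.EXP1
import Pool.Agent.Lib_helper92.BFA.MU

set_option linter.unusedSectionVars false

/-! Block EXP2: the conditional expectation of a bit. -/

namespace Pool.Agent.BF

open Finset

variable {ι : Type} [Fintype ι] [DecidableEq ι] {S : Type} [AddCommGroup S] [Fintype S]
  [DecidableEq S]

theorem exp2_mu (e : ι → S) {K : ℕ} (hK : 1 ≤ K) (x : ι) (g : S) :
    mu e (fun _ => K) g = (mu e (mn K x) g + mu e (mn K x) (g - e x)) / 2 := by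
  have h1 : (fun _ => K) = mn K x + Pi.single x 1 := by
    funext y
    unfold mn
    by_cases h : y = x
    · subst h
      simp
      omega
    · rw [Pi.add_apply, Function.update_of_ne h, Pi.single_eq_of_ne h]
      rfl
  rw [h1, mu_step]

theorem exp2_hh (e : ι → S) {K : ℕ} (hK : 1 ≤ K) (x : ι) (g : S) :
    hh e K x g * mu e (fun _ => K) g =
      (mu e (mn K x) (g - e x) - mu e (mn K x) g) / 2 := by
  rw [exp2_mu e hK x g]
  unfold hh
  have h1 := mu_nonneg e (mn K x) g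
  have h2 := mu_nonneg e (mn K x) (g - e x)
  rcases (add_nonneg h2 h1).eq_or_lt with h | h
  · have h3 : mu e (mn K x) g = 0 := by linarith
    have h4 : mu e (mn K x) (g - e x) = 0 := by linarith
    rw [h3, h4]
    simp
  · field_simp
    ring

/-- `hh` is the conditional expectation of the sign. -/
theorem ex_hh_pr (e : ι → S) {K : ℕ} (x : ι) (k : Fin K) (φ : S → ℝ) :
    Ex (fun ω : Om ι K => φ (sg e ω) * bt (ω (x, k))) =
      Ex (fun ω : Om ι K => φ (sg e ω) * hh e K x (sg e ω)) := by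
  have hK : 1 ≤ K := by have := k.2; omega
  rw [ex_sg_bt, ex_sg e K (fun g => φ g * hh e K x g)]
  refine Finset.sum_congr rfl fun g _ => ?_
  rw [mul_assoc, exp2_hh e hK]

theorem ex_hh_sq_pr (e : ι → S) {K : ℕ} (hK : 1 ≤ K) (x : ι) :
    Ex (fun ω : Om ι K => hh e K x (sg e ω) ^ 2) = dd (mu e (mn K x)) (e x) := by
  rw [ex_sg e K (fun g => hh e K x g ^ 2)]
  unfold dd
  refine Finset.sum_congr rfl fun g _ => ?_
  rw [sq, mul_assoc, exp2_hh e hK]
  unfold hh
  rw [add_comm (mu e (mn K x) (g - e x))]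
  ring

theorem exp2_cs {α : Type} [Fintype α] [Nonempty α] (F G : α → ℝ) :
    Ex (fun a => F a * G a) ^ 2 ≤ Ex (fun a => F a ^ 2) * Ex (fun a => G a ^ 2) := by
  unfold Ex
  have h1 := Finset.sum_mul_sq_le_sq_mul_sq (Finset.univ : Finset α) F G
  have h2 : (0 : ℝ) < (Fintype.card α : ℝ) := by exact_mod_cast Fintype.card_pos
  rw [div_pow, div_mul_div_comm, ← sq]
  gcongr

theorem cs_hh_pr (e : ι → S) {K : ℕ} (x : ι) (k : Fin K) (φ : S → ℝ) :
    Ex (fun ω : Om ι K => φ (sg e ω) * bt (ω (x, k))) ^ 2 ≤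
      Ex (fun ω : Om ι K => φ (sg e ω) ^ 2) * dd (mu e (mn K x)) (e x) := by
  have hK : 1 ≤ K := by have := k.2; omega
  rw [ex_hh_pr, ← ex_hh_sq_pr e hK x]
  exact exp2_cs (fun ω : Om ι K => φ (sg e ω)) (fun ω : Om ι K => hh e K x (sg e ω))

theorem ww_nonneg_pr (e : ι → S) (K : ℕ) (x : ι) : 0 ≤ ww e K x := by
  unfold ww dd
  refine mul_nonneg (Nat.cast_nonneg K) (Finset.sum_nonneg fun g _ => ?_)
  have h1 := mu_nonneg e (mn K x) g
  have h2 := mu_nonneg e (mn K x) (g - e x)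
  positivity

theorem exp2_Ex_add {α : Type} [Fintype α] (F G : α → ℝ) :
    Ex (fun a => F a + G a) = Ex F + Ex G := by
  unfold Ex
  rw [Finset.sum_add_distrib, add_div]

theorem exp2_Ex_smul {α : Type} [Fintype α] (c : ℝ) (F : α → ℝ) :
    Ex (fun a => c * F a) = c * Ex F := by
  unfold Ex
  rw [← Finset.mul_sum, mul_div_assoc]

theorem exp2_Ex_sum {α β : Type} [Fintype α] (s : Finset β) (F : β → α → ℝ) :
    Ex (fun a => ∑ b ∈ s, F b a) = ∑ b ∈ s, Ex (F b) := by
  unfold Ex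
  rw [Finset.sum_comm, Finset.sum_div]

theorem exp2_Ex_one {α : Type} [Fintype α] [Nonempty α] : Ex (fun _ : α => (1 : ℝ)) = 1 := by
  unfold Ex
  have h2 : (Fintype.card α : ℝ) ≠ 0 := by exact_mod_cast Fintype.card_ne_zero
  simp [h2]

theorem exp2_orth {K : ℕ} (x : ι) (k l : Fin K) :
    Ex (fun ω : Om ι K => bt (ω (x, k)) * bt (ω (x, l))) = if k = l then 1 else 0 := by
  by_cases h : k = l
  · rw [if_pos h]
    subst h
    have : (fun ω : Om ι K => bt (ω (x, k)) * bt (ω (x, k))) = fun _ => (1 : ℝ) := by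
      funext ω
      cases ω (x, k) <;> simp [bt]
    rw [this]
    exact exp2_Ex_one
  · rw [if_neg h]
    set fl : Om ι K → Om ι K := fun ω => Function.update ω (x, k) (!(ω (x, k))) with hfl
    have hinv : ∀ ω, fl (fl ω) = ω := by
      intro ω
      simp [hfl]
    have h1 : Ex (fun ω : Om ι K => bt (fl ω (x, k)) * bt (fl ω (x, l))) =
        Ex (fun ω : Om ι K => bt (ω (x, k)) * bt (ω (x, l))) := by
      unfold Ex
      congr 1
      exact Equiv.sum_comp (Function.Involutive.toPerm fl hinv)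
        (fun ω : Om ι K => bt (ω (x, k)) * bt (ω (x, l)))
    have h2 : ∀ ω : Om ι K, bt (fl ω (x, k)) * bt (fl ω (x, l)) =
        (-1) * (bt (ω (x, k)) * bt (ω (x, l))) := by
      intro ω
      have h3 : fl ω (x, k) = !(ω (x, k)) := by simp [hfl]
      have h4 : fl ω (x, l) = ω (x, l) := by
        have : (x, l) ≠ (x, k) := fun h' => h ((Prod.mk.inj h').2).symm
        simp only [hfl]
        rw [Function.update_of_ne this]
      rw [h3, h4]
      cases ω (x, k) <;> simp [bt]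
    simp only [h2] at h1
    rw [exp2_Ex_smul] at h1
    linarith

theorem ww_le_one_pr (e : ι → S) {K : ℕ} (hK : 1 ≤ K) (x : ι) : ww e K x ≤ 1 := by
  have hK' : (0 : ℝ) < K := by exact_mod_cast hK
  set D := dd (mu e (mn K x)) (e x) with hD
  have h0 : 0 ≤ Ex (fun ω : Om ι K =>
      ((∑ k : Fin K, bt (ω (x, k))) - K * hh e K x (sg e ω)) ^ 2) := by
    unfold Ex
    refine div_nonneg (Finset.sum_nonneg fun ω _ => sq_nonneg _) (Nat.cast_nonneg _)
  have h1 : ∀ ω : Om ι K, ((∑ k : Fin K, bt (ω (x, k))) - K * hh e K x (sg e ω)) ^ 2 =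
      (∑ k : Fin K, ∑ l : Fin K, bt (ω (x, k)) * bt (ω (x, l))) +
      ((-2 * K) * (∑ k : Fin K, hh e K x (sg e ω) * bt (ω (x, k))) +
      (K : ℝ) ^ 2 * hh e K x (sg e ω) ^ 2) := by
    intro ω
    rw [← Finset.mul_sum, ← Finset.sum_mul_sum]
    ring
  simp only [h1] at h0
  rw [exp2_Ex_add, exp2_Ex_add, exp2_Ex_smul, exp2_Ex_smul, exp2_Ex_sum, exp2_Ex_sum,
    ex_hh_sq_pr e hK x, ← hD] at h0
  have h2 : ∀ k : Fin K, Ex (fun ω : Om ι K => ∑ l : Fin K, bt (ω (x, k)) * bt (ω (x, l))) =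
      1 := by
    intro k
    rw [exp2_Ex_sum]
    simp only [exp2_orth]
    simp
  have h3 : ∀ k : Fin K, Ex (fun ω : Om ι K => hh e K x (sg e ω) * bt (ω (x, k))) = D := by
    intro k
    rw [ex_hh_pr e x k (fun g => hh e K x g), hD, ← ex_hh_sq_pr e hK x]
    congr 1
    funext ω
    ring
  simp only [h2, h3] at h0
  simp only [Finset.sum_const, Finset.card_univ, Fintype.card_fin, nsmul_eq_mul, mul_one] at h0
  unfold ww
  rw [← hD]
  have h4 : 0 ≤ K * (1 - K * D) := by nlinarith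
  have h5 := nonneg_of_mul_nonneg_right h4 hK'
  linarith

end Pool.Agent.BF

namespace Pool.Agent.BF

theorem ex_hh : type_of% @ex_hh_pr := @ex_hh_pr

theorem ex_hh_sq : type_of% @ex_hh_sq_pr := @ex_hh_sq_pr

theorem cs_hh : type_of% @cs_hh_pr := @cs_hh_pr

theorem ww_nonneg : type_of% @ww_nonneg_pr := @ww_nonneg_pr

theorem ww_le_one : type_of% @ww_le_one_pr := @ww_le_one_pr

end Pool.Agent.BF
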