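import Pool.Agent.Lib_helper92.BFA.Defs2
import Pool.Agent.Lib_helper92.BFA.EXP2

set_option linter.unusedSectionVars false

/-!
# BF block EST: estimation of the noise
-/

namespace Pool.Agent.BF

open Finset

variable {ι : Type} [Fintype ι] [DecidableEq ι] {S : Type} [AddCommGroup S] [Fintype S]
  [DecidableEq S]

lemma est_ex_sum {α β : Type} [Fintype α] (s : Finset β) (f : α → β → ℝ) :
    Ex (fun a => ∑ b ∈ s, f a b) = ∑ b ∈ s, Ex (fun a => f a b) := by
  unfold Ex
  rw [Finset.sum_comm, Finset.sum_div]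

lemma est_ex_mul {α : Type} [Fintype α] (c : ℝ) (f : α → ℝ) :
    Ex (fun a => c * f a) = c * Ex f := by
  unfold Ex
  rw [← Finset.mul_sum]; ring

lemma est_ex_add {α : Type} [Fintype α] (f g : α → ℝ) :
    Ex (fun a => f a + g a) = Ex f + Ex g := by
  unfold Ex
  rw [Finset.sum_add_distrib]; ring

lemma est_ex_mono {α : Type} [Fintype α] {f g : α → ℝ} (h : ∀ a, f a ≤ g a) :
    Ex f ≤ Ex g := by
  unfold Ex
  exact div_le_div_of_nonneg_right (Finset.sum_le_sum fun a _ => h a) (Nat.cast_nonneg _)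

lemma est_orth {K : ℕ} (x : ι) (k l : Fin K) :
    Ex (fun ω : Om ι K => bt (ω (x, k)) * bt (ω (x, l))) = if k = l then 1 else 0 := by
  split_ifs with h
  · subst h
    have : ∀ b : Bool, bt b * bt b = 1 := by intro b; cases b <;> norm_num [bt]
    unfold Ex
    simp [this]
  · let f : Om ι K → Om ι K := fun ω => Function.update ω (x, k) (!(ω (x, k)))
    have hf : Function.Involutive f := by
      intro ω
      simp [f]
    have hne : (x, l) ≠ (x, k) := by
      intro h'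
      exact h (Prod.mk.inj h').2.symm
    have h1 : ∑ ω : Om ι K, bt (ω (x, k)) * bt (ω (x, l)) =
        ∑ ω : Om ι K, bt (f ω (x, k)) * bt (f ω (x, l)) :=
      (Equiv.sum_comp (hf.toPerm f) (fun ω : Om ι K => bt (ω (x, k)) * bt (ω (x, l)))).symm
    have h2 : ∀ ω : Om ι K, bt (f ω (x, k)) * bt (f ω (x, l)) =
        -(bt (ω (x, k)) * bt (ω (x, l))) := by
      intro ω
      have e1 : f ω (x, k) = !(ω (x, k)) := by simp [f]
      have e2 : f ω (x, l) = ω (x, l) := by simp [f, Function.update_of_ne hne]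
      rw [e1, e2]
      cases ω (x, k) <;> cases ω (x, l) <;> norm_num [bt]
    rw [Finset.sum_congr rfl fun ω _ => h2 ω, Finset.sum_neg_distrib] at h1
    unfold Ex
    have : ∑ ω : Om ι K, bt (ω (x, k)) * bt (ω (x, l)) = 0 := by linarith
    rw [this, zero_div]

omit [Fintype ι] [DecidableEq ι] in
lemma est_sum_bt {K : ℕ} (ω : Om ι K) (x : ι) :
    ∑ k : Fin K, bt (ω (x, k)) = 2 * (gam ω x : ℝ) - K := by
  have h : ∀ k : Fin K, bt (ω (x, k)) = 2 * (if ω (x, k) = true then (1 : ℝ) else 0) - 1 := by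
    intro k
    cases ω (x, k) <;> norm_num [bt]
  rw [Finset.sum_congr rfl fun k _ => h k, Finset.sum_sub_distrib, ← Finset.mul_sum,
    Finset.sum_boole]
  simp [gam]

theorem est_pr (e : ι → S) {K : ℕ} (hK : 1 ≤ K) : ∃ est : S → ι → ℤ,
    Ex (fun ω : Om ι K => ∑ x, |((gam ω x : ℤ) - est (sg e ω) x : ℝ)|) ≤
      ∑ x, K * (1 - ww e K x) := by
  refine ⟨fun g x => round ((K + K * hh e K x g) / 2), ?_⟩
  rw [est_ex_sum]
  refine Finset.sum_le_sum fun x _ => ?_
  have hpt : ∀ ω : Om ι K,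
      |((gam ω x : ℤ) - (round ((K + K * hh e K x (sg e ω)) / 2) : ℤ) : ℝ)| ≤
        (∑ k : Fin K, bt (ω (x, k)) - K * hh e K x (sg e ω)) ^ 2 := by
    intro ω
    rw [est_sum_bt]
    set m : ℝ := (K + K * hh e K x (sg e ω)) / 2 with hm
    have h1 := round_le m (gam ω x : ℤ)
    set n : ℤ := (gam ω x : ℤ) - round m with hn
    have h2 : |(n : ℝ)| ≤ 2 * |m - (gam ω x : ℤ)| := by
      have : (n : ℝ) = (m - round m) - (m - (gam ω x : ℤ)) := by rw [hn]; push_cast; ring
      rw [this]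
      have := abs_sub (m - (round m : ℝ)) (m - ((gam ω x : ℤ) : ℝ))
      linarith
    have h3 : |(n : ℝ)| ≤ (n : ℝ) ^ 2 := by
      have : |n| ≤ n ^ 2 := by
        rw [← sq_abs]
        rcases eq_or_ne n 0 with h | h
        · simp [h]
        · have : 1 ≤ |n| := Int.one_le_abs h
          nlinarith
      exact_mod_cast this
    have h4 : (n : ℝ) ^ 2 ≤ (2 * |m - (gam ω x : ℤ)|) ^ 2 := by
      rw [← sq_abs (n : ℝ)]
      exact pow_le_pow_left₀ (abs_nonneg _) h2 2
    have h5 : (2 * |m - (gam ω x : ℤ)|) ^ 2 = (2 * (gam ω x : ℝ) - K - K * hh e K x (sg e ω)) ^ 2 := by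
      rw [mul_pow, sq_abs, hm]; push_cast; ring
    have h6 : ((gam ω x : ℤ) - (round m : ℤ) : ℝ) = (n : ℝ) := by rw [hn]; push_cast; ring
    rw [h6]
    linarith
  refine (est_ex_mono hpt).trans ?_
  have hexp : (fun ω : Om ι K => (∑ k : Fin K, bt (ω (x, k)) - K * hh e K x (sg e ω)) ^ 2) =
      fun ω : Om ι K => ((∑ k : Fin K, ∑ l : Fin K, bt (ω (x, k)) * bt (ω (x, l))) +
        (-(2 * K)) * ∑ k : Fin K, hh e K x (sg e ω) * bt (ω (x, k))) +
          K ^ 2 * hh e K x (sg e ω) ^ 2 := by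
    funext ω
    rw [← Finset.sum_mul_sum, ← Finset.mul_sum]
    ring
  rw [hexp, est_ex_add, est_ex_add, est_ex_mul, est_ex_mul, est_ex_sum, est_ex_sum, ex_hh_sq e hK]
  have a1 : ∀ k : Fin K, Ex (fun ω : Om ι K => ∑ l : Fin K, bt (ω (x, k)) * bt (ω (x, l))) = 1 := by
    intro k
    rw [est_ex_sum]
    simp [est_orth]
  have a2 : ∀ k : Fin K, Ex (fun ω : Om ι K => hh e K x (sg e ω) * bt (ω (x, k))) =
      dd (mu e (mn K x)) (e x) := by
    intro k
    rw [ex_hh e x k (hh e K x), ← ex_hh_sq e hK]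
    congr 1
    funext ω
    ring
  simp only [a1, a2, Finset.sum_const, Finset.card_univ, Fintype.card_fin, nsmul_eq_mul]
  unfold ww
  apply le_of_eq
  ring

end Pool.Agent.BF

namespace Pool.Agent.BF

theorem est : type_of% @est_pr := @est_pr

end Pool.Agent.BF
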