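import Pool.Agent.Lib_helper92.BFA.Defs2

set_option linter.unusedSectionVars false

/-!
# BF block FC: contraction on the cube (Walsh expansion)
-/

namespace Pool.Agent.BF

open Finset

section FCgen

variable {J : Type} [Fintype J] [DecidableEq J]

/-- The Walsh character of a set of coordinates. -/
noncomputable def fc_ch (A : Finset J) (ω : J → Bool) : ℝ := ∏ j ∈ A, bt (ω j)

lemma fc_bt_mul (b c : Bool) : 1 + bt b * bt c = if b = c then 2 else 0 := by
  cases b <;> cases c <;> norm_num [bt]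

omit [DecidableEq J] in
lemma fc_sum_ch (ω ω' : J → Bool) :
    ∑ A : Finset J, fc_ch A ω * fc_ch A ω' = if ω = ω' then 2 ^ Fintype.card J else 0 := by
  have h : ∑ A : Finset J, fc_ch A ω * fc_ch A ω' = ∏ j, (1 + bt (ω j) * bt (ω' j)) := by
    rw [Finset.prod_one_add]
    simp [fc_ch, Finset.prod_mul_distrib]
  rw [h]
  split_ifs with hw
  · subst hw
    simp [fc_bt_mul]
  · have : ∃ j, ω j ≠ ω' j := by
      by_contra hc
      push Not at hc
      exact hw (funext hc)
    obtain ⟨j, hj⟩ := this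
    apply Finset.prod_eq_zero (mem_univ j)
    rw [fc_bt_mul, if_neg hj]

lemma fc_card : (Fintype.card (J → Bool) : ℝ) = 2 ^ Fintype.card J := by
  simp

/-- Parseval. -/
lemma fc_parseval (F : (J → Bool) → ℝ) :
    ∑ A : Finset J, Ex (fun ω => F ω * fc_ch A ω) ^ 2 = Ex (fun ω => F ω ^ 2) := by
  have hpos : (0 : ℝ) < 2 ^ Fintype.card J := by positivity
  unfold Ex
  rw [fc_card]
  have h1 : ∀ A : Finset J, ((∑ ω, F ω * fc_ch A ω) / (2 : ℝ) ^ Fintype.card J) ^ 2
      = (∑ ω, ∑ ω', F ω * F ω' * (fc_ch A ω * fc_ch A ω')) / ((2 : ℝ) ^ Fintype.card J) ^ 2 := by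
    intro A
    rw [div_pow, sq (∑ ω, F ω * fc_ch A ω), Finset.sum_mul_sum]
    congr 1
    refine Finset.sum_congr rfl fun ω _ => Finset.sum_congr rfl fun ω' _ => ?_
    ring
  rw [Finset.sum_congr rfl fun A _ => h1 A, ← Finset.sum_div]
  rw [Finset.sum_comm]
  have h2 : ∀ ω : J → Bool, ∑ A : Finset J, ∑ ω', F ω * F ω' * (fc_ch A ω * fc_ch A ω')
      = F ω ^ 2 * 2 ^ Fintype.card J := by
    intro ω
    rw [Finset.sum_comm]
    have : ∀ ω' : J → Bool, ∑ A : Finset J, F ω * F ω' * (fc_ch A ω * fc_ch A ω')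
        = if ω = ω' then F ω * F ω' * 2 ^ Fintype.card J else 0 := by
      intro ω'
      rw [← Finset.mul_sum, fc_sum_ch]
      split_ifs <;> simp
    rw [Finset.sum_congr rfl fun ω' _ => this ω', Finset.sum_ite_eq]
    simp [sq]
  rw [Finset.sum_congr rfl fun ω _ => h2 ω, ← Finset.sum_mul]
  field_simp

/-- Reindexing the average. -/
lemma fc_ex_equiv {α β : Type} [Fintype α] [Fintype β] (f : α ≃ β) (F : β → ℝ) :
    Ex (fun a => F (f a)) = Ex F := by
  unfold Ex
  rw [Fintype.card_congr f, Equiv.sum_comp f F]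

/-- The coefficient of an odd function at a set of even size vanishes. -/
lemma fc_even (F : (J → Bool) → ℝ) (hodd : ∀ ω, F (fun j => !(ω j)) = -F ω) (A : Finset J)
    (hA : Even A.card) : Ex (fun ω => F ω * fc_ch A ω) = 0 := by
  let f : (J → Bool) ≃ (J → Bool) :=
    { toFun := fun ω j => !(ω j)
      invFun := fun ω j => !(ω j)
      left_inv := fun ω => by funext j; simp
      right_inv := fun ω => by funext j; simp }
  have h := fc_ex_equiv f (fun ω => F ω * fc_ch A ω)
  have h2 : ∀ ω, F (f ω) * fc_ch A (f ω) = -(F ω * fc_ch A ω) := by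
    intro ω
    have e1 : F (f ω) = -F ω := hodd ω
    have e2 : fc_ch A (f ω) = fc_ch A ω := by
      unfold fc_ch
      have : ∀ j ∈ A, bt (f ω j) = (-1) * bt (ω j) := by
        intro j _
        show bt (!(ω j)) = _
        cases ω j <;> norm_num [bt]
      rw [Finset.prod_congr rfl this, Finset.prod_mul_distrib, Finset.prod_const, hA.neg_one_pow,
        one_mul]
    rw [e1, e2]; ring
  have h3 : Ex (fun ω => F (f ω) * fc_ch A (f ω)) = - Ex (fun ω => F ω * fc_ch A ω) := by
    unfold Ex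
    rw [Finset.sum_congr rfl fun ω _ => h2 ω, Finset.sum_neg_distrib, neg_div]
  linarith

end FCgen

variable {ι : Type} [Fintype ι] [DecidableEq ι]

/-- The embedding of the first `K` bits. -/
def fc_emb (ι : Type) (K : ℕ) : ι × Fin K ↪ ι × Fin (K + 1) where
  toFun j := (j.1, j.2.castSucc)
  inj' := by
    rintro ⟨y, k⟩ ⟨z, l⟩ h
    simp only [Prod.mk.injEq, Fin.castSucc_inj] at h
    simp [h.1, h.2]

/-- Glueing is a bijection. -/
def fc_glue (ι : Type) (K : ℕ) : Om ι K × (ι → Bool) ≃ Om ι (K + 1) where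
  toFun p := glue p.1 p.2
  invFun ω := (fun j => ω (j.1, j.2.castSucc), fun y => ω (y, Fin.last K))
  left_inv := by
    rintro ⟨ω, η⟩
    simp [glue]
  right_inv := by
    intro ω
    funext ⟨y, k⟩
    refine Fin.lastCases ?_ (fun k => ?_) k
    · simp [glue]
    · simp [glue]

lemma fc_ex_prod {α β : Type} [Fintype α] [Fintype β] (f : α → β → ℝ) :
    Ex (fun a => Ex (fun b => f a b)) = Ex (fun p : α × β => f p.1 p.2) := by
  unfold Ex
  rw [Fintype.sum_prod_type, Fintype.card_prod, ← Finset.sum_div, div_div, Nat.cast_mul,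
    mul_comm (Fintype.card β : ℝ)]

lemma fc_ex_mul {α : Type} [Fintype α] (f : α → ℝ) (c : ℝ) :
    Ex f * c = Ex (fun a => f a * c) := by
  unfold Ex
  rw [← Finset.sum_mul]; ring

lemma fc_coef (K : ℕ) (F : Om ι (K + 1) → ℝ) (B : Finset (ι × Fin K)) :
    Ex (fun ω : Om ι K => Ex (fun η : ι → Bool => F (glue ω η)) * fc_ch B ω) =
      Ex (fun ω => F ω * fc_ch (B.map (fc_emb ι K)) ω) := by
  have h1 : (fun ω : Om ι K => Ex (fun η : ι → Bool => F (glue ω η)) * fc_ch B ω)
      = fun ω : Om ι K => Ex (fun η : ι → Bool => F (glue ω η) * fc_ch B ω) := by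
    funext ω
    rw [fc_ex_mul]
  rw [h1, fc_ex_prod, ← fc_ex_equiv (fc_glue ι K)]
  congr 1
  funext p
  show F (glue p.1 p.2) * fc_ch B p.1 = F (glue p.1 p.2) * fc_ch (B.map (fc_emb ι K)) (glue p.1 p.2)
  congr 1
  unfold fc_ch
  rw [Finset.prod_map]
  refine Finset.prod_congr rfl fun j _ => ?_
  show bt (p.1 j) = bt (glue p.1 p.2 (j.1, j.2.castSucc))
  simp [glue]

lemma fc_avoid (K : ℕ) (c : Finset (ι × Fin (K + 1)) → ℝ) :
    ∑ B : Finset (ι × Fin K), c (B.map (fc_emb ι K)) =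
      ∑ A : Finset (ι × Fin (K + 1)), if ∀ y, (y, Fin.last K) ∉ A then c A else 0 := by
  rw [← Finset.sum_filter]
  have h : (univ.filter fun A : Finset (ι × Fin (K + 1)) => ∀ y, (y, Fin.last K) ∉ A)
      = univ.map (Finset.mapEmbedding (fc_emb ι K)).toEmbedding := by
    ext A
    simp only [mem_filter, mem_univ, true_and, mem_map]
    constructor
    · intro hA
      refine ⟨univ.filter fun j => fc_emb ι K j ∈ A, ?_⟩
      show Finset.map _ _ = A
      ext ⟨y, k⟩
      simp only [mem_map, mem_filter, mem_univ, true_and]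
      constructor
      · rintro ⟨j, hj, hj2⟩
        rwa [← hj2]
      · intro hk
        revert hk
        refine Fin.lastCases (fun hk => ?_) (fun k hk => ?_) k
        · exact absurd hk (hA y)
        · exact ⟨(y, k), hk, rfl⟩
    · rintro ⟨B, rfl⟩ y hy
      have hy' : (y, Fin.last K) ∈ B.map (fc_emb ι K) := hy
      simp only [mem_map] at hy'
      obtain ⟨j, _, hj⟩ := hy'
      have := congrArg Prod.snd hj
      exact absurd this (Fin.castSucc_lt_last j.2).ne
  rw [h, Finset.sum_map]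
  rfl

lemma fc_avoid_sym (K : ℕ) (c : Finset (ι × Fin (K + 1)) → ℝ)
    (hc : ∀ (τ : ι → Equiv.Perm (Fin (K + 1))) (A : Finset (ι × Fin (K + 1))),
      c (A.map (Equiv.prodShear (Equiv.refl ι) τ).toEmbedding) = c A) (k : ι → Fin (K + 1)) :
    (∑ A : Finset (ι × Fin (K + 1)), if ∀ y, (y, Fin.last K) ∉ A then c A else 0) =
      ∑ A : Finset (ι × Fin (K + 1)), c A * ∏ y, (if (y, k y) ∉ A then (1 : ℝ) else 0) := by
  set e : ι × Fin (K + 1) ≃ ι × Fin (K + 1) :=
    Equiv.prodShear (Equiv.refl ι) (fun y => Equiv.swap (Fin.last K) (k y)) with he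
  rw [← Equiv.sum_comp (Equiv.finsetCongr e)]
  refine Finset.sum_congr rfl fun A _ => ?_
  have h1 : c (Equiv.finsetCongr e A) = c A := hc _ A
  rw [h1]
  have h2 : ∀ y, ((y, Fin.last K) ∉ Equiv.finsetCongr e A) ↔ (y, k y) ∉ A := by
    intro y
    rw [not_iff_not]
    show (y, Fin.last K) ∈ A.map e.toEmbedding ↔ _
    rw [Finset.mem_map_equiv]
    have : e.symm (y, Fin.last K) = (y, k y) := by
      rw [Equiv.symm_apply_eq]
      simp [he, Equiv.prodShear]
    rw [this]
  simp only [h2]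
  split_ifs with h
  · rw [Finset.prod_eq_one, mul_one]
    intro y _
    rw [if_pos (h y)]
  · push Not at h
    obtain ⟨y, hy⟩ := h
    rw [Finset.prod_eq_zero (mem_univ y), mul_zero]
    rw [if_neg (not_not.2 hy)]

/-- The weight of `A`. -/
noncomputable def fc_wt (K : ℕ) (A : Finset (ι × Fin (K + 1))) : ℝ :=
  ∏ y, ((∑ k : Fin (K + 1), (if (y, k) ∉ A then (1 : ℝ) else 0)) / (K + 1))

lemma fc_average (K : ℕ) (c : Finset (ι × Fin (K + 1)) → ℝ)
    (hc : ∀ (τ : ι → Equiv.Perm (Fin (K + 1))) (A : Finset (ι × Fin (K + 1))),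
      c (A.map (Equiv.prodShear (Equiv.refl ι) τ).toEmbedding) = c A) :
    (∑ A : Finset (ι × Fin (K + 1)), if ∀ y, (y, Fin.last K) ∉ A then c A else 0) =
      ∑ A : Finset (ι × Fin (K + 1)), c A * fc_wt K A := by
  have h1 : ∀ A : Finset (ι × Fin (K + 1)), c A * fc_wt K A =
      (∑ k : ι → Fin (K + 1), c A * ∏ y, (if (y, k y) ∉ A then (1 : ℝ) else 0)) /
        ((K : ℝ) + 1) ^ Fintype.card ι := by
    intro A
    unfold fc_wt
    rw [Finset.prod_div_distrib, Finset.prod_univ_sum, Finset.prod_const, Finset.card_univ,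
      ← Finset.mul_sum, mul_div_assoc]
    simp [Fintype.piFinset_univ]
  rw [Finset.sum_congr rfl fun A _ => h1 A, ← Finset.sum_div, Finset.sum_comm]
  rw [← Finset.sum_congr rfl fun k _ => fc_avoid_sym K c hc k]
  rw [Finset.sum_const, Finset.card_univ, Fintype.card_fun, Fintype.card_fin, nsmul_eq_mul]
  have : ((K : ℝ) + 1) ^ Fintype.card ι ≠ 0 := by positivity
  push_cast
  field_simp

lemma fc_wt_le (K : ℕ) (A : Finset (ι × Fin (K + 1))) :
    fc_wt K A ≤ ((K : ℝ) / (K + 1)) ^ A.card := by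
  have hK : (0 : ℝ) < K + 1 := by positivity
  unfold fc_wt
  have hcard : A.card = ∑ y : ι, (univ.filter fun k : Fin (K + 1) => (y, k) ∈ A).card := by
    rw [Finset.card_eq_sum_card_fiberwise (f := Prod.fst) (t := univ) (fun _ _ => mem_univ _)]
    refine Finset.sum_congr rfl fun y _ => ?_
    refine Finset.card_bij' (fun j _ => j.2) (fun k _ => (y, k)) ?_ ?_ ?_ ?_
    · rintro ⟨z, k⟩ h
      simp only [mem_filter] at h
      obtain ⟨h1, rfl⟩ := h
      simpa using h1
    · intro k h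
      simpa using h
    · rintro ⟨z, k⟩ h
      simp only [mem_filter] at h
      obtain ⟨h1, rfl⟩ := h
      rfl
    · intro k h
      rfl
  rw [hcard, ← Finset.prod_pow_eq_pow_sum]
  refine Finset.prod_le_prod (fun y _ => ?_) (fun y _ => ?_)
  · exact div_nonneg (Finset.sum_nonneg fun k _ => by split_ifs <;> norm_num) hK.le
  · have h1 : (∑ k : Fin (K + 1), (if (y, k) ∉ A then (1 : ℝ) else 0)) =
        (K + 1) - ((univ.filter fun k : Fin (K + 1) => (y, k) ∈ A).card : ℝ) := by
      have : ∀ k : Fin (K + 1), (if (y, k) ∉ A then (1 : ℝ) else 0) =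
          1 - (if (y, k) ∈ A then (1 : ℝ) else 0) := by
        intro k; split_ifs <;> simp_all
      rw [Finset.sum_congr rfl fun k _ => this k, Finset.sum_sub_distrib, Finset.sum_boole]
      simp
    rw [h1]
    set d := (univ.filter fun k : Fin (K + 1) => (y, k) ∈ A).card
    have h2 := one_add_mul_le_pow (a := -(1 / ((K : ℝ) + 1))) (by
      have : 1 / ((K : ℝ) + 1) ≤ 1 := by
        rw [div_le_one hK]; linarith [Nat.cast_nonneg (α := ℝ) K]
      linarith) d
    have h3 : (1 + -(1 / ((K : ℝ) + 1))) = (K : ℝ) / (K + 1) := by field_simp; ring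
    rw [h3] at h2
    refine le_trans (le_of_eq ?_) h2
    field_simp
    ring

theorem cube_contract_pr (K : ℕ) (x : ι) (F : Om ι (K + 1) → ℝ) (I : ℝ)
    (hodd : ∀ ω, F (fun j => !(ω j)) = -F ω)
    (hsym : ∀ (τ : ι → Equiv.Perm (Fin (K + 1))) (ω), F (fun j => ω (j.1, τ j.1 j.2)) = F ω)
    (hI : ∀ k, Ex (fun ω => F ω * bt (ω (x, k))) = I)
    (h0 : ∀ y k, y ≠ x → Ex (fun ω => F ω * bt (ω (y, k))) = 0) :
    Ex (fun ω : Om ι K => Ex (fun η : ι → Bool => F (glue ω η)) ^ 2) ≤
      (K / (K + 1)) * ((K + 1) * I ^ 2) +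
        (K / (K + 1)) ^ 3 * (Ex (fun ω => F ω ^ 2) - (K + 1) * I ^ 2) := by
  classical
  have hK : (0 : ℝ) < K + 1 := by positivity
  have hρ0 : (0 : ℝ) ≤ K / (K + 1) := by positivity
  have hρ1 : (K : ℝ) / (K + 1) ≤ 1 := by rw [div_le_one hK]; linarith
  set c : Finset (ι × Fin (K + 1)) → ℝ := fun A => Ex (fun ω => F ω * fc_ch A ω) with hcdef
  -- Parseval for the average
  have e1 : Ex (fun ω : Om ι K => Ex (fun η : ι → Bool => F (glue ω η)) ^ 2) =
      ∑ A, c A ^ 2 * fc_wt K A := by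
    rw [← fc_parseval]
    have : ∀ B : Finset (ι × Fin K),
        Ex (fun ω : Om ι K => Ex (fun η : ι → Bool => F (glue ω η)) * fc_ch B ω) ^ 2 =
          (fun A => c A ^ 2) (B.map (fc_emb ι K)) := by
      intro B
      rw [fc_coef]
    rw [Finset.sum_congr rfl fun B _ => this B, fc_avoid K (fun A => c A ^ 2)]
    refine fc_average K (fun A => c A ^ 2) ?_
    intro τ A
    show c _ ^ 2 = c A ^ 2
    congr 1
    let e : ι × Fin (K + 1) ≃ ι × Fin (K + 1) := Equiv.prodShear (Equiv.refl ι) τ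
    show Ex (fun ω => F ω * fc_ch (A.map e.toEmbedding) ω) = Ex (fun ω => F ω * fc_ch A ω)
    rw [← fc_ex_equiv (Equiv.arrowCongr e (Equiv.refl Bool)) (fun ω => F ω * fc_ch (A.map e.toEmbedding) ω)]
    congr 1
    funext ω
    have f1 : F (Equiv.arrowCongr e (Equiv.refl Bool) ω) = F ω := by
      rw [← hsym τ]
      congr 1
      funext j
      show ω (e.symm (j.1, τ j.1 j.2)) = ω j
      congr 1
      rw [Equiv.symm_apply_eq]
      rfl
    have f2 : fc_ch (A.map e.toEmbedding) (Equiv.arrowCongr e (Equiv.refl Bool) ω) = fc_ch A ω := by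
      unfold fc_ch
      rw [Finset.prod_map]
      refine Finset.prod_congr rfl fun j _ => ?_
      show bt (ω (e.symm (e j))) = _
      rw [Equiv.symm_apply_apply]
    rw [f1, f2]
  have e2 : ∑ A, c A ^ 2 = Ex (fun ω => F ω ^ 2) := fc_parseval F
  -- the singletons at x
  let sx : Fin (K + 1) ↪ Finset (ι × Fin (K + 1)) :=
    ⟨fun k => {(x, k)}, fun k l h => by simpa using h⟩
  set T : Finset (Finset (ι × Fin (K + 1))) := univ.map sx with hT
  have hcT : ∀ k, c {(x, k)} = I := by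
    intro k
    rw [← hI k]
    simp [hcdef, fc_ch]
  have sumT : ∑ A ∈ T, c A ^ 2 = (K + 1) * I ^ 2 := by
    rw [hT, Finset.sum_map]
    show ∑ k : Fin (K + 1), c {(x, k)} ^ 2 = _
    simp [hcT]
  have wtT : ∀ A ∈ T, fc_wt K A ≤ (K : ℝ) / (K + 1) := by
    intro A hA
    rw [hT, mem_map] at hA
    obtain ⟨k, _, rfl⟩ := hA
    have := fc_wt_le K ({(x, k)} : Finset (ι × Fin (K + 1)))
    rw [card_singleton, pow_one] at this
    exact this
  have rest : ∀ A ∉ T, c A ^ 2 * fc_wt K A ≤ (K / (K + 1)) ^ 3 * c A ^ 2 := by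
    intro A hA
    rcases Nat.even_or_odd A.card with hev | hod
    · have : c A = 0 := fc_even F hodd A hev
      rw [this]; simp
    · by_cases h1 : A.card = 1
      · obtain ⟨⟨y, k⟩, rfl⟩ := Finset.card_eq_one.1 h1
        have hy : y ≠ x := by
          rintro rfl
          exact hA (by rw [hT, mem_map]; exact ⟨k, mem_univ _, rfl⟩)
        have : c {(y, k)} = 0 := by
          rw [← h0 y k hy]
          simp [hcdef, fc_ch]
        rw [this]; simp
      · have h3 : 3 ≤ A.card := by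
          obtain ⟨m, hm⟩ := hod
          omega
        have h4 : fc_wt K A ≤ (K / (K + 1)) ^ 3 :=
          (fc_wt_le K A).trans (pow_le_pow_of_le_one hρ0 hρ1 h3)
        rw [mul_comm]
        exact mul_le_mul_of_nonneg_right h4 (sq_nonneg _)
  rw [e1, ← e2, ← Finset.sum_add_sum_compl T]
  have g1 : ∑ A ∈ T, c A ^ 2 * fc_wt K A ≤ (K / (K + 1)) * ((K + 1) * I ^ 2) := by
    rw [← sumT, Finset.mul_sum]
    refine Finset.sum_le_sum fun A hA => ?_
    rw [mul_comm]
    exact mul_le_mul_of_nonneg_right (wtT A hA) (sq_nonneg _)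
  have g2 : ∑ A ∈ Tᶜ, c A ^ 2 * fc_wt K A ≤
      (K / (K + 1)) ^ 3 * (∑ A, c A ^ 2 - (K + 1) * I ^ 2) := by
    have : ∑ A, c A ^ 2 - (K + 1) * I ^ 2 = ∑ A ∈ Tᶜ, c A ^ 2 := by
      rw [← sumT, ← Finset.sum_add_sum_compl T]; ring
    rw [this, Finset.mul_sum]
    exact Finset.sum_le_sum fun A hA => rest A (by simpa using hA)
  exact add_le_add g1 g2

end Pool.Agent.BF

namespace Pool.Agent.BF

theorem cube_contract : type_of% @cube_contract_pr := @cube_contract_pr

end Pool.Agent.BF
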