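import Pool.Agent.Lib_helper92.BFA.Defs2

set_option linter.unusedSectionVars false

/-! Block GOOD: the noise is not extreme. -/

namespace Pool.Agent.BF

open Finset

variable {ι : Type} [Fintype ι] [DecidableEq ι]

theorem good_exp {K : ℕ} (x : ι) (s : ℝ) :
    ∑ ω : Om ι K, Real.exp (s * (2 * (gam ω x : ℝ) - K)) =
      (Real.cosh s) ^ K * Fintype.card (Om ι K) := by
  have h1 : ∀ ω : Om ι K, Real.exp (s * (2 * (gam ω x : ℝ) - K)) =
      ∏ j : ι × Fin K, (if j.1 = x then Real.exp (s * bt (ω j)) else 1) := by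
    intro ω
    rw [Fintype.prod_prod_type, Finset.prod_eq_single x]
    · simp only [if_true]
      rw [← Real.exp_sum]
      congr 1
      rw [← Finset.mul_sum]
      congr 1
      have h2 : ∀ k : Fin K, bt (ω (x, k)) = 2 * (if ω (x, k) = true then (1 : ℝ) else 0) - 1 := by
        intro k
        unfold bt
        split_ifs <;> norm_num
      simp only [h2]
      rw [Finset.sum_sub_distrib, ← Finset.mul_sum, Finset.sum_boole, Finset.sum_const,
        Finset.card_univ, Fintype.card_fin]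
      simp [gam]
    · intro y _ hy
      exact Finset.prod_eq_one (fun k _ => if_neg hy)
    · intro h
      exact absurd (Finset.mem_univ x) h
  simp only [h1]
  have h3 := Finset.sum_prod_piFinset (ι := ι × Fin K) (univ : Finset Bool)
    (fun j b => if j.1 = x then Real.exp (s * bt b) else 1)
  rw [Fintype.piFinset_univ] at h3
  rw [h3]
  have h4 : ∀ j : ι × Fin K, (∑ b : Bool, if j.1 = x then Real.exp (s * bt b) else 1) =
      (if j.1 = x then Real.cosh s else 1) * 2 := by
    intro j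
    rw [Fintype.sum_bool]
    split_ifs
    · simp only [bt]
      rw [Real.cosh_eq]
      simp
    · norm_num
  rw [Finset.prod_congr rfl (fun j _ => h4 j), Finset.prod_mul_distrib]
  have h5 : ∏ j : ι × Fin K, (if j.1 = x then Real.cosh s else 1) = Real.cosh s ^ K := by
    rw [Fintype.prod_prod_type, Finset.prod_eq_single x]
    · simp
    · intro y _ hy
      exact Finset.prod_eq_one (fun k _ => if_neg hy)
    · intro h
      exact absurd (Finset.mem_univ x) h
  rw [h5, Fintype.card_fun, Fintype.card_bool, Finset.prod_const, Finset.card_univ]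
  push_cast
  rfl

theorem good_tail {K : ℕ} (x : ι) (s : ℝ) (hs : s = 1 / 2 ∨ s = -(1 / 2)) :
    ((univ.filter fun ω : Om ι K => (K : ℝ) / 4 ≤ s * (2 * (gam ω x : ℝ) - K)).card : ℝ) ≤
      Real.exp (-(K : ℝ) / 8) * Fintype.card (Om ι K) := by
  have h1 : ((univ.filter fun ω : Om ι K => (K : ℝ) / 4 ≤ s * (2 * (gam ω x : ℝ) - K)).card : ℝ) *
      Real.exp ((K : ℝ) / 4) ≤ ∑ ω : Om ι K, Real.exp (s * (2 * (gam ω x : ℝ) - K)) := by
    rw [← nsmul_eq_mul, ← Finset.sum_const]
    refine (Finset.sum_le_sum (g := fun ω : Om ι K => Real.exp (s * (2 * (gam ω x : ℝ) - K))) ?_).trans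
      (Finset.sum_le_sum_of_subset_of_nonneg (Finset.filter_subset _ _)
        (fun ω _ _ => (Real.exp_pos _).le))
    intro ω hω
    exact Real.exp_le_exp.mpr (Finset.mem_filter.mp hω).2
  rw [good_exp] at h1
  have h2 : Real.cosh s ^ K ≤ Real.exp ((K : ℝ) / 8) := by
    have h3 : Real.cosh s ≤ Real.exp (1 / 8) := by
      have := Real.cosh_le_exp_half_sq s
      refine this.trans (le_of_eq ?_)
      congr 1
      rcases hs with h | h <;> rw [h] <;> norm_num
    calc Real.cosh s ^ K ≤ Real.exp (1 / 8) ^ K :=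
          pow_le_pow_left₀ (Real.cosh_pos _).le h3 K
      _ = Real.exp ((K : ℝ) / 8) := by
          rw [← Real.exp_nat_mul]; congr 1; ring
  have h4 : (0 : ℝ) ≤ Fintype.card (Om ι K) := Nat.cast_nonneg _
  have h5 := h1.trans (mul_le_mul_of_nonneg_right h2 h4)
  have h6 : 0 < Real.exp ((K : ℝ) / 4) := Real.exp_pos _
  rw [← le_div_iff₀ h6] at h5
  refine h5.trans (le_of_eq ?_)
  rw [mul_div_right_comm, ← Real.exp_sub]
  congr 2
  ring

theorem good_pr {K : ℕ} (hK : 8 * Real.log (8 * Fintype.card ι) ≤ K) [Nonempty ι] :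
    (3 / 4 : ℝ) * Fintype.card (Om ι K) ≤
      ((univ.filter fun ω : Om ι K => ∀ x, K ≤ 4 * gam ω x ∧ 4 * gam ω x ≤ 3 * K).card : ℝ) := by
  classical
  have hN : (0 : ℝ) < Fintype.card ι := by exact_mod_cast Fintype.card_pos
  set M : ℝ := (Fintype.card (Om ι K) : ℝ) with hM
  have hM0 : 0 ≤ M := Nat.cast_nonneg _
  have hcov : (univ : Finset (Om ι K)) ⊆
      (univ.filter fun ω : Om ι K => ∀ x, K ≤ 4 * gam ω x ∧ 4 * gam ω x ≤ 3 * K) ∪
      univ.biUnion (fun x : ι =>
        (univ.filter fun ω : Om ι K => (K : ℝ) / 4 ≤ (1 / 2) * (2 * (gam ω x : ℝ) - K)) ∪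
        (univ.filter fun ω : Om ι K => (K : ℝ) / 4 ≤ (-(1 / 2)) * (2 * (gam ω x : ℝ) - K))) := by
    intro ω _
    by_cases h : ∀ x, K ≤ 4 * gam ω x ∧ 4 * gam ω x ≤ 3 * K
    · exact Finset.mem_union_left _ (Finset.mem_filter.mpr ⟨Finset.mem_univ _, h⟩)
    · refine Finset.mem_union_right _ ?_
      push Not at h
      obtain ⟨x, hx⟩ := h
      rw [Finset.mem_biUnion]
      refine ⟨x, Finset.mem_univ _, ?_⟩
      by_cases h1 : K ≤ 4 * gam ω x
      · have h2 := hx h1
        have h3 : (3 * K : ℝ) < 4 * (gam ω x : ℝ) := by exact_mod_cast h2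
        refine Finset.mem_union_left _ (Finset.mem_filter.mpr ⟨Finset.mem_univ _, ?_⟩)
        linarith
      · push Not at h1
        have h3 : (4 * (gam ω x : ℝ)) < K := by exact_mod_cast h1
        refine Finset.mem_union_right _ (Finset.mem_filter.mpr ⟨Finset.mem_univ _, ?_⟩)
        linarith
  have hcard := (Finset.card_le_card hcov).trans (Finset.card_union_le _ _)
  rw [Finset.card_univ] at hcard
  have hbad : ((univ.biUnion (fun x : ι =>
        (univ.filter fun ω : Om ι K => (K : ℝ) / 4 ≤ (1 / 2) * (2 * (gam ω x : ℝ) - K)) ∪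
        (univ.filter fun ω : Om ι K =>
          (K : ℝ) / 4 ≤ (-(1 / 2)) * (2 * (gam ω x : ℝ) - K)))).card : ℝ) ≤ M / 4 := by
    have h1 : ((univ.biUnion (fun x : ι =>
        (univ.filter fun ω : Om ι K => (K : ℝ) / 4 ≤ (1 / 2) * (2 * (gam ω x : ℝ) - K)) ∪
        (univ.filter fun ω : Om ι K =>
          (K : ℝ) / 4 ≤ (-(1 / 2)) * (2 * (gam ω x : ℝ) - K)))).card : ℝ) ≤
        ∑ _x : ι, 2 * (Real.exp (-(K : ℝ) / 8) * M) := by
      refine le_trans (Nat.cast_le.mpr Finset.card_biUnion_le) ?_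
      rw [Nat.cast_sum]
      refine Finset.sum_le_sum (fun x _ => ?_)
      refine le_trans (Nat.cast_le.mpr (Finset.card_union_le _ _)) ?_
      rw [Nat.cast_add]
      have ha := good_tail (K := K) x (1 / 2) (Or.inl rfl)
      have hb := good_tail (K := K) x (-(1 / 2)) (Or.inr rfl)
      rw [two_mul]
      exact add_le_add ha hb
    refine h1.trans ?_
    rw [Finset.sum_const, Finset.card_univ, nsmul_eq_mul]
    have h2 : Real.exp (-(K : ℝ) / 8) ≤ 1 / (8 * Fintype.card ι) := by
      have h3 : -(K : ℝ) / 8 ≤ Real.log (1 / (8 * Fintype.card ι)) := by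
        rw [one_div, Real.log_inv]
        linarith
      exact (Real.exp_le_exp.mpr h3).trans (le_of_eq (Real.exp_log (by positivity)))
    calc (Fintype.card ι : ℝ) * (2 * (Real.exp (-(K : ℝ) / 8) * M))
        ≤ (Fintype.card ι : ℝ) * (2 * (1 / (8 * Fintype.card ι) * M)) := by gcongr
      _ = M / 4 := by field_simp; ring
  have hcard' : M ≤ ((univ.filter fun ω : Om ι K =>
      ∀ x, K ≤ 4 * gam ω x ∧ 4 * gam ω x ≤ 3 * K).card : ℝ) +
      ((univ.biUnion (fun x : ι =>
        (univ.filter fun ω : Om ι K => (K : ℝ) / 4 ≤ (1 / 2) * (2 * (gam ω x : ℝ) - K)) ∪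
        (univ.filter fun ω : Om ι K =>
          (K : ℝ) / 4 ≤ (-(1 / 2)) * (2 * (gam ω x : ℝ) - K)))).card : ℝ) := by
    rw [hM, ← Nat.cast_add]
    exact Nat.cast_le.mpr hcard
  linarith

end Pool.Agent.BF

namespace Pool.Agent.BF

theorem good : type_of% @good_pr := @good_pr

end Pool.Agent.BF
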