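import Pool.Agent.Lib_helper92.BFA.Defs2

set_option linter.unusedSectionVars false

/-! # BF, block HUB: upper bound for the entropy -/

namespace Pool.Agent.BF

open Finset

variable {ι : Type} [Fintype ι] [DecidableEq ι] {S : Type} [AddCommGroup S] [Fintype S]
  [DecidableEq S]

theorem hub_gibbs {p q : ℝ} (hp : 0 ≤ p) (hq : 0 < q) :
    Real.negMulLog p ≤ -(p * Real.log q) + (q - p) := by
  rcases hp.eq_or_lt with rfl | hp
  · simp [hq.le]
  · have h1 : Real.log (q / p) ≤ q / p - 1 := Real.log_le_sub_one_of_pos (by positivity)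
    rw [Real.log_div hq.ne' hp.ne'] at h1
    have h2 := mul_le_mul_of_nonneg_left h1 hp.le
    have h3 : p * (q / p - 1) = q - p := by field_simp
    rw [h3] at h2
    unfold Real.negMulLog
    nlinarith

theorem hub_bw_pos {K j : ℕ} (hj : j ≤ K) : 0 < bw K j := by
  unfold bw
  have : 0 < K.choose j := Nat.choose_pos hj
  positivity

theorem hub_bw_sum (K : ℕ) : ∑ j ∈ range (K + 1), bw K j = 1 := by
  unfold bw
  rw [← Finset.sum_div, div_eq_one_iff_eq (by positivity)]
  exact_mod_cast Nat.sum_range_choose K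

theorem hub_var (K : ℕ) :
    ∑ j ∈ range (K + 1), bw K j * (2 * (j : ℝ) - (K : ℝ)) ^ 2 = (K : ℝ) := by
  have h := congrArg (Polynomial.eval (1 / 2 : ℝ)) (bernsteinPolynomial.variance ℝ K)
  simp only [bernsteinPolynomial, Polynomial.eval_finsetSum, Polynomial.eval_mul,
    Polynomial.eval_pow, Polynomial.eval_sub, Polynomial.eval_natCast, Polynomial.eval_X,
    Polynomial.eval_one, nsmul_eq_mul] at h
  have h2 : ∑ j ∈ range (K + 1), bw K j * (2 * (j : ℝ) - K) ^ 2 =
      4 * ∑ j ∈ range (K + 1), ((K : ℝ) * (1 / 2) - j) ^ 2 *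
        (K.choose j * (1 / 2) ^ j * (1 - 1 / 2) ^ (K - j)) := by
    rw [Finset.mul_sum]
    apply Finset.sum_congr rfl
    intro j hj
    have hj' : j ≤ K := Nat.lt_succ_iff.1 (mem_range.1 hj)
    have h3 : ((1 : ℝ) / 2) ^ j * (1 - 1 / 2) ^ (K - j) = 1 / 2 ^ K := by
      have : (1 : ℝ) - 1 / 2 = 1 / 2 := by norm_num
      rw [this, ← pow_add, Nat.add_sub_cancel' hj', one_div_pow]
    rw [mul_assoc ((K.choose j : ℝ)), h3]
    unfold bw
    ring
  rw [h2, h]
  ring

theorem hub_geom {t : ℝ} (h0 : 0 ≤ t) (h1 : t < 1) (n : ℕ) :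
    ∑ i ∈ range n, t ^ i ≤ 1 / (1 - t) := by
  rw [le_div_iff₀ (by linarith), geom_sum_mul_neg]
  have := pow_nonneg h0 n
  linarith

theorem hub_Z (K : ℕ) {s : ℝ} (hs : 0 < s) :
    ∑ j ∈ range (K + 1), Real.exp (-(s * |2 * (j : ℝ) - K|)) ≤
      2 / (1 - Real.exp (-(2 * s))) := by
  set t : ℝ := Real.exp (-(2 * s)) with ht
  have ht0 : 0 ≤ t := (Real.exp_pos _).le
  have ht1 : t < 1 := by
    rw [ht, Real.exp_lt_one_iff] 
    linarith
  obtain ⟨m, hm⟩ : ∃ m, m = K / 2 := ⟨_, rfl⟩
  have hmK : m + 1 + (K - m) = K + 1 := by omega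
  rw [← hmK, Finset.sum_range_add]
  have e1 : ∑ j ∈ range (m + 1), Real.exp (-(s * |2 * (j : ℝ) - K|)) ≤
      ∑ i ∈ range (m + 1), t ^ i := by
    rw [← Finset.sum_range_reflect (fun i => t ^ i)]
    apply Finset.sum_le_sum
    intro j hj
    have hj' : j ≤ m := Nat.lt_succ_iff.1 (mem_range.1 hj)
    rw [ht, ← Real.exp_nat_mul]
    apply Real.exp_le_exp.2
    have h1 : ((m + 1 - 1 - j : ℕ) : ℝ) = (m : ℝ) - j := by
      rw [Nat.add_sub_cancel, Nat.cast_sub hj']
    rw [h1]
    have h2 : (2 * m : ℝ) ≤ K := by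
      have : 2 * m ≤ K := by omega
      exact_mod_cast this
    have h3 : (j : ℝ) ≤ m := by exact_mod_cast hj'
    rw [abs_of_nonpos (by linarith)]
    nlinarith
  have e2 : ∑ j ∈ range (K - m), Real.exp (-(s * |2 * ((m + 1 + j : ℕ) : ℝ) - K|)) ≤
      ∑ i ∈ range (K - m), t ^ i := by
    apply Finset.sum_le_sum
    intro j hj
    rw [ht, ← Real.exp_nat_mul]
    apply Real.exp_le_exp.2
    have h2 : (K : ℝ) ≤ 2 * m + 1 := by
      have : K ≤ 2 * m + 1 := by omega
      exact_mod_cast this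
    have h3 : (0 : ℝ) ≤ j := Nat.cast_nonneg j
    push_cast
    rw [abs_of_nonneg (by nlinarith)]
    nlinarith
  have e3 := hub_geom ht0 ht1 (m + 1)
  have e4 := hub_geom ht0 ht1 (K - m)
  have e5 : 2 / (1 - t) = 1 / (1 - t) + 1 / (1 - t) := by ring
  rw [e5]
  linarith

theorem bw_ent_pr {K : ℕ} (hK : 4 ≤ K) :
    ∑ j ∈ range (K + 1), Real.negMulLog (bw K j) ≤ Real.log K / 2 + Real.log 2 + 1 := by
  have hKr : (4 : ℝ) ≤ K := by exact_mod_cast hK
  have hsq : 2 ≤ Real.sqrt K := by
    rw [show (2 : ℝ) = Real.sqrt 4 by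
      rw [show (4 : ℝ) = 2 ^ 2 by norm_num, Real.sqrt_sq (by norm_num)]]
    exact Real.sqrt_le_sqrt hKr
  set s : ℝ := 1 / Real.sqrt K with hs
  have hs0 : 0 < s := by positivity
  have hs2 : s ≤ 1 / 2 := by
    rw [hs]
    exact one_div_le_one_div_of_le (by norm_num) hsq
  have hsK : s ^ 2 * K = 1 := by
    rw [hs, div_pow, Real.sq_sqrt (by linarith)]
    field_simp
  set Z : ℝ := ∑ j ∈ range (K + 1), Real.exp (-(s * |2 * (j : ℝ) - K|)) with hZ
  have hZ0 : 0 < Z := Finset.sum_pos (fun _ _ => Real.exp_pos _) ⟨0, by simp⟩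
  have hZ1 : Z ≤ 2 * Real.sqrt K := by
    have h1 := hub_Z K hs0
    have h2 : s ≤ 1 - Real.exp (-(2 * s)) := by
      have h3 : Real.exp (-(2 * s)) ≤ 1 / (1 + 2 * s) := by
        rw [Real.exp_neg, ← one_div]
        apply one_div_le_one_div_of_le (by linarith)
        have := Real.add_one_le_exp (2 * s)
        linarith
      have h4 : 1 / (1 + 2 * s) ≤ 1 - s := by
        rw [div_le_iff₀ (by linarith)]
        nlinarith
      linarith
    calc Z ≤ 2 / (1 - Real.exp (-(2 * s))) := h1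
      _ ≤ 2 / s := by
        apply div_le_div_of_nonneg_left (by norm_num) hs0 h2
      _ = 2 * Real.sqrt K := by rw [hs]; field_simp
  have hlogZ : Real.log Z ≤ Real.log K / 2 + Real.log 2 := by
    calc Real.log Z ≤ Real.log (2 * Real.sqrt K) := Real.log_le_log hZ0 hZ1
      _ = Real.log K / 2 + Real.log 2 := by
        rw [Real.log_mul (by norm_num) (by positivity), Real.log_sqrt (by linarith)]
        ring
  have hg : ∀ j ∈ range (K + 1), Real.negMulLog (bw K j) ≤
      bw K j * ((s ^ 2 * (2 * (j : ℝ) - K) ^ 2 + 1) / 2 + Real.log Z) +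
        (Real.exp (-(s * |2 * (j : ℝ) - K|)) / Z - bw K j) := by
    intro j hj
    have hj' : j ≤ K := Nat.lt_succ_iff.1 (mem_range.1 hj)
    have h1 := hub_gibbs (hub_bw_pos hj').le
      (div_pos (Real.exp_pos (-(s * |2 * (j : ℝ) - K|))) hZ0)
    rw [Real.log_div (Real.exp_pos _).ne' hZ0.ne', Real.log_exp] at h1
    have h2 : s * |2 * (j : ℝ) - K| ≤ (s ^ 2 * (2 * (j : ℝ) - K) ^ 2 + 1) / 2 := by
      have := sq_nonneg (s * |2 * (j : ℝ) - K| - 1)
      have h3 : (s * |2 * (j : ℝ) - K|) ^ 2 = s ^ 2 * (2 * (j : ℝ) - K) ^ 2 := by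
        rw [mul_pow, sq_abs]
      nlinarith
    have h4 := mul_le_mul_of_nonneg_left h2 (hub_bw_pos hj').le
    nlinarith
  calc ∑ j ∈ range (K + 1), Real.negMulLog (bw K j)
      ≤ ∑ j ∈ range (K + 1), (bw K j * ((s ^ 2 * (2 * (j : ℝ) - K) ^ 2 + 1) / 2 + Real.log Z) +
        (Real.exp (-(s * |2 * (j : ℝ) - K|)) / Z - bw K j)) := Finset.sum_le_sum hg
    _ = s ^ 2 / 2 * ∑ j ∈ range (K + 1), bw K j * (2 * (j : ℝ) - (K : ℝ)) ^ 2 +
        (1 / 2 + Real.log Z - 1) * ∑ j ∈ range (K + 1), bw K j + Z / Z := by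
        rw [Finset.mul_sum, Finset.mul_sum]
        conv_rhs => rw [hZ, Finset.sum_div]
        rw [← hZ, ← Finset.sum_add_distrib, ← Finset.sum_add_distrib]
        apply Finset.sum_congr rfl
        intro j _
        ring
    _ = 1 + Real.log Z := by
        rw [hub_var, hub_bw_sum, div_self hZ0.ne']
        have : s ^ 2 / 2 * K = 1 / 2 := by linarith [hsK]
        rw [this]
        ring
    _ ≤ Real.log K / 2 + Real.log 2 + 1 := by linarith

theorem hub_sub {α : Type} (s : Finset α) (p : α → ℝ) (hp : ∀ a ∈ s, 0 ≤ p a) :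
    Real.negMulLog (∑ a ∈ s, p a) ≤ ∑ a ∈ s, Real.negMulLog (p a) := by
  unfold Real.negMulLog
  rw [← neg_mul_eq_neg_mul, Finset.sum_mul, ← Finset.sum_neg_distrib]
  apply Finset.sum_le_sum
  intro a ha
  rcases (hp a ha).eq_or_lt with h | h
  · rw [← h]; simp
  · have h1 : p a ≤ ∑ a ∈ s, p a := Finset.single_le_sum hp ha
    have h2 := Real.log_le_log h h1
    nlinarith

theorem ent_le_pr (e : ι → S) {K : ℕ} (hK : 4 ≤ K) :
    ent (mu e (fun _ => K)) ≤ Fintype.card ι * (Real.log K / 2 + Real.log 2 + 1) := by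
  have h1 : ent (mu e (fun _ => K)) ≤
      ∑ v ∈ Fintype.piFinset (fun _ : ι => range (K + 1)),
        Real.negMulLog (∏ x, bw K (v x)) := by
    unfold ent mu
    calc ∑ g, Real.negMulLog (∑ v ∈ Fintype.piFinset (fun _ : ι => range (K + 1)),
            if ∑ x, v x • e x = g then ∏ x, bw K (v x) else 0)
        ≤ ∑ g, ∑ v ∈ Fintype.piFinset (fun _ : ι => range (K + 1)),
            Real.negMulLog (if ∑ x, v x • e x = g then ∏ x, bw K (v x) else 0) := by
          apply Finset.sum_le_sum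
          intro g _
          apply hub_sub
          intro v _
          split_ifs
          · exact Finset.prod_nonneg fun x _ => by unfold bw; positivity
          · exact le_rfl
      _ = ∑ v ∈ Fintype.piFinset (fun _ : ι => range (K + 1)),
            Real.negMulLog (∏ x, bw K (v x)) := by
          rw [Finset.sum_comm]
          apply Finset.sum_congr rfl
          intro v _
          rw [Finset.sum_eq_single (∑ x, v x • e x)]
          · simp
          · intro g _ hg
            rw [if_neg (Ne.symm hg)]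
            simp
          · simp
  refine h1.trans ?_
  have h2 : ∀ v ∈ Fintype.piFinset (fun _ : ι => range (K + 1)),
      Real.negMulLog (∏ x, bw K (v x)) =
        ∑ x, ∏ y, (if y = x then Real.negMulLog (bw K (v y)) else bw K (v y)) := by
    intro v hv
    rw [Fintype.mem_piFinset] at hv
    have hpos : ∀ x, 0 < bw K (v x) := fun x =>
      hub_bw_pos (Nat.lt_succ_iff.1 (mem_range.1 (hv x)))
    unfold Real.negMulLog
    rw [Real.log_prod (fun x _ => (hpos x).ne'), Finset.mul_sum]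
    apply Finset.sum_congr rfl
    intro x _
    rw [← Finset.mul_prod_erase univ (fun x => bw K (v x)) (mem_univ x),
      ← Finset.mul_prod_erase univ (fun y => if y = x then -bw K (v y) * Real.log (bw K (v y))
        else bw K (v y)) (mem_univ x)]
    have h3 : ∏ y ∈ univ.erase x, (if y = x then -bw K (v y) * Real.log (bw K (v y))
        else bw K (v y)) = ∏ y ∈ univ.erase x, bw K (v y) := by
      apply Finset.prod_congr rfl
      intro y hy
      rw [if_neg (Finset.ne_of_mem_erase hy)]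
    rw [h3, if_pos rfl]
    ring
  rw [Finset.sum_congr rfl h2, Finset.sum_comm]
  have h4 : ∀ x : ι, ∑ v ∈ Fintype.piFinset (fun _ : ι => range (K + 1)),
      ∏ y, (if y = x then Real.negMulLog (bw K (v y)) else bw K (v y)) =
      ∑ j ∈ range (K + 1), Real.negMulLog (bw K j) := by
    intro x
    have h5 := Finset.prod_univ_sum (fun _ : ι => range (K + 1))
      (fun y j => if y = x then Real.negMulLog (bw K j) else bw K j)
    rw [← h5, ← Finset.mul_prod_erase univ _ (mem_univ x)]
    have h6 : ∏ y ∈ univ.erase x, ∑ j ∈ range (K + 1),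
        (if y = x then Real.negMulLog (bw K j) else bw K j) = 1 := by
      apply Finset.prod_eq_one
      intro y hy
      rw [← hub_bw_sum K]
      apply Finset.sum_congr rfl
      intro j _
      rw [if_neg (Finset.ne_of_mem_erase hy)]
    rw [h6, mul_one]
    apply Finset.sum_congr rfl
    intro j _
    rw [if_pos rfl]
  rw [Finset.sum_congr rfl (fun x _ => h4 x), Finset.sum_const, card_univ, nsmul_eq_mul]
  exact mul_le_mul_of_nonneg_left (bw_ent_pr hK) (Nat.cast_nonneg _)

end Pool.Agent.BF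

namespace Pool.Agent.BF

theorem bw_ent : type_of% @bw_ent_pr := @bw_ent_pr

theorem ent_le : type_of% @ent_le_pr := @ent_le_pr

end Pool.Agent.BF
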