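import Pool.Agent.Lib_helper92.BFA.Defs2
import Pool.Agent.Lib_helper92.BFA.EST
import Pool.Agent.Lib_helper92.BFA.GOOD

set_option linter.unusedSectionVars false

/-!
# MP_bb510f_co, block PACK (helper28)
-/

namespace Pool.Agent.BF

open Finset

variable {ι : Type} [Fintype ι] [DecidableEq ι] {S : Type} [AddCommGroup S] [Fintype S]
  [DecidableEq S]

/-- The number of bit strings with `j` ones. -/
theorem pack_card_bool (K j : ℕ) :
    (univ.filter fun c : Fin K → Bool => (univ.filter fun k => c k = true).card = j).card =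
      K.choose j := by
  have h : (Finset.powersetCard j (univ : Finset (Fin K))).card = K.choose j := by simp
  rw [← h]
  refine Finset.card_bij' (fun c _ => univ.filter fun k => c k = true)
    (fun s _ => fun k => decide (k ∈ s)) ?_ ?_ ?_ ?_
  · intro c hc
    simp only [mem_filter, mem_univ, true_and] at hc
    simp [Finset.mem_powersetCard, hc]
  · intro s hs
    rw [Finset.mem_powersetCard] at hs
    simp [hs.2]
  · intro c _
    funext k
    simp
  · intro s _
    ext k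
    simp

/-- The number of noise vectors with given values of `gam`. -/
theorem pack_card_om (K : ℕ) (v : ι → ℕ) :
    (univ.filter fun ω : Om ι K => gam ω = v).card = ∏ x, K.choose (v x) := by
  have h : (Fintype.piFinset (fun x : ι => univ.filter fun c : Fin K → Bool =>
      (univ.filter fun k => c k = true).card = v x)).card = ∏ x, K.choose (v x) := by
    rw [Fintype.card_piFinset]
    exact Finset.prod_congr rfl fun x _ => pack_card_bool K (v x)
  rw [← h]
  refine Finset.card_bij' (fun ω _ => fun x k => ω (x, k)) (fun c _ => fun p => c p.1 p.2)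
    ?_ ?_ ?_ ?_
  · intro ω hω
    simp only [mem_filter, mem_univ, true_and] at hω
    rw [Fintype.mem_piFinset]
    intro x
    simp only [mem_filter, mem_univ, true_and]
    exact congrFun hω x
  · intro c hc
    rw [Fintype.mem_piFinset] at hc
    simp only [mem_filter, mem_univ, true_and] at hc ⊢
    funext x
    exact hc x
  · intro ω _
    rfl
  · intro c _
    rfl

/-- The binomial weights on `ℤ`. -/
noncomputable def pack_b (K : ℕ) (j : ℤ) : ℝ := if 0 ≤ j then bw K j.toNat else 0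

theorem pack_b_nonneg (K : ℕ) (j : ℤ) : 0 ≤ pack_b K j := by
  unfold pack_b bw
  split_ifs
  · positivity
  · exact le_rfl

theorem pack_b_nat (K j : ℕ) : pack_b K (j : ℤ) = bw K j := by
  unfold pack_b
  simp

theorem pack_b_sum (K : ℕ) : ∑ j ∈ Finset.Icc (0 : ℤ) K, pack_b K j = 1 := by
  have h1 : ∑ j ∈ Finset.Icc (0 : ℤ) K, pack_b K j = ∑ j ∈ range (K + 1), bw K j := by
    symm
    refine Finset.sum_bij (fun (j : ℕ) _ => (j : ℤ)) ?_ ?_ ?_ ?_
    · intro j hj
      rw [Finset.mem_range] at hj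
      rw [Finset.mem_Icc]
      constructor
      · positivity
      · exact_mod_cast Nat.lt_succ_iff.1 hj
    · intro a _ b _ hab
      exact_mod_cast hab
    · intro b hb
      rw [Finset.mem_Icc] at hb
      refine ⟨b.toNat, ?_, ?_⟩
      · rw [Finset.mem_range]; omega
      · exact Int.toNat_of_nonneg hb.1
    · intro j _
      exact (pack_b_nat K j).symm
  rw [h1]
  unfold bw
  rw [← Finset.sum_div, ← Nat.cast_sum, Nat.sum_range_choose]
  push_cast
  exact div_self (by positivity)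

theorem pack_b_zero {K : ℕ} {j : ℤ} (hj : j ∉ Finset.Icc (0 : ℤ) K) : pack_b K j = 0 := by
  unfold pack_b
  split_ifs with h
  · rw [Finset.mem_Icc, not_and] at hj
    have h2 : ¬ j ≤ K := hj h
    have h3 : K < j.toNat := by omega
    unfold bw
    rw [Nat.choose_eq_zero_of_lt h3]
    simp
  · rfl

theorem pack_B_sum (K : ℕ) (T : Finset (ι → ℤ)) : ∑ u ∈ T, ∏ x, pack_b K (u x) ≤ 1 := by
  classical
  have h1 : ∑ u ∈ T, ∏ x, pack_b K (u x) =
      ∑ u ∈ T ∩ Fintype.piFinset (fun _ : ι => Finset.Icc (0 : ℤ) K), ∏ x, pack_b K (u x) := by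
    symm
    refine Finset.sum_subset Finset.inter_subset_left ?_
    intro u hu hu2
    have h3 : u ∉ Fintype.piFinset (fun _ : ι => Finset.Icc (0 : ℤ) K) := fun h =>
      hu2 (Finset.mem_inter.2 ⟨hu, h⟩)
    rw [Fintype.mem_piFinset, not_forall] at h3
    obtain ⟨x, hx⟩ := h3
    exact Finset.prod_eq_zero (Finset.mem_univ x) (pack_b_zero hx)
  rw [h1]
  have h2 : ∑ u ∈ Fintype.piFinset (fun _ : ι => Finset.Icc (0 : ℤ) K), ∏ x, pack_b K (u x)
      = 1 := by
    rw [← Finset.prod_univ_sum]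
    simp [pack_b_sum]
  rw [← h2]
  exact Finset.sum_le_sum_of_subset_of_nonneg Finset.inter_subset_right
    fun u _ _ => Finset.prod_nonneg fun x _ => pack_b_nonneg K _

/-- `t / (t + 1) ≥ exp (-4/K)` for `t ≥ K/4`. -/
theorem pack_ratio {K t : ℝ} (hK : 0 < K) (ht : K ≤ 4 * t) :
    Real.exp (-4 / K) * (t + 1) ≤ t := by
  have ht0 : 0 < t := by linarith
  have h1 : 1 + 1 / t ≤ Real.exp (4 / K) := by
    have h2 : 1 / t ≤ 4 / K := by
      rw [div_le_div_iff₀ ht0 hK]; linarith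
    have h3 := Real.add_one_le_exp (1 / t)
    have h4 := Real.exp_le_exp.2 h2
    linarith
  have h5 : t + 1 ≤ Real.exp (4 / K) * t := by
    have h6 : (1 + 1 / t) * t = t + 1 := by field_simp
    rw [← h6]
    exact mul_le_mul_of_nonneg_right h1 ht0.le
  have h7 : Real.exp (-4 / K) * Real.exp (4 / K) = 1 := by
    rw [← Real.exp_add]
    have : -4 / K + 4 / K = 0 := by ring
    rw [this, Real.exp_zero]
  calc Real.exp (-4 / K) * (t + 1) ≤ Real.exp (-4 / K) * (Real.exp (4 / K) * t) :=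
        mul_le_mul_of_nonneg_left h5 (Real.exp_pos _).le
    _ = t := by rw [← mul_assoc, h7, one_mul]

/-- The basic inequality between three consecutive binomial weights. -/
theorem pack_bw {K i : ℕ} (hK : 4 ≤ K) (h1 : K ≤ 4 * (i + 1)) (h2 : 4 * (i + 1) ≤ 3 * K) :
    Real.exp (-4 / K) ^ 2 * bw K (i + 1) ^ 2 ≤ bw K i * bw K (i + 2) := by
  have hK0 : (0 : ℝ) < K := by
    have : 0 < K := by omega
    exact_mod_cast this
  have e1 : (K.choose (i + 1) : ℝ) * (i + 1) = K.choose i * (K - i) := by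
    have := Nat.choose_succ_right_eq K i
    have hi : i ≤ K := by omega
    have h3 : ((K.choose (i + 1) * (i + 1) : ℕ) : ℝ) = ((K.choose i * (K - i) : ℕ) : ℝ) := by
      rw [this]
    push_cast [Nat.cast_sub hi] at h3
    exact h3
  have e2 : (K.choose (i + 2) : ℝ) * (i + 2) = K.choose (i + 1) * (K - (i + 1)) := by
    have := Nat.choose_succ_right_eq K (i + 1)
    have hi : i + 1 ≤ K := by omega
    have h3 : ((K.choose (i + 1 + 1) * (i + 1 + 1) : ℕ) : ℝ) =
        ((K.choose (i + 1) * (K - (i + 1)) : ℕ) : ℝ) := by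
      rw [this]
    push_cast [Nat.cast_sub hi] at h3
    have h4 : (i : ℝ) + 1 + 1 = i + 2 := by ring
    rw [h4] at h3
    exact h3
  have q1 : (K : ℝ) ≤ 4 * (i + 1) := by exact_mod_cast h1
  have q2 : (4 : ℝ) * (i + 1) ≤ 3 * K := by exact_mod_cast h2
  have r1 := pack_ratio (K := K) (t := (i : ℝ) + 1) hK0 q1
  have r2 := pack_ratio (K := K) (t := (K : ℝ) - (i + 1)) hK0 (by linarith)
  set E := Real.exp (-4 / (K : ℝ)) with hE
  have hE0 : 0 < E := Real.exp_pos _
  set a := (K.choose i : ℝ)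
  set c := (K.choose (i + 1) : ℝ)
  set d := (K.choose (i + 2) : ℝ)
  have ha : 0 ≤ a := Nat.cast_nonneg _
  have hc : 0 ≤ c := Nat.cast_nonneg _
  have hd : 0 ≤ d := Nat.cast_nonneg _
  -- `E * c ≤ ...`
  have p1 : (0 : ℝ) < (i : ℝ) + 2 := by positivity
  have p2 : (0 : ℝ) < (K : ℝ) - i := by linarith
  have key : E ^ 2 * c ^ 2 ≤ a * d := by
    have h5 : a * d * (((K : ℝ) - i) * (i + 2)) = c * (i + 1) * (c * (K - (i + 1))) := by
      rw [e1, ← e2]; ring
    have h6 : E ^ 2 * (((K : ℝ) - i) * (i + 2)) ≤ (i + 1) * (K - (i + 1)) := by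
      have h7 : E * ((i : ℝ) + 2) ≤ i + 1 := by
        have : (i : ℝ) + 1 + 1 = i + 2 := by ring
        rw [this] at r1; exact r1
      have h8 : E * ((K : ℝ) - i) ≤ K - (i + 1) := by
        have : (K : ℝ) - (i + 1) + 1 = K - i := by ring
        rw [this] at r2; exact r2
      calc E ^ 2 * (((K : ℝ) - i) * (i + 2)) = (E * ((i : ℝ) + 2)) * (E * ((K : ℝ) - i)) := by ring
        _ ≤ (i + 1) * (K - (i + 1)) := by
            apply mul_le_mul h7 h8 (by positivity) (by positivity)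
    have h9 : E ^ 2 * c ^ 2 * (((K : ℝ) - i) * (i + 2)) ≤ a * d * (((K : ℝ) - i) * (i + 2)) := by
      rw [h5]
      calc E ^ 2 * c ^ 2 * (((K : ℝ) - i) * (i + 2)) =
            c ^ 2 * (E ^ 2 * (((K : ℝ) - i) * (i + 2))) := by ring
        _ ≤ c ^ 2 * ((i + 1) * (K - (i + 1))) := mul_le_mul_of_nonneg_left h6 (by positivity)
        _ = c * (i + 1) * (c * (K - (i + 1))) := by ring
    exact le_of_mul_le_mul_right h9 (by positivity)
  unfold bw
  rw [div_pow, div_mul_div_comm, ← pow_two ((2 : ℝ) ^ K), mul_div_assoc']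
  exact div_le_div_of_nonneg_right key (by positivity)

theorem pack_b_pair {K : ℕ} (hK : 4 ≤ K) {j X : ℤ} (h1 : (K : ℤ) ≤ 4 * j)
    (h2 : 4 * j ≤ 3 * (K : ℤ)) (hX : X = 1 ∨ X = -1) :
    Real.exp (-4 / K) ^ 2 * pack_b K j ^ 2 ≤ pack_b K (j - X) * pack_b K (j + X) := by
  obtain ⟨i, rfl⟩ : ∃ i : ℕ, j = ((i + 1 : ℕ) : ℤ) := ⟨(j - 1).toNat, by omega⟩
  have hh := pack_bw (K := K) (i := i) hK (by omega) (by omega)
  have a1 : (((i + 1 : ℕ) : ℤ)) - 1 = (i : ℕ) := by push_cast; ring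
  have a2 : (((i + 1 : ℕ) : ℤ)) + 1 = ((i + 2 : ℕ) : ℤ) := by push_cast; ring
  rcases hX with rfl | rfl
  · rw [a1, a2, pack_b_nat, pack_b_nat, pack_b_nat]
    exact hh
  · rw [sub_neg_eq_add, ← sub_eq_add_neg, a1, a2, pack_b_nat, pack_b_nat, pack_b_nat]
    rw [mul_comm (bw K (i + 2))]
    exact hh

theorem pack_amgm {a c s : ℝ} (ha : 0 ≤ a) (hc : 0 ≤ c) (hs : s ^ 2 ≤ a * c) :
    2 * s ≤ a + c := by
  by_contra h
  push Not at h
  have h1 : 0 ≤ s := by nlinarith [sq_nonneg (a + c)]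
  nlinarith [sq_nonneg (a - c), sq_nonneg (a + c)]

theorem pack_B_pair {K : ℕ} (hK : 4 ≤ K) (v X : ι → ℤ)
    (hv : ∀ x, (K : ℤ) ≤ 4 * v x ∧ 4 * v x ≤ 3 * (K : ℤ)) (hX : ∀ x, X x = 1 ∨ X x = -1) :
    2 * (Real.exp (-4 / K) ^ Fintype.card ι * ∏ x, pack_b K (v x)) ≤
      ∏ x, pack_b K (v x - X x) + ∏ x, pack_b K (v x + X x) := by
  refine pack_amgm (Finset.prod_nonneg fun x _ => pack_b_nonneg K _)
    (Finset.prod_nonneg fun x _ => pack_b_nonneg K _) ?_
  have h1 : (Real.exp (-4 / K) ^ Fintype.card ι * ∏ x, pack_b K (v x)) ^ 2 =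
      ∏ x, (Real.exp (-4 / K) ^ 2 * pack_b K (v x) ^ 2) := by
    rw [Finset.prod_mul_distrib, Finset.prod_pow, mul_pow, Finset.prod_const, Finset.card_univ,
      Finset.prod_pow, ← pow_mul]
  rw [h1, ← Finset.prod_mul_distrib]
  exact Finset.prod_le_prod (fun x _ => by positivity)
    fun x _ => pack_b_pair hK (hv x).1 (hv x).2 (hX x)

/-- `∑_{|j| ≤ M} θ^|j| ≤ (1+θ)/(1-θ)`. -/
theorem pack_geom {θ : ℝ} (hθ : 0 < θ) (hθ1 : θ < 1) (c : ℤ) (M : ℕ) :
    ∑ j ∈ Finset.Icc (c - M) (c + M), θ ^ (j - c).natAbs ≤ (1 + θ) / (1 - θ) := by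
  have h1 : ∑ j ∈ Finset.Icc (c - M) (c + M), θ ^ (j - c).natAbs ≤
      ∑ j ∈ (range (M + 1)).image (fun n : ℕ => c + (n : ℤ)) ∪
        (range M).image (fun n : ℕ => c - ((n : ℤ) + 1)), θ ^ (j - c).natAbs := by
    refine Finset.sum_le_sum_of_subset_of_nonneg ?_ fun j _ _ => by positivity
    intro j hj
    rw [Finset.mem_Icc] at hj
    rw [Finset.mem_union, Finset.mem_image, Finset.mem_image]
    by_cases h : c ≤ j
    · left
      exact ⟨(j - c).toNat, by rw [Finset.mem_range]; omega, by omega⟩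
    · right
      exact ⟨(c - j - 1).toNat, by rw [Finset.mem_range]; omega, by omega⟩
  have h2 : ∑ j ∈ (range (M + 1)).image (fun n : ℕ => c + (n : ℤ)) ∪
        (range M).image (fun n : ℕ => c - ((n : ℤ) + 1)), θ ^ (j - c).natAbs ≤
      ∑ n ∈ range (M + 1), θ ^ n + ∑ n ∈ range M, θ ^ (n + 1) := by
    have h3 : ∑ j ∈ (range (M + 1)).image (fun n : ℕ => c + (n : ℤ)), θ ^ (j - c).natAbs =
        ∑ n ∈ range (M + 1), θ ^ n := by
      rw [Finset.sum_image]
      · refine Finset.sum_congr rfl fun n _ => ?_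
        congr 1
        omega
      · intro a _ b _ hab
        have : c + (a : ℤ) = c + (b : ℤ) := hab
        omega
    have h4 : ∑ j ∈ (range M).image (fun n : ℕ => c - ((n : ℤ) + 1)), θ ^ (j - c).natAbs =
        ∑ n ∈ range M, θ ^ (n + 1) := by
      rw [Finset.sum_image]
      · refine Finset.sum_congr rfl fun n _ => ?_
        congr 1
        omega
      · intro a _ b _ hab
        have : c - ((a : ℤ) + 1) = c - ((b : ℤ) + 1) := hab
        omega
    rw [← h3, ← h4]
    rw [← Finset.sum_union_inter]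
    have : 0 ≤ ∑ j ∈ (range (M + 1)).image (fun n : ℕ => c + (n : ℤ)) ∩
        (range M).image (fun n : ℕ => c - ((n : ℤ) + 1)), θ ^ (j - c).natAbs :=
      Finset.sum_nonneg fun j _ => by positivity
    linarith
  have h5 : ∀ m : ℕ, ∑ n ∈ range m, θ ^ n ≤ 1 / (1 - θ) := by
    intro m
    have h6 : (0 : ℝ) < 1 - θ := by linarith
    rw [le_div_iff₀ h6]
    have h7 := geom_sum_mul_neg θ m
    rw [h7]
    have : 0 < θ ^ m := by positivity
    linarith
  have h8 : ∑ n ∈ range M, θ ^ (n + 1) = θ * ∑ n ∈ range M, θ ^ n := by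
    rw [Finset.mul_sum]
    exact Finset.sum_congr rfl fun n _ => by ring
  rw [h8] at h2
  have h9 := h5 (M + 1)
  have h10 := mul_le_mul_of_nonneg_left (h5 M) hθ.le
  have h11 : 1 / (1 - θ) + θ * (1 / (1 - θ)) = (1 + θ) / (1 - θ) := by ring
  linarith

/-- The number of lattice points in an `ℓ¹` ball. -/
theorem pack_ball {θ : ℝ} (hθ : 0 < θ) (hθ1 : θ < 1) (ρ : ℝ) (c : ι → ℤ) (T : Finset (ι → ℤ))
    (hT : ∀ v ∈ T, ((∑ x, (v x - c x).natAbs : ℕ) : ℝ) ≤ ρ) :
    (T.card : ℝ) * θ ^ ρ ≤ ((1 + θ) / (1 - θ)) ^ Fintype.card ι := by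
  classical
  obtain ⟨M, hM⟩ : ∃ M : ℕ, ρ ≤ M := exists_nat_ge ρ
  have h1 : (T.card : ℝ) * θ ^ ρ ≤ ∑ v ∈ T, ∏ x, θ ^ (v x - c x).natAbs := by
    rw [← nsmul_eq_mul]
    refine Finset.card_nsmul_le_sum T _ _ fun v hv => ?_
    rw [Finset.prod_pow_eq_pow_sum, ← Real.rpow_natCast]
    exact Real.rpow_le_rpow_of_exponent_ge hθ hθ1.le (hT v hv)
  have h2 : ∑ v ∈ T, ∏ x, θ ^ (v x - c x).natAbs ≤
      ∑ v ∈ Fintype.piFinset (fun x => Finset.Icc (c x - M) (c x + M)),
        ∏ x, θ ^ (v x - c x).natAbs := by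
    refine Finset.sum_le_sum_of_subset_of_nonneg ?_ fun v _ _ =>
      Finset.prod_nonneg fun x _ => by positivity
    intro v hv
    rw [Fintype.mem_piFinset]
    intro x
    have h3 : (v x - c x).natAbs ≤ M := by
      have h4 : (v x - c x).natAbs ≤ ∑ x, (v x - c x).natAbs :=
        Finset.single_le_sum (f := fun x => (v x - c x).natAbs) (fun _ _ => Nat.zero_le _)
          (Finset.mem_univ x)
      have h5 : ((∑ x, (v x - c x).natAbs : ℕ) : ℝ) ≤ M := (hT v hv).trans hM
      have h6 : (∑ x, (v x - c x).natAbs) ≤ M := by exact_mod_cast h5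
      exact h4.trans h6
    rw [Finset.mem_Icc]
    omega
  have h7 : ∑ v ∈ Fintype.piFinset (fun x => Finset.Icc (c x - M) (c x + M)),
        ∏ x, θ ^ (v x - c x).natAbs =
      ∏ x, ∑ j ∈ Finset.Icc (c x - M) (c x + M), θ ^ (j - c x).natAbs := by
    rw [Finset.prod_univ_sum]
  rw [h7] at h2
  have h8 : ∏ x, ∑ j ∈ Finset.Icc (c x - M) (c x + M), θ ^ (j - c x).natAbs ≤
      ∏ _x : ι, ((1 + θ) / (1 - θ)) :=
    Finset.prod_le_prod (fun x _ => Finset.sum_nonneg fun j _ => by positivity)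
      fun x _ => pack_geom hθ hθ1 (c x) M
  rw [Finset.prod_const, Finset.card_univ] at h8
  exact (h1.trans h2).trans h8

/-- Markov. -/
theorem pack_markov {α : Type} [Fintype α] [Nonempty α] (D : α → ℝ) (hD : ∀ a, 0 ≤ D a) (r : ℝ)
    (h : Ex D ≤ r) :
    (1 / 2 : ℝ) * Fintype.card α ≤ ((univ.filter fun a => D a ≤ 2 * r).card : ℝ) := by
  classical
  have hc : (0 : ℝ) < Fintype.card α := by exact_mod_cast Fintype.card_pos
  have h0 : ∑ a, D a ≤ r * Fintype.card α := by
    unfold Ex at h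
    rwa [div_le_iff₀ hc] at h
  have hr : 0 ≤ r := by
    have : 0 ≤ ∑ a, D a := Finset.sum_nonneg fun a _ => hD a
    by_contra hr
    push Not at hr
    nlinarith
  have hpart : ((univ.filter fun a => D a ≤ 2 * r).card : ℝ) +
      ((univ.filter fun a => ¬ D a ≤ 2 * r).card : ℝ) = Fintype.card α := by
    have := Finset.card_filter_add_card_filter_not (s := (univ : Finset α))
      (fun a => D a ≤ 2 * r)
    rw [Finset.card_univ] at this
    exact_mod_cast this
  rcases hr.eq_or_lt with hr0 | hr0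
  · have h1 : ∀ a, D a = 0 := by
      have h2 : ∑ a, D a = 0 := le_antisymm (by rw [← hr0] at h0; linarith)
        (Finset.sum_nonneg fun a _ => hD a)
      intro a
      exact (Finset.sum_eq_zero_iff_of_nonneg fun a _ => hD a).1 h2 a (Finset.mem_univ a)
    have h3 : (univ.filter fun a => D a ≤ 2 * r) = univ := by
      apply Finset.filter_true_of_mem
      intro a _
      rw [h1 a]; linarith
    rw [h3, Finset.card_univ]
    linarith
  · have h4 : ((univ.filter fun a => ¬ D a ≤ 2 * r).card : ℝ) * (2 * r) ≤ ∑ a, D a := by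
      calc ((univ.filter fun a => ¬ D a ≤ 2 * r).card : ℝ) * (2 * r)
          ≤ ∑ a ∈ univ.filter (fun a => ¬ D a ≤ 2 * r), D a := by
            rw [← nsmul_eq_mul]
            refine Finset.card_nsmul_le_sum _ _ _ fun a ha => ?_
            rw [Finset.mem_filter] at ha
            exact (not_le.1 ha.2).le
        _ ≤ ∑ a, D a := Finset.sum_le_sum_of_subset_of_nonneg (Finset.filter_subset _ _)
            fun a _ _ => hD a
    have h5 : ((univ.filter fun a => ¬ D a ≤ 2 * r).card : ℝ) * 2 ≤ Fintype.card α := by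
      have : ((univ.filter fun a => ¬ D a ≤ 2 * r).card : ℝ) * 2 * r ≤ Fintype.card α * r := by
        linarith
      exact le_of_mul_le_mul_right this hr0
    linarith

/-- The syndrome of an integer vector. -/
def pack_syn (e : ι → S) (u : ι → ℤ) : S := ∑ x, u x • e x

theorem pack_syn_gam (e : ι → S) {K : ℕ} (ω : Om ι K) :
    pack_syn e (fun x => (gam ω x : ℤ)) = sg e ω := by
  unfold pack_syn sg
  exact Finset.sum_congr rfl fun x _ => by rw [natCast_zsmul]

theorem pack_pr [Nonempty ι] (e : ι → S) {K : ℕ} (hK : 8 * Real.log (8 * Fintype.card ι) ≤ K)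
    (hK4 : 4 ≤ K) (𝓑 : Finset (ι → ℤ)) (h1 : ∀ X ∈ 𝓑, ∀ x, X x = 1 ∨ X x = -1)
    (h2 : ∀ X ∈ 𝓑, ∑ x, X x • e x = 0) (h3 : ∀ X ∈ 𝓑, -X ∈ 𝓑) (hne : 𝓑.Nonempty)
    (est : S → ι → ℤ) (r θ : ℝ) (hθ : 0 < θ) (hθ1 : θ < 1)
    (hest : Ex (fun ω : Om ι K => ∑ x, |((gam ω x : ℤ) - est (sg e ω) x : ℝ)|) ≤ r) :
    Real.log 𝓑.card ≤ 4 * Fintype.card ι / K + 2 * r * Real.log (1 / θ) +
      Fintype.card ι * Real.log ((1 + θ) / (1 - θ)) + Real.log 4 := by
  classical
  -- the good set of noise vectors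
  set G : Finset (Om ι K) := univ.filter fun ω => ∀ x, K ≤ 4 * gam ω x ∧ 4 * gam ω x ≤ 3 * K
    with hG
  set D : Om ι K → ℝ := fun ω => ∑ x, |((gam ω x : ℤ) - est (sg e ω) x : ℝ)| with hD
  set P : Finset (Om ι K) := univ.filter fun ω => D ω ≤ 2 * r with hP
  have hcard : (0 : ℝ) < Fintype.card (Om ι K) := by exact_mod_cast Fintype.card_pos
  have g1 : (3 / 4 : ℝ) * Fintype.card (Om ι K) ≤ (G.card : ℝ) := good hK
  have g2 : (1 / 2 : ℝ) * Fintype.card (Om ι K) ≤ (P.card : ℝ) :=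
    pack_markov D (fun ω => Finset.sum_nonneg fun x _ => abs_nonneg _) r hest
  have g3 : (1 / 4 : ℝ) * Fintype.card (Om ι K) ≤ ((G ∩ P).card : ℝ) := by
    have h4 : ((G ∪ P).card : ℝ) + ((G ∩ P).card : ℝ) = G.card + P.card := by
      exact_mod_cast Finset.card_union_add_card_inter G P
    have h5 : ((G ∪ P).card : ℝ) ≤ Fintype.card (Om ι K) := by
      exact_mod_cast Finset.card_le_univ _
    linarith
  -- the values
  set A : Finset (ι → ℤ) := (G ∩ P).image (fun ω => fun x => (gam ω x : ℤ)) with hA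
  have hAprob : (1 / 4 : ℝ) ≤ ∑ v ∈ A, ∏ x, pack_b K (v x) := by
    have h6 : ((G ∩ P).card : ℝ) ≤ ∑ v ∈ A, (Fintype.card (Om ι K) : ℝ) * ∏ x, pack_b K (v x) := by
      have h7 : (G ∩ P).card = ∑ v ∈ A, ((G ∩ P).filter
          (fun ω => (fun x => (gam ω x : ℤ)) = v)).card :=
        Finset.card_eq_sum_card_image _ _
      rw [h7]
      push_cast
      refine Finset.sum_le_sum fun v hv => ?_
      rw [hA, Finset.mem_image] at hv
      obtain ⟨ω₀, _, rfl⟩ := hv
      have h8 : ((G ∩ P).filter (fun ω => (fun x => (gam ω x : ℤ)) = fun x => (gam ω₀ x : ℤ))).card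
          ≤ (univ.filter fun ω : Om ι K => gam ω = gam ω₀).card := by
        apply Finset.card_le_card
        intro ω hω
        rw [Finset.mem_filter] at hω ⊢
        refine ⟨Finset.mem_univ _, ?_⟩
        funext x
        have := congrFun hω.2 x
        simpa using this
      rw [pack_card_om] at h8
      have h9 : (Fintype.card (Om ι K) : ℝ) * ∏ x, pack_b K (gam ω₀ x : ℤ) =
          ((∏ x, K.choose (gam ω₀ x) : ℕ) : ℝ) := by
        have h10 : (Fintype.card (Om ι K) : ℝ) = (2 ^ K) ^ Fintype.card ι := by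
          simp [Om, Fintype.card_prod, pow_mul, mul_comm]
        have h11 : ∏ x, pack_b K (gam ω₀ x : ℤ) =
            (∏ x, (K.choose (gam ω₀ x) : ℝ)) / (2 ^ K) ^ Fintype.card ι := by
          simp_rw [pack_b_nat]
          unfold bw
          rw [Finset.prod_div_distrib, Finset.prod_const, Finset.card_univ]
        rw [h10, h11]
        push_cast
        field_simp
      rw [h9]
      exact_mod_cast h8
    rw [← Finset.mul_sum] at h6
    have h12 : (1 / 4 : ℝ) * Fintype.card (Om ι K) ≤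
        (∑ v ∈ A, ∏ x, pack_b K (v x)) * Fintype.card (Om ι K) := by
      linarith
    exact le_of_mul_le_mul_right h12 hcard
  have hAgood : ∀ v ∈ A, ∀ x, (K : ℤ) ≤ 4 * v x ∧ 4 * v x ≤ 3 * (K : ℤ) := by
    intro v hv x
    rw [hA, Finset.mem_image] at hv
    obtain ⟨ω, hω, rfl⟩ := hv
    rw [Finset.mem_inter, hG, Finset.mem_filter] at hω
    have := hω.1.2 x
    show (K : ℤ) ≤ 4 * (gam ω x : ℤ) ∧ 4 * (gam ω x : ℤ) ≤ 3 * (K : ℤ)
    omega
  have hAest : ∀ v ∈ A, ((∑ x, (v x - est (pack_syn e v) x).natAbs : ℕ) : ℝ) ≤ 2 * r := by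
    intro v hv
    rw [hA, Finset.mem_image] at hv
    obtain ⟨ω, hω, rfl⟩ := hv
    rw [Finset.mem_inter] at hω
    have h13 : D ω ≤ 2 * r := (Finset.mem_filter.1 hω.2).2
    rw [pack_syn_gam]
    refine le_trans (le_of_eq ?_) h13
    rw [hD]
    push_cast
    refine Finset.sum_congr rfl fun x _ => ?_
    rw [Nat.cast_natAbs]
    push_cast
    rfl
  -- the lower bound
  set E : ℝ := Real.exp (-4 / K) ^ Fintype.card ι with hE
  have hE0 : 0 < E := by positivity
  have hlow : (𝓑.card : ℝ) * E * (1 / 4) ≤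
      ∑ v ∈ A, ∑ X ∈ 𝓑, ∏ x, pack_b K (v x + X x) := by
    have h14 : ∀ v ∈ A, (𝓑.card : ℝ) * (E * ∏ x, pack_b K (v x)) ≤
        ∑ X ∈ 𝓑, ∏ x, pack_b K (v x + X x) := by
      intro v hv
      have h15 : ∑ X ∈ 𝓑, ∏ x, pack_b K (v x - X x) = ∑ X ∈ 𝓑, ∏ x, pack_b K (v x + X x) := by
        refine Finset.sum_bij' (fun X _ => -X) (fun X _ => -X) ?_ ?_ ?_ ?_ ?_
        · intro X hX; exact h3 X hX
        · intro X hX; exact h3 X hX
        · intro X _; simp
        · intro X _; simp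
        · intro X _; simp [sub_eq_add_neg]
      have h16 : ∑ X ∈ 𝓑, 2 * (E * ∏ x, pack_b K (v x)) ≤
          ∑ X ∈ 𝓑, (∏ x, pack_b K (v x - X x) + ∏ x, pack_b K (v x + X x)) :=
        Finset.sum_le_sum fun X hX => pack_B_pair hK4 v X (hAgood v hv) (h1 X hX)
      rw [Finset.sum_add_distrib, h15, Finset.sum_const, nsmul_eq_mul] at h16
      linarith
    have h17 : ∑ v ∈ A, (𝓑.card : ℝ) * (E * ∏ x, pack_b K (v x)) ≤
        ∑ v ∈ A, ∑ X ∈ 𝓑, ∏ x, pack_b K (v x + X x) := Finset.sum_le_sum h14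
    have h18 : ∑ v ∈ A, (𝓑.card : ℝ) * (E * ∏ x, pack_b K (v x)) =
        (𝓑.card : ℝ) * E * ∑ v ∈ A, ∏ x, pack_b K (v x) := by
      rw [Finset.mul_sum]
      exact Finset.sum_congr rfl fun v _ => by ring
    rw [h18] at h17
    refine le_trans ?_ h17
    exact mul_le_mul_of_nonneg_left hAprob (by positivity)
  -- the upper bound
  have hupp : (∑ v ∈ A, ∑ X ∈ 𝓑, ∏ x, pack_b K (v x + X x)) * θ ^ (2 * r) ≤
      ((1 + θ) / (1 - θ)) ^ Fintype.card ι := by
    set U : Finset (ι → ℤ) := (A ×ˢ 𝓑).image (fun p => p.1 + p.2) with hU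
    have h19 : ∑ v ∈ A, ∑ X ∈ 𝓑, ∏ x, pack_b K (v x + X x) =
        ∑ u ∈ U, ∑ p ∈ (A ×ˢ 𝓑).filter (fun p => p.1 + p.2 = u), ∏ x, pack_b K (u x) := by
      rw [← Finset.sum_product' (s := A) (t := 𝓑) (f := fun v X => ∏ x, pack_b K (v x + X x))]
      rw [← Finset.sum_fiberwise_of_maps_to (s := A ×ˢ 𝓑) (t := U) (g := fun p => p.1 + p.2)]
      · refine Finset.sum_congr rfl fun u _ => Finset.sum_congr rfl fun p hp => ?_
        rw [Finset.mem_filter] at hp
        rw [← hp.2]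
        rfl
      · intro p hp
        exact Finset.mem_image_of_mem _ hp
    have h20 : ∀ u ∈ U, (((A ×ˢ 𝓑).filter (fun p => p.1 + p.2 = u)).card : ℝ) * θ ^ (2 * r) ≤
        ((1 + θ) / (1 - θ)) ^ Fintype.card ι := by
      intro u _
      have h21 : ((A ×ˢ 𝓑).filter (fun p => p.1 + p.2 = u)).card =
          (((A ×ˢ 𝓑).filter (fun p => p.1 + p.2 = u)).image Prod.fst).card := by
        rw [Finset.card_image_of_injOn]
        intro p hp q hq hpq
        rw [Finset.mem_coe, Finset.mem_filter] at hp hq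
        have h22 : p.1 = q.1 := hpq
        have h23 : p.2 = q.2 := by
          have : p.1 + p.2 = q.1 + q.2 := hp.2.trans hq.2.symm
          rw [h22] at this
          exact add_left_cancel this
        exact Prod.ext h22 h23
      rw [h21]
      refine pack_ball hθ hθ1 (2 * r) (est (pack_syn e u)) _ ?_
      intro v hv
      rw [Finset.mem_image] at hv
      obtain ⟨p, hp, rfl⟩ := hv
      rw [Finset.mem_filter, Finset.mem_product] at hp
      have h24 : pack_syn e u = pack_syn e p.1 := by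
        rw [← hp.2]
        unfold pack_syn
        have h25 := h2 p.2 hp.1.2
        calc ∑ x, (p.1 + p.2) x • e x = ∑ x, (p.1 x • e x + p.2 x • e x) :=
              Finset.sum_congr rfl fun x _ => by rw [Pi.add_apply, add_smul]
          _ = ∑ x, p.1 x • e x := by rw [Finset.sum_add_distrib, h25, add_zero]
      rw [h24]
      exact hAest p.1 hp.1.1
    rw [h19, Finset.sum_mul]
    have h26 : ∀ u ∈ U, (∑ p ∈ (A ×ˢ 𝓑).filter (fun p => p.1 + p.2 = u), ∏ x, pack_b K (u x)) *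
        θ ^ (2 * r) ≤ ((1 + θ) / (1 - θ)) ^ Fintype.card ι * ∏ x, pack_b K (u x) := by
      intro u hu
      rw [Finset.sum_const, nsmul_eq_mul]
      have h27 := mul_le_mul_of_nonneg_right (h20 u hu)
        (Finset.prod_nonneg fun x (_ : x ∈ univ) => pack_b_nonneg K (u x))
      linarith
    refine (Finset.sum_le_sum h26).trans ?_
    rw [← Finset.mul_sum]
    have h28 : (0 : ℝ) ≤ ((1 + θ) / (1 - θ)) ^ Fintype.card ι := by
      have : (0 : ℝ) < 1 - θ := by linarith
      positivity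
    calc ((1 + θ) / (1 - θ)) ^ Fintype.card ι * ∑ u ∈ U, ∏ x, pack_b K (u x)
        ≤ ((1 + θ) / (1 - θ)) ^ Fintype.card ι * 1 :=
          mul_le_mul_of_nonneg_left (pack_B_sum K U) h28
      _ = _ := mul_one _
  -- conclusion
  have hB0 : (0 : ℝ) < 𝓑.card := by exact_mod_cast hne.card_pos
  have hθr : 0 < θ ^ (2 * r) := Real.rpow_pos_of_pos hθ _
  have hfin : (𝓑.card : ℝ) * E * (1 / 4) * θ ^ (2 * r) ≤
      ((1 + θ) / (1 - θ)) ^ Fintype.card ι :=
    (mul_le_mul_of_nonneg_right hlow hθr.le).trans hupp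
  have h29 := Real.log_le_log (by positivity) hfin
  have h1θ : (0 : ℝ) < 1 - θ := by linarith
  rw [Real.log_mul (by positivity) hθr.ne', Real.log_mul (by positivity) (by norm_num),
    Real.log_mul hB0.ne' hE0.ne', Real.log_rpow hθ, hE, Real.log_pow, Real.log_pow,
    Real.log_exp] at h29
  have h30 : Real.log (1 / 4 : ℝ) = - Real.log 4 := by
    rw [one_div, Real.log_inv]
  have h31 : Real.log (1 / θ) = - Real.log θ := by
    rw [one_div, Real.log_inv]
  rw [h30] at h29
  rw [h31]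
  have h32 : (Fintype.card ι : ℝ) * (-4 / K) = - (4 * Fintype.card ι / K) := by ring
  rw [h32] at h29
  linarith

end Pool.Agent.BF

namespace Pool.Agent.BF

theorem pack : type_of% @pack_pr := @pack_pr

end Pool.Agent.BF
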