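import Pool.Agent.Lib_helper92.BFA.Defs2

set_option linter.unusedSectionVars false

/-! Block SYM: symmetries of the law of the syndrome. -/

namespace Pool.Agent.BF

open Finset

variable {ι : Type} [Fintype ι] [DecidableEq ι] {S : Type} [AddCommGroup S] [Fintype S]
  [DecidableEq S]

/-- The law is transported by an automorphism that permutes the `e z`. -/
theorem mu_perm_pr (e : ι → S) (n : ι → ℕ) (φ : S ≃+ S) (π : Equiv.Perm ι)
    (h : ∀ z, φ (e z) = e (π z)) (g : S) : mu e (fun z => n (π z)) g = mu e n (φ g) := by
  unfold mu
  refine Finset.sum_nbij' (fun v z => v (π.symm z)) (fun v z => v (π z)) ?_ ?_ ?_ ?_ ?_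
  · intro v hv
    rw [Fintype.mem_piFinset] at hv ⊢
    intro z
    have := hv (π.symm z)
    simpa using this
  · intro v hv
    rw [Fintype.mem_piFinset] at hv ⊢
    intro z
    exact hv (π z)
  · intro v _
    funext z
    simp
  · intro v _
    funext z
    simp
  · intro v _
    have h1 : ∑ x, v (π.symm x) • e x = φ (∑ x, v x • e x) := by
      rw [map_sum, ← Equiv.sum_comp π]
      refine Finset.sum_congr rfl fun x _ => ?_
      rw [map_nsmul, h]
      simp
    have h2 : ∏ x, bw (n x) (v (π.symm x)) = ∏ x, bw (n (π x)) (v x) := by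
      rw [← Equiv.prod_comp π]
      refine Finset.prod_congr rfl fun x _ => ?_
      simp
    simp only [h1, h2, φ.injective.eq_iff]

theorem ww_trans_pr (e : ι → S) (he : Trans e) (K : ℕ) (x y : ι) : ww e K x = ww e K y := by
  obtain ⟨φ, π, hπ, hφ⟩ := he x y
  have hmn : mn K x = fun z => mn K y (π z) := by
    funext z
    unfold mn
    by_cases h : z = x
    · subst h
      rw [hπ]
      simp
    · have h' : π z ≠ y := by
        rw [← hπ]
        exact fun h'' => h (π.injective h'')
      rw [Function.update_of_ne h, Function.update_of_ne h']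
  unfold ww dd
  congr 1
  rw [hmn]
  refine (Finset.sum_congr rfl fun g _ => ?_).trans (Equiv.sum_comp φ.toEquiv (fun g =>
    (mu e (mn K y) g - mu e (mn K y) (g - e y)) ^ 2 /
      (mu e (mn K y) g + mu e (mn K y) (g - e y)) / 2))
  rw [mu_perm_pr e (mn K y) φ π hφ g, mu_perm_pr e (mn K y) φ π hφ (g - e x), map_sub, hφ x, hπ]
  rfl

/-- The law is transported by an automorphism that changes signs. -/
theorem mu_sign_pr (e : ι → S) (n : ι → ℕ) (ψ : S ≃+ S) (ε : ι → Bool)
    (h : ∀ z, ψ (e z) = if ε z then -e z else e z) (g : S) :
    mu e n (ψ g + ∑ z, if ε z then n z • e z else 0) = mu e n g := by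
  unfold mu
  refine Finset.sum_nbij' (fun v z => if ε z then n z - v z else v z)
    (fun v z => if ε z then n z - v z else v z) ?_ ?_ ?_ ?_ ?_
  · intro v hv
    rw [Fintype.mem_piFinset] at hv ⊢
    intro z
    have := hv z
    rw [Finset.mem_range] at this ⊢
    split_ifs <;> omega
  · intro v hv
    rw [Fintype.mem_piFinset] at hv ⊢
    intro z
    have := hv z
    rw [Finset.mem_range] at this ⊢
    split_ifs <;> omega
  · intro v hv
    rw [Fintype.mem_piFinset] at hv
    funext z
    have := hv z
    rw [Finset.mem_range] at this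
    simp only
    split_ifs <;> omega
  · intro v hv
    rw [Fintype.mem_piFinset] at hv
    funext z
    have := hv z
    rw [Finset.mem_range] at this
    simp only
    split_ifs <;> omega
  · intro v hv
    rw [Fintype.mem_piFinset] at hv
    have hle : ∀ z, v z ≤ n z := fun z => by
      have := hv z
      rw [Finset.mem_range] at this
      omega
    have h1 : ∑ x, v x • e x = ψ (∑ x, (if ε x then n x - v x else v x) • e x) +
        ∑ z, if ε z then n z • e z else 0 := by
      rw [map_sum, ← Finset.sum_add_distrib]
      refine Finset.sum_congr rfl fun x _ => ?_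
      rw [map_nsmul, h]
      by_cases hx : ε x
      · simp only [hx, if_true]
        rw [smul_neg, neg_add_eq_sub, eq_sub_iff_add_eq, ← add_smul]
        congr 1
        have := hle x
        omega
      · simp [hx]
    have h2 : ∏ x, bw (n x) (if ε x then n x - v x else v x) = ∏ x, bw (n x) (v x) := by
      refine Finset.prod_congr rfl fun x _ => ?_
      by_cases hx : ε x
      · simp only [hx, if_true]
        unfold bw
        rw [Nat.choose_symm (hle x)]
      · simp [hx]
    rw [h1, h2]
    simp only [add_left_inj, ψ.injective.eq_iff]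

end Pool.Agent.BF

namespace Pool.Agent.BF

theorem mu_perm : type_of% @mu_perm_pr := @mu_perm_pr

theorem ww_trans : type_of% @ww_trans_pr := @ww_trans_pr

theorem mu_sign : type_of% @mu_sign_pr := @mu_sign_pr

end Pool.Agent.BF
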