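import Pool.Agent.Lib_helper92.BFA.Defs2
import Pool.Agent.Lib_helper92.BFA.EXP2
import Pool.Agent.Lib_helper92.BFA.FC
import Pool.Agent.Lib_helper92.BFA.SYM

set_option linter.unusedSectionVars false
set_option linter.unusedVariables false

namespace Pool.Agent.BF

open Finset

variable {ι : Type} [Fintype ι] [DecidableEq ι] {S : Type} [AddCommGroup S] [Fintype S]
  [DecidableEq S]

theorem gam_sum {K : ℕ} (ω : Om ι K) (x : ι) :
    gam ω x = ∑ k : Fin K, if ω (x, k) = true then 1 else 0 := by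
  rw [gam, card_filter]

theorem gam_not {K : ℕ} (ω : Om ι K) (x : ι) :
    gam (fun j => !(ω j)) x + gam ω x = K := by
  rw [gam_sum, gam_sum, ← sum_add_distrib]
  have : ∀ k : Fin K, ((if (!(ω (x, k))) = true then 1 else 0) +
      (if ω (x, k) = true then 1 else 0)) = 1 := by
    intro k
    cases ω (x, k) <;> simp
  rw [sum_congr rfl fun k _ => this k]
  simp

theorem gam_perm {K : ℕ} (ω : Om ι K) (τ : ι → Equiv.Perm (Fin K)) (x : ι) :
    gam (fun j => ω (j.1, τ j.1 j.2)) x = gam ω x := by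
  rw [gam_sum, gam_sum]
  exact Equiv.sum_comp (τ x) fun k => if ω (x, k) = true then 1 else 0

theorem gam_flip {K : ℕ} (ω : Om ι K) (ε : ι → Bool) (x : ι) :
    gam (fun j => if ε j.1 then !(ω j) else ω j) x = if ε x then K - gam ω x else gam ω x := by
  cases h : ε x
  · simp only [gam, h]
    simp
  · have h1 := gam_not ω x
    have h2 : gam (fun j => if ε j.1 then !(ω j) else ω j) x = gam (fun j => !(ω j)) x := by
      simp only [gam, h]
      simp
    rw [h2]
    simp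
    omega

theorem gam_glue {K : ℕ} (ω : Om ι K) (η : ι → Bool) (x : ι) :
    gam (glue ω η) x = gam ω x + if η x = true then 1 else 0 := by
  rw [gam_sum, gam_sum, Fin.sum_univ_castSucc]
  simp [glue]

theorem gam_le {K : ℕ} (ω : Om ι K) (x : ι) : gam ω x ≤ K := by
  have := gam_not ω x
  omega

/-- The gluing equivalence. -/
def glueE (ι : Type) (K : ℕ) : Om ι K × (ι → Bool) ≃ Om ι (K + 1) where
  toFun p := glue p.1 p.2
  invFun ω := (fun j => ω (j.1, j.2.castSucc), fun z => ω (z, Fin.last K))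
  left_inv := by
    rintro ⟨ω, η⟩
    simp [glue]
  right_inv := by
    intro ω
    funext ⟨z, k⟩
    refine Fin.lastCases ?_ (fun k => ?_) k <;> simp [glue]

theorem ex_glue {K : ℕ} (Φ : Om ι (K + 1) → ℝ) :
    Ex Φ = Ex (fun ω : Om ι K => Ex (fun η : ι → Bool => Φ (glue ω η))) := by
  have hc : Fintype.card (Om ι (K + 1)) = Fintype.card (Om ι K) * Fintype.card (ι → Bool) := by
    rw [← Fintype.card_prod]; exact (Fintype.card_congr (glueE ι K)).symm
  have hs : ∑ ω, Φ ω = ∑ ω : Om ι K, ∑ η : ι → Bool, Φ (glue ω η) := by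
    rw [← Equiv.sum_comp (glueE ι K) Φ, Fintype.sum_prod_type]
    rfl
  unfold Ex
  rw [hc, hs, Finset.sum_div, Finset.sum_div]
  refine sum_congr rfl fun ω _ => ?_
  push_cast
  rw [div_div, mul_comm (Fintype.card (ι → Bool) : ℝ)]

theorem ex_involutive {α : Type} [Fintype α] (σ : α ≃ α) (Φ : α → ℝ) :
    Ex (fun a => Φ (σ a)) = Ex Φ := by
  unfold Ex
  rw [Equiv.sum_comp σ Φ]

/-- The flip of the bits at the coordinates `z` with `ε z`. -/
def flipE (ι : Type) (K : ℕ) (ε : ι → Bool) : Om ι K ≃ Om ι K where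
  toFun ω := fun j => if ε j.1 then !(ω j) else ω j
  invFun ω := fun j => if ε j.1 then !(ω j) else ω j
  left_inv := by
    intro ω; funext j; cases h : ε j.1 <;> simp [h]
  right_inv := by
    intro ω; funext j; cases h : ε j.1 <;> simp [h]

theorem sg_flip (e : ι → S) {K : ℕ} (ψ : S ≃+ S) (ε : ι → Bool)
    (h : ∀ z, ψ (e z) = if ε z then -e z else e z) (ω : Om ι K) :
    sg e (flipE ι K ε ω) = ψ (sg e ω) + ∑ z, if ε z then K • e z else 0 := by
  unfold sg
  rw [map_sum, ← sum_add_distrib]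
  refine sum_congr rfl fun z _ => ?_
  have h1 : gam (flipE ι K ε ω) z = if ε z then K - gam ω z else gam ω z := gam_flip ω ε z
  rw [h1, map_nsmul, h z]
  cases hz : ε z
  · simp
  · simp only [if_true]
    rw [sub_nsmul _ (gam_le ω z)]
    simp
    abel

theorem mn_sum (e : ι → S) {K : ℕ} (x : ι) :
    ∑ z, mn (K + 1) x z • e z = (∑ z, (K + 1) • e z) - e x := by
  have h1 : ∀ z, mn (K + 1) x z • e z = (K + 1) • e z - if z = x then e x else 0 := by
    intro z
    by_cases hz : z = x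
    · subst hz
      simp [mn, add_smul]
    · simp [mn, hz]
  rw [sum_congr rfl fun z _ => h1 z, sum_sub_distrib]
  simp

theorem hh_flip (e : ι → S) {K : ℕ} (x : ι) (ψ : S ≃+ S) (ε : ι → Bool)
    (h : ∀ z, ψ (e z) = if ε z then -e z else e z) (hx : ε x = false) (ω : Om ι (K + 1)) :
    hh e (K + 1) x (sg e (flipE ι (K + 1) ε ω)) = hh e (K + 1) x (sg e ω) := by
  have hs : ∑ z, (if ε z then mn (K + 1) x z • e z else 0) =
      ∑ z, (if ε z then (K + 1) • e z else 0) := by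
    refine sum_congr rfl fun z _ => ?_
    by_cases hz : z = x
    · subst hz; simp [hx]
    · simp [mn, hz]
  have hx' : ψ (e x) = e x := by rw [h x, hx]; simp
  have h1 : mu e (mn (K + 1) x) (sg e (flipE ι (K + 1) ε ω)) = mu e (mn (K + 1) x) (sg e ω) := by
    rw [sg_flip e ψ ε h, ← hs]
    exact mu_sign e _ ψ ε h _
  have h2 : mu e (mn (K + 1) x) (sg e (flipE ι (K + 1) ε ω) - e x) =
      mu e (mn (K + 1) x) (sg e ω - e x) := by
    rw [sg_flip e ψ ε h, ← hs]
    rw [← mu_sign e (mn (K + 1) x) ψ ε h (sg e ω - e x)]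
    congr 1
    rw [map_sub, hx']
    abel
  unfold hh
  rw [h1, h2]

theorem hh_not (e : ι → S) {K : ℕ} (x : ι) (ω : Om ι (K + 1)) :
    hh e (K + 1) x (sg e (fun j => !(ω j))) = -hh e (K + 1) x (sg e ω) := by
  have hψ : ∀ z, (AddEquiv.neg S) (e z) = if (fun _ : ι => true) z then -e z else e z := by
    intro z; simp
  have h0 : (fun j => !(ω j)) = flipE ι (K + 1) (fun _ => true) ω := by
    funext j; simp [flipE]
  have hsg : sg e (fun j => !(ω j)) = -sg e ω + ∑ z, (K + 1) • e z := by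
    rw [h0, sg_flip e (AddEquiv.neg S) (fun _ => true) hψ]
    simp
  have hmu : ∀ g, mu e (mn (K + 1) x) (-g + ((∑ z, (K + 1) • e z) - e x)) =
      mu e (mn (K + 1) x) g := by
    intro g
    have := mu_sign e (mn (K + 1) x) (AddEquiv.neg S) (fun _ => true) hψ g
    simp only [if_true] at this
    rw [mn_sum] at this
    exact this
  have h1 : mu e (mn (K + 1) x) (sg e (fun j => !(ω j))) = mu e (mn (K + 1) x) (sg e ω - e x) := by
    rw [← hmu (sg e ω - e x), hsg]
    congr 1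
    abel
  have h2 : mu e (mn (K + 1) x) (sg e (fun j => !(ω j)) - e x) = mu e (mn (K + 1) x) (sg e ω) := by
    rw [← hmu (sg e ω), hsg]
    congr 1
    abel
  unfold hh
  rw [h1, h2, ← neg_div, neg_sub, add_comm (mu e (mn (K + 1) x) (sg e ω))]

theorem sg_perm (e : ι → S) {K : ℕ} (τ : ι → Equiv.Perm (Fin K)) (ω : Om ι K) :
    sg e (fun j => ω (j.1, τ j.1 j.2)) = sg e ω := by
  unfold sg
  refine sum_congr rfl fun z _ => ?_
  rw [gam_perm]

theorem sg_glue (e : ι → S) {K : ℕ} (ω : Om ι K) (η : ι → Bool) :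
    sg e (glue ω η) = sg e ω + ∑ z, if η z = true then e z else 0 := by
  unfold sg
  rw [← sum_add_distrib]
  refine sum_congr rfl fun z _ => ?_
  rw [gam_glue, add_smul]
  cases η z <;> simp

theorem ric_alg (K I d A : ℝ) (hK : 1 ≤ K) (hI : 0 ≤ I) (hd : 0 ≤ d)
    (hw1 : (K + 1) * I ≤ 1)
    (h1 : I ^ 2 ≤ A * d)
    (h2 : A ≤ (K / (K + 1)) * ((K + 1) * I ^ 2) + (K / (K + 1)) ^ 3 * (I - (K + 1) * I ^ 2)) :
    (K + 1) * I ≤ (K * d) * ((K + 1) * I + (K / (K + 1)) ^ 2 * (1 - (K + 1) * I)) := by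
  have hK0 : 0 < K := by linarith
  rcases hI.eq_or_lt with h | h
  · rw [← h]
    have : 0 ≤ (K * d) * ((K / (K + 1)) ^ 2) := by positivity
    simpa using this
  · have h3 : I ^ 2 ≤ ((K / (K + 1)) * ((K + 1) * I ^ 2) +
        (K / (K + 1)) ^ 3 * (I - (K + 1) * I ^ 2)) * d :=
      h1.trans (mul_le_mul_of_nonneg_right h2 hd)
    have h4 : ((K / (K + 1)) * ((K + 1) * I ^ 2) +
        (K / (K + 1)) ^ 3 * (I - (K + 1) * I ^ 2)) * d * (K + 1) =
        I * ((K * d) * ((K + 1) * I + (K / (K + 1)) ^ 2 * (1 - (K + 1) * I))) := by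
      field_simp
    have h5 : I * ((K + 1) * I) ≤
        I * ((K * d) * ((K + 1) * I + (K / (K + 1)) ^ 2 * (1 - (K + 1) * I))) := by
      rw [← h4]
      calc I * ((K + 1) * I) = I ^ 2 * (K + 1) := by ring
        _ ≤ _ := mul_le_mul_of_nonneg_right h3 (by linarith)
    exact le_of_mul_le_mul_left h5 h

theorem ric_pr (e : ι → S) (x : ι) (he : SgnSym e x) {K : ℕ} (hK : 1 ≤ K) :
    ww e (K + 1) x ≤
      ww e K x * (ww e (K + 1) x + ((K : ℝ) / (K + 1)) ^ 2 * (1 - ww e (K + 1) x)) := by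
  set I : ℝ := dd (mu e (mn (K + 1) x)) (e x) with hI
  set F : Om ι (K + 1) → ℝ := fun ω => hh e (K + 1) x (sg e ω) with hF
  have hFsq : Ex (fun ω => F ω ^ 2) = I := ex_hh_sq e (by omega : 1 ≤ K + 1) x
  have hFI : ∀ k, Ex (fun ω => F ω * bt (ω (x, k))) = I := by
    intro k
    rw [hF]
    rw [ex_hh e x k (fun s => hh e (K + 1) x s), ← hFsq]
    simp only [hF, sq]
  have hodd : ∀ ω, F (fun j => !(ω j)) = -F ω := fun ω => hh_not e x ω
  have hsym : ∀ (τ : ι → Equiv.Perm (Fin (K + 1))) (ω), F (fun j => ω (j.1, τ j.1 j.2)) = F ω := by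
    intro τ ω
    simp only [hF]
    rw [sg_perm]
  have h0 : ∀ y k, y ≠ x → Ex (fun ω => F ω * bt (ω (y, k))) = 0 := by
    intro y k hy
    obtain ⟨ψ, ε, hεx, hεy, hψ⟩ := he y hy
    have h1 : Ex (fun ω => F (flipE ι (K + 1) ε ω) * bt ((flipE ι (K + 1) ε ω) (y, k))) =
        Ex (fun ω => F ω * bt (ω (y, k))) :=
      ex_involutive (flipE ι (K + 1) ε) (fun ω => F ω * bt (ω (y, k)))
    have h2 : ∀ ω, F (flipE ι (K + 1) ε ω) * bt ((flipE ι (K + 1) ε ω) (y, k)) =
        -(F ω * bt (ω (y, k))) := by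
      intro ω
      have h3 : F (flipE ι (K + 1) ε ω) = F ω := hh_flip e x ψ ε hψ hεx ω
      have h4 : bt ((flipE ι (K + 1) ε ω) (y, k)) = -bt (ω (y, k)) := by
        simp only [flipE, Equiv.coe_fn_mk, hεy, if_true]
        cases ω (y, k) <;> simp [bt]
      rw [h3, h4]; ring
    have h5 : Ex (fun ω => F (flipE ι (K + 1) ε ω) * bt ((flipE ι (K + 1) ε ω) (y, k))) =
        -Ex (fun ω => F ω * bt (ω (y, k))) := by
      unfold Ex
      rw [sum_congr rfl fun ω _ => h2 ω, sum_neg_distrib, neg_div]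
    linarith
  have hcc := cube_contract K x F I hodd hsym hFI h0
  rw [hFsq] at hcc
  set G : S → ℝ := fun s => Ex (fun η : ι → Bool =>
    hh e (K + 1) x (s + ∑ z, if η z = true then e z else 0)) with hG
  have hGF : ∀ ω : Om ι K, Ex (fun η : ι → Bool => F (glue ω η)) = G (sg e ω) := by
    intro ω
    simp only [hG, hF, sg_glue]
  have hGI : Ex (fun ω : Om ι K => G (sg e ω) * bt (ω (x, ⟨0, hK⟩))) = I := by
    rw [← hFI (Fin.castSucc ⟨0, hK⟩), ex_glue]
    congr 1
    funext ω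
    rw [← hGF ω]
    have h1 : ∀ η : ι → Bool, bt (glue ω η (x, Fin.castSucc ⟨0, hK⟩)) = bt (ω (x, ⟨0, hK⟩)) := by
      intro η
      simp only [glue, Fin.lastCases_castSucc]
    simp only [h1]
    unfold Ex
    rw [← Finset.sum_mul]
    ring
  have hcs := cs_hh e x ⟨0, hK⟩ G
  rw [hGI] at hcs
  have hGsq : Ex (fun ω : Om ι K => G (sg e ω) ^ 2) =
      Ex (fun ω : Om ι K => Ex (fun η : ι → Bool => F (glue ω η)) ^ 2) := by
    congr 1
    funext ω
    rw [hGF]
  rw [hGsq] at hcs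
  have hdd : 0 ≤ dd (mu e (mn K x)) (e x) := by
    have h1 := ww_nonneg e K x
    have h2 : (0 : ℝ) < K := by exact_mod_cast hK
    unfold ww at h1
    exact nonneg_of_mul_nonneg_right h1 h2
  have hI0 : 0 ≤ I := by
    rw [← hFsq]
    unfold Ex
    positivity
  have hw1 : ((K : ℝ) + 1) * I ≤ 1 := by
    have h1 := ww_le_one e (by omega : 1 ≤ K + 1) x
    unfold ww at h1
    push_cast at h1
    exact h1
  have hfin := ric_alg (K : ℝ) I (dd (mu e (mn K x)) (e x)) _ (by exact_mod_cast hK) hI0 hdd hw1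
    hcs hcc
  have e1 : ww e (K + 1) x = ((K : ℝ) + 1) * I := by
    unfold ww; push_cast; rfl
  have e2 : ww e K x = (K : ℝ) * dd (mu e (mn K x)) (e x) := rfl
  rw [e1, e2]
  exact hfin

end Pool.Agent.BF

namespace Pool.Agent.BF

theorem ric : type_of% @ric_pr := @ric_pr

end Pool.Agent.BF
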