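import Pool.Agent.Lib_helper92.BFA.Defs2
import Pool.Agent.Lib_helper92.BFA.AREA
import Pool.Agent.Lib_helper92.BFA.EQD
import Pool.Agent.Lib_helper92.BFA.EXP2
import Pool.Agent.Lib_helper92.BFA.HUB
import Pool.Agent.Lib_helper92.BFA.RIC
import Pool.Agent.Lib_helper92.BFA.SYM

set_option linter.unusedSectionVars false

namespace Pool.Agent.BF

open Finset

variable {ι : Type} [Fintype ι] [DecidableEq ι] {S : Type} [AddCommGroup S] [Fintype S]
  [DecidableEq S]

/-- One step for the odds, upward form. -/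
theorem thr_up (e : ι → S) (x : ι) (hs : SgnSym e x) {K : ℕ} (hK : 1 ≤ K)
    (h : ww e K x < 1 / 2) :
    ∀ L, K ≤ L → (1 - ww e L x) * (K : ℝ) ^ 2 ≥ ww e L x * (L : ℝ) ^ 2 := by
  intro L hL
  induction L, hL using Nat.le_induction with
  | base => 
      have : (0 : ℝ) ≤ (K : ℝ) ^ 2 := by positivity
      nlinarith
  | succ L hL ih =>
      have hL1 : 1 ≤ L := hK.trans hL
      have hric := ric e x hs hL1
      have hw0 := ww_nonneg e (L + 1) x
      have hw1 := ww_le_one e (K := L + 1) (by omega) x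
      have hv0 := ww_nonneg e L x
      have hv1 := ww_le_one e hL1 x
      have hLr : (0 : ℝ) < L := by exact_mod_cast hL1
      have hKr : (0 : ℝ) < K := by exact_mod_cast hK
      set w := ww e (L + 1) x
      set v := ww e L x
      push_cast
      -- w (1 - v) ≤ v ρ² (1 - w)
      have h1 : w * (1 - v) * ((L : ℝ) + 1) ^ 2 ≤ v * (L : ℝ) ^ 2 * (1 - w) := by
        have h2 : w * (1 - v) ≤ v * (((L : ℝ) / (L + 1)) ^ 2 * (1 - w)) := by nlinarith
        have h3 : v * (((L : ℝ) / (L + 1)) ^ 2 * (1 - w)) * ((L : ℝ) + 1) ^ 2 =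
            v * (L : ℝ) ^ 2 * (1 - w) := by
          field_simp
        rw [← h3]
        exact mul_le_mul_of_nonneg_right h2 (by positivity)
      by_cases hv : v = 1
      · -- then K^2 * 0 ≥ L^2
        exfalso
        rw [hv] at ih
        have : (0 : ℝ) < (L : ℝ) ^ 2 := by positivity
        simp at ih
        linarith
      have hv' : 0 < 1 - v := by
        rcases lt_or_eq_of_le hv1 with h | h
        · linarith
        · exact absurd h hv
      have h4 : w * ((L : ℝ) + 1) ^ 2 * (1 - v) ≤ (1 - w) * (K : ℝ) ^ 2 * (1 - v) := by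
        calc w * ((L : ℝ) + 1) ^ 2 * (1 - v) = w * (1 - v) * ((L : ℝ) + 1) ^ 2 := by ring
          _ ≤ v * (L : ℝ) ^ 2 * (1 - w) := h1
          _ ≤ (1 - v) * (K : ℝ) ^ 2 * (1 - w) :=
              mul_le_mul_of_nonneg_right ih (by linarith)
          _ = _ := by ring
      exact le_of_mul_le_mul_right h4 hv'

theorem decay_pr (e : ι → S) (x : ι) (hs : SgnSym e x) {K K₁ : ℕ} (hK : 1 ≤ K) (hK₁ : K ≤ K₁)
    (h : 1 / 2 ≤ ww e K₁ x) : 1 - ww e K x ≤ ((K : ℝ) / K₁) ^ 2 := by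
  have hK1r : (0 : ℝ) < K₁ := by exact_mod_cast hK.trans hK₁
  suffices hmain : ∀ L, K ≤ L → (1 - ww e K x) * (L : ℝ) ^ 2 * ww e L x ≤
      (K : ℝ) ^ 2 * ww e K x * (1 - ww e L x) by
    have h1 := hmain K₁ hK₁
    have hw0 := ww_nonneg e K x
    have hw1 := ww_le_one e hK x
    have hv1 := ww_le_one e (hK.trans hK₁) x
    rw [div_pow, le_div_iff₀ (by positivity)]
    set w := ww e K x
    set v := ww e K₁ x
    have h2 : (1 - w) * (K₁ : ℝ) ^ 2 * (1 / 2) ≤ (K : ℝ) ^ 2 * (1 / 2) := by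
      calc (1 - w) * (K₁ : ℝ) ^ 2 * (1 / 2) ≤ (1 - w) * (K₁ : ℝ) ^ 2 * v :=
            mul_le_mul_of_nonneg_left h (mul_nonneg (by linarith) (by positivity))
        _ ≤ (K : ℝ) ^ 2 * w * (1 - v) := h1
        _ ≤ (K : ℝ) ^ 2 * 1 * (1 / 2) := by
            apply mul_le_mul (mul_le_mul_of_nonneg_left hw1 (by positivity)) (by linarith)
              (by linarith) (by positivity)
        _ = _ := by ring
    linarith
  intro L hL
  induction L, hL using Nat.le_induction with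
  | base => apply le_of_eq; ring
  | succ L hL ih =>
      have hL1 : 1 ≤ L := hK.trans hL
      have hric := ric e x hs hL1
      have hw0 := ww_nonneg e (L + 1) x
      have hw1 := ww_le_one e (K := L + 1) (by omega) x
      have hv0 := ww_nonneg e L x
      have hv1 := ww_le_one e hL1 x
      have hu0 := ww_nonneg e K x
      have hu1 := ww_le_one e hK x
      have hLr : (0 : ℝ) < L := by exact_mod_cast hL1
      set w := ww e (L + 1) x
      set v := ww e L x
      set u := ww e K x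
      push_cast
      have h1 : w * (1 - v) * ((L : ℝ) + 1) ^ 2 ≤ v * (L : ℝ) ^ 2 * (1 - w) := by
        have h2 : w * (1 - v) ≤ v * (((L : ℝ) / (L + 1)) ^ 2 * (1 - w)) := by nlinarith
        have h3 : v * (((L : ℝ) / (L + 1)) ^ 2 * (1 - w)) * ((L : ℝ) + 1) ^ 2 =
            v * (L : ℝ) ^ 2 * (1 - w) := by
          field_simp
        rw [← h3]
        exact mul_le_mul_of_nonneg_right h2 (by positivity)
      -- cases on v
      rcases lt_or_eq_of_le hv1 with hv | hv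
      · -- v < 1
        have h5 : 0 < 1 - v := by linarith
        have h6 : ((1 - u) * ((L : ℝ) + 1) ^ 2 * w) * (1 - v) ≤
            ((K : ℝ) ^ 2 * u * (1 - w)) * (1 - v) := by
          calc ((1 - u) * ((L : ℝ) + 1) ^ 2 * w) * (1 - v)
              = (1 - u) * (w * (1 - v) * ((L : ℝ) + 1) ^ 2) := by ring
            _ ≤ (1 - u) * (v * (L : ℝ) ^ 2 * (1 - w)) :=
                mul_le_mul_of_nonneg_left h1 (by linarith)
            _ = ((1 - u) * (L : ℝ) ^ 2 * v) * (1 - w) := by ring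
            _ ≤ ((K : ℝ) ^ 2 * u * (1 - v)) * (1 - w) :=
                mul_le_mul_of_nonneg_right ih (by linarith)
            _ = _ := by ring
        exact le_of_mul_le_mul_right h6 h5
      · -- v = 1, then ih gives (1 - u) L^2 ≤ 0
        rw [hv] at ih
        have h7 : (1 - u) * (L : ℝ) ^ 2 ≤ 0 := by simpa using ih
        have h8 : 1 - u ≤ 0 := by
          by_contra hc
          push Not at hc
          have : 0 < (1 - u) * (L : ℝ) ^ 2 := by positivity
          linarith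
        have h9 : u = 1 := le_antisymm hu1 (by linarith)
        rw [h9]
        simp
        exact mul_nonneg (by positivity) (by linarith)

theorem thr_sum {K : ℕ} (hK : 1 ≤ K) (M : ℕ) (hM : K ≤ M) :
    ∑ L ∈ Ico K M, (K : ℝ) ^ 2 / (L : ℝ) ^ 3 ≤ 3 / 2 - 3 / 2 * (K : ℝ) ^ 2 / (M : ℝ) ^ 2 := by
  have hKr : (1 : ℝ) ≤ K := by exact_mod_cast hK
  induction M, hM using Nat.le_induction with
  | base =>
      simp
      have : 3 / 2 * (K : ℝ) ^ 2 / (K : ℝ) ^ 2 = 3 / 2 := by field_simp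
      rw [this]
  | succ M hM ih =>
      rw [Finset.sum_Ico_succ_top hM]
      have hMr : (1 : ℝ) ≤ M := by exact_mod_cast hK.trans hM
      have key : (K : ℝ) ^ 2 / (M : ℝ) ^ 3 ≤
          3 / 2 * (K : ℝ) ^ 2 / (M : ℝ) ^ 2 - 3 / 2 * (K : ℝ) ^ 2 / ((M + 1 : ℕ) : ℝ) ^ 2 := by
        push_cast
        have e1 : 3 / 2 * (K : ℝ) ^ 2 / (M : ℝ) ^ 2 - 3 / 2 * (K : ℝ) ^ 2 / ((M : ℝ) + 1) ^ 2 =
            (K : ℝ) ^ 2 * (3 * (2 * M + 1) * M) / (2 * ((M : ℝ) + 1) ^ 2 * (M : ℝ) ^ 3) := by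
          field_simp
          ring
        have e2 : (K : ℝ) ^ 2 / (M : ℝ) ^ 3 =
            (K : ℝ) ^ 2 * (2 * ((M : ℝ) + 1) ^ 2) / (2 * ((M : ℝ) + 1) ^ 2 * (M : ℝ) ^ 3) := by
          field_simp
        rw [e1, e2]
        refine div_le_div_of_nonneg_right ?_ (by positivity)
        refine mul_le_mul_of_nonneg_left ?_ (by positivity)
        nlinarith
      linarith

theorem thr_aux (w k m : ℝ) (hm : 0 < m) (hw : 0 ≤ w) (h : w * m ^ 2 ≤ (1 - w) * k ^ 2) :
    w / m ≤ k ^ 2 / m ^ 3 := by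
  have h0 : (0 : ℝ) ≤ k ^ 2 := by positivity
  have h6 : w * m ^ 2 ≤ k ^ 2 := by nlinarith
  rw [div_le_div_iff₀ hm (by positivity)]
  calc w * m ^ 3 = (w * m ^ 2) * m := by ring
    _ ≤ k ^ 2 * m := mul_le_mul_of_nonneg_right h6 hm.le

theorem thr_h2 (e : ι → S) (ht : Trans e) (hs : ∀ x, SgnSym e x) {K : ℕ} (hK : 1 ≤ K)
    (x₀ : ι) (h : ww e K x₀ < 1 / 2) (M : ℕ) (hM : K ≤ M) :
    ∑ x, ww e M x / (M : ℝ) ≤ (Fintype.card ι : ℝ) * ((K : ℝ) ^ 2 / (M : ℝ) ^ 3) := by
  have hM1 : 1 ≤ M := hK.trans hM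
  have hMr : (0 : ℝ) < (M : ℝ) := by exact_mod_cast hM1
  have h7 : ∀ x ∈ (univ : Finset ι), ww e M x / (M : ℝ) ≤ (K : ℝ) ^ 2 / (M : ℝ) ^ 3 := by
    intro x _
    have h3 : ww e K x < 1 / 2 := by rw [ww_trans e ht K x x₀]; exact h
    have h4 := thr_up e x (hs x) hK h3 M hM
    exact thr_aux _ _ _ hMr (ww_nonneg e M x) h4
  have h8 := Finset.sum_le_card_nsmul _ _ _ h7
  rw [nsmul_eq_mul, Finset.card_univ] at h8
  exact h8

theorem thr_ent (e : ι → S) (ht : Trans e) (hs : ∀ x, SgnSym e x) {K : ℕ} (hK : 1 ≤ K)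
    (x₀ : ι) (h : ww e K x₀ < 1 / 2) (M : ℕ) (hM : K ≤ M) :
    ent (mu e (fun _ => M)) ≤ ent (mu e (fun _ => K)) +
      Fintype.card ι * ∑ L ∈ Ico K M, (K : ℝ) ^ 2 / (L : ℝ) ^ 3 := by
  induction M, hM using Nat.le_induction with
  | base => simp
  | succ M hM ih =>
      have h1 := ent_step e (hK.trans hM)
      rw [Finset.sum_Ico_succ_top hM, mul_add]
      have h2 := thr_h2 e ht hs hK x₀ h M hM
      linarith

theorem threshold_pr (e : ι → S) (hg : Gen e) (ht : Trans e) (hs : ∀ x, SgnSym e x) {K : ℕ}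
    (hK : 4 ≤ K)
    (h : Fintype.card ι * (Real.log K / 2 + Real.log 2 + 5 / 2) < Real.log (Fintype.card S))
    (x : ι) : 1 / 2 ≤ ww e K x := by
  by_contra hc
  push Not at hc
  set N : ℝ := (Fintype.card ι : ℝ) with hN
  have hN0 : 0 ≤ N := by positivity
  obtain ⟨M, hM, hent⟩ := ent_large e hg
    ((Real.log (Fintype.card S) - N * (Real.log K / 2 + Real.log 2 + 5 / 2)) / 2)
    (by linarith) K
  have h1 := thr_ent e ht hs (by omega : 1 ≤ K) x hc M hM
  have h2 := thr_sum (by omega : 1 ≤ K) M hM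
  have h3 := ent_le e hK
  have h4 : ∑ L ∈ Ico K M, (K : ℝ) ^ 2 / (L : ℝ) ^ 3 ≤ 3 / 2 := by
    refine h2.trans ?_
    have : 0 ≤ 3 / 2 * (K : ℝ) ^ 2 / (M : ℝ) ^ 2 := by positivity
    linarith
  have h5 : N * ∑ L ∈ Ico K M, (K : ℝ) ^ 2 / (L : ℝ) ^ 3 ≤ N * (3 / 2) :=
    mul_le_mul_of_nonneg_left h4 hN0
  have h6 : N * (Real.log K / 2 + Real.log 2 + 1) + N * (3 / 2) =
      N * (Real.log K / 2 + Real.log 2 + 5 / 2) := by ring
  linarith

end Pool.Agent.BF

namespace Pool.Agent.BF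

theorem threshold : type_of% @threshold_pr := @threshold_pr

theorem decay : type_of% @decay_pr := @decay_pr

end Pool.Agent.BF
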