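import Pool.Agent.Lib_helper92.BFA.Defs2
import Pool.Agent.Lib_helper92.BFA.EST
import Pool.Agent.Lib_helper92.BFA.PACK
import Pool.Agent.Lib_helper92.BFA.THR

set_option linter.unusedSectionVars false

namespace Pool.Agent.BF

open Finset

variable {ι : Type} [Fintype ι] [DecidableEq ι] {S : Type} [AddCommGroup S] [Fintype S]
  [DecidableEq S]

theorem main_log_bound {R : ℝ} (hR : 2 ≤ R) :
    Real.log ((1 + 1 / R) / (1 - 1 / R)) ≤ 4 / R := by
  have h0 : 0 < R := by linarith
  have h1 : 0 < 1 - 1 / R := by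
    rw [sub_pos, div_lt_one h0]; linarith
  have h2 : 0 < (1 + 1 / R) / (1 - 1 / R) := by positivity
  refine (Real.log_le_sub_one_of_pos h2).trans ?_
  have h3 : (1 + 1 / R) / (1 - 1 / R) - 1 = 2 / (R - 1) := by
    have : R - 1 ≠ 0 := by linarith
    field_simp
    ring
  rw [h3, div_le_div_iff₀ (by linarith) h0]
  linarith

theorem main_group_pr [Nonempty ι] (e : ι → S) (hg : Gen e) (ht : Trans e)
    (hs : ∀ x, SgnSym e x)
    {R : ℕ} (hR : 2 ≤ R) (hR' : 8 * Real.log (8 * Fintype.card ι) ≤ R)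
    (hS : Fintype.card ι * Real.log (25 * R) ≤ Real.log (Fintype.card S))
    (𝓑 : Finset (ι → ℤ)) (h1 : ∀ X ∈ 𝓑, ∀ x, X x = 1 ∨ X x = -1)
    (h2 : ∀ X ∈ 𝓑, ∑ x, X x • e x = 0) (h3 : ∀ X ∈ 𝓑, -X ∈ 𝓑) (hne : 𝓑.Nonempty) :
    Real.log 𝓑.card ≤ Fintype.card ι * (8 + 2 * Real.log R) / R + Real.log 4 := by
  have hN : (1 : ℝ) ≤ Fintype.card ι := by exact_mod_cast Fintype.card_pos
  have hRr : (2 : ℝ) ≤ R := by exact_mod_cast hR
  have hR0 : (0 : ℝ) < R := by linarith
  have hR4 : 4 ≤ R := by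
    have h8 : Real.log 8 ≤ Real.log (8 * Fintype.card ι) :=
      Real.log_le_log (by norm_num) (by linarith)
    have h9 : (1 : ℝ) < Real.log 8 := by
      have : Real.log 8 = 3 * Real.log 2 := by
        rw [show (8 : ℝ) = 2 ^ 3 by norm_num, Real.log_pow]; norm_num
      have := Real.log_two_gt_d9
      linarith
    have : (8 : ℝ) < R := by linarith
    have : 8 < R := by exact_mod_cast this
    omega
  have hthr : ∀ x, 1 / 2 ≤ ww e (R ^ 2) x := by
    intro x
    refine threshold e hg ht hs (by nlinarith) ?_ x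
    refine lt_of_lt_of_le ?_ hS
    refine mul_lt_mul_of_pos_left ?_ (by linarith)
    rw [Real.log_mul (by norm_num) (by linarith)]
    push_cast
    rw [Real.log_pow]
    have h25 : Real.log 2 + 5 / 2 < Real.log 25 := by
      have e1 : Real.log 25 = 2 * Real.log 5 := by
        rw [show (25 : ℝ) = 5 ^ 2 by norm_num, Real.log_pow]; norm_num
      have e2 : Real.log 25 = Real.log 2 + Real.log (25 / 2) := by
        rw [← Real.log_mul (by norm_num) (by norm_num)]; norm_num
      rw [e2]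
      have e3 : (5 / 2 : ℝ) < Real.log (25 / 2) := by
        rw [Real.lt_log_iff_exp_lt (by norm_num)]
        have h := Real.exp_one_lt_d9
        have h5 : Real.exp (5 / 2) ^ 2 = Real.exp 1 ^ 5 := by
          rw [← Real.exp_nat_mul, ← Real.exp_nat_mul]; norm_num
        have h6 : Real.exp 1 ^ 5 < (2.7182818286 : ℝ) ^ 5 :=
          pow_lt_pow_left₀ h (Real.exp_pos _).le (by norm_num)
        have h7 : Real.exp (5 / 2) ^ 2 < (25 / 2 : ℝ) ^ 2 := by
          rw [h5]; refine h6.trans ?_; norm_num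
        exact lt_of_pow_lt_pow_left₀ 2 (by norm_num) h7
      linarith
    push_cast
    linarith
  obtain ⟨es, hes⟩ := est e (K := R) (by omega)
  have hw : ∀ x, (R : ℝ) * (1 - ww e R x) ≤ 1 / R := by
    intro x
    have h := decay e x (hs x) (K := R) (K₁ := R ^ 2) (by omega) (by nlinarith) (hthr x)
    have h' : ((R : ℝ) / ((R ^ 2 : ℕ) : ℝ)) ^ 2 = 1 / (R : ℝ) ^ 2 := by
      push_cast
      field_simp
    rw [h'] at h
    calc (R : ℝ) * (1 - ww e R x) ≤ R * (1 / (R : ℝ) ^ 2) :=
          mul_le_mul_of_nonneg_left h hR0.le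
      _ = 1 / R := by field_simp
  have hr : ∑ x, (R : ℝ) * (1 - ww e R x) ≤ Fintype.card ι / R := by
    calc ∑ x, (R : ℝ) * (1 - ww e R x) ≤ ∑ _x : ι, 1 / (R : ℝ) :=
          Finset.sum_le_sum fun x _ => hw x
      _ = Fintype.card ι / R := by
          rw [Finset.sum_const, card_univ, nsmul_eq_mul]; ring
  have hθ1 : (1 / R : ℝ) < 1 := by
    rw [div_lt_one hR0]; linarith
  have hp := pack e (K := R) hR' hR4 𝓑 h1 h2 h3 hne es (Fintype.card ι / R) (1 / R)
    (by positivity) hθ1 (hes.trans hr)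
  refine hp.trans ?_
  have hl := main_log_bound hRr
  have h5 : (1 : ℝ) / (1 / R) = R := by rw [one_div_one_div]
  rw [h5]
  have h6 : (Fintype.card ι : ℝ) * Real.log ((1 + 1 / R) / (1 - 1 / R)) ≤
      Fintype.card ι * (4 / R) := mul_le_mul_of_nonneg_left hl (by linarith)
  have h7 : 4 * (Fintype.card ι : ℝ) / R + 2 * (Fintype.card ι / R) * Real.log R +
      Fintype.card ι * (4 / R) = Fintype.card ι * (8 + 2 * Real.log R) / R := by
    field_simp; ring
  linarith

end Pool.Agent.BF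

namespace Pool.Agent.BF

theorem main_group : type_of% @main_group_pr := @main_group_pr

end Pool.Agent.BF
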