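import Pool.Agent.Lib_helper92.BFA.Defs2

set_option linter.unusedSectionVars false

/-! Block MOM: the law of the syndrome on the bits. -/

namespace Pool.Agent.BF

open Finset

variable {ι : Type} [Fintype ι] [DecidableEq ι] {S : Type} [AddCommGroup S] [Fintype S]
  [DecidableEq S]

theorem mom_card_bool (K j : ℕ) :
    (univ.filter fun b : Fin K → Bool => (univ.filter fun k => b k = true).card = j).card =
      K.choose j := by
  have h1 : (Finset.powersetCard j (univ : Finset (Fin K))).card = K.choose j := by
    rw [Finset.card_powersetCard, Finset.card_univ, Fintype.card_fin]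
  rw [← h1]
  refine Finset.card_bij (fun b _ => univ.filter fun k => b k = true) ?_ ?_ ?_
  · intro b hb
    rw [Finset.mem_powersetCard]
    exact ⟨Finset.subset_univ _, (Finset.mem_filter.mp hb).2⟩
  · intro b _ b' _ h
    funext k
    have h2 : (b k = true) ↔ (b' k = true) := by
      have := Finset.ext_iff.mp h k
      simpa using this
    cases hb : b k <;> cases hb' : b' k <;> simp_all
  · intro s hs
    rw [Finset.mem_powersetCard] at hs
    refine ⟨fun k => decide (k ∈ s), ?_, ?_⟩
    · rw [Finset.mem_filter]
      refine ⟨Finset.mem_univ _, ?_⟩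
      have : (univ.filter fun k => decide (k ∈ s) = true) = s := by
        ext k; simp
      rw [this]
      exact hs.2
    · ext k; simp

theorem mom_card {K : ℕ} (v : ι → ℕ) :
    (univ.filter fun ω : Om ι K => ∀ x, gam ω x = v x).card = ∏ x, K.choose (v x) := by
  have h1 : (Fintype.piFinset fun x : ι =>
      (univ.filter fun b : Fin K → Bool => (univ.filter fun k => b k = true).card = v x)).card =
      ∏ x, K.choose (v x) := by
    rw [Fintype.card_piFinset]
    exact Finset.prod_congr rfl (fun x _ => mom_card_bool K (v x))
  rw [← h1]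
  refine Finset.card_bij (fun ω _ => fun x k => ω (x, k)) ?_ ?_ ?_
  · intro ω hω
    rw [Fintype.mem_piFinset]
    intro x
    rw [Finset.mem_filter]
    exact ⟨Finset.mem_univ _, (Finset.mem_filter.mp hω).2 x⟩
  · intro ω _ ω' _ h
    funext p
    exact congrFun (congrFun h p.1) p.2
  · intro b hb
    rw [Fintype.mem_piFinset] at hb
    refine ⟨fun p => b p.1 p.2, ?_, rfl⟩
    rw [Finset.mem_filter]
    refine ⟨Finset.mem_univ _, fun x => ?_⟩
    exact (Finset.mem_filter.mp (hb x)).2

theorem mom_gam_le {K : ℕ} (ω : Om ι K) (x : ι) : gam ω x ≤ K := by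
  unfold gam
  refine (Finset.card_le_univ _).trans ?_
  rw [Fintype.card_fin]

theorem mu_om_pr (e : ι → S) (K : ℕ) (g : S) :
    mu e (fun _ => K) g =
      ((univ.filter fun ω : Om ι K => sg e ω = g).card : ℝ) / Fintype.card (Om ι K) := by
  have hcard : (Fintype.card (Om ι K) : ℝ) = ∏ _x : ι, (2 : ℝ) ^ K := by
    rw [Fintype.card_fun, Fintype.card_prod, Fintype.card_bool, Fintype.card_fin,
      Finset.prod_const, Finset.card_univ]
    push_cast
    rw [← pow_mul, mul_comm]
  have hfib : (univ.filter fun ω : Om ι K => sg e ω = g).card =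
      ∑ v ∈ Fintype.piFinset (fun _ : ι => range (K + 1)),
        if ∑ x, v x • e x = g then ∏ x, K.choose (v x) else 0 := by
    rw [Finset.card_eq_sum_card_fiberwise (f := fun ω : Om ι K => (gam ω : ι → ℕ))
      (t := Fintype.piFinset (fun _ : ι => range (K + 1)))]
    · refine Finset.sum_congr rfl (fun v _ => ?_)
      split_ifs with h
      · rw [← mom_card v]
        congr 1
        ext ω
        simp only [Finset.mem_filter, Finset.mem_univ, true_and]
        constructor
        · rintro ⟨_, h2⟩ x
          exact congrFun h2 x
        · intro h2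
          have h3 : (gam ω : ι → ℕ) = v := funext h2
          refine ⟨?_, h3⟩
          rw [← h]
          unfold sg
          exact Finset.sum_congr rfl (fun x _ => by rw [h2 x])
      · rw [Finset.card_eq_zero, Finset.filter_eq_empty_iff]
        intro ω hω h2
        apply h
        rw [← (Finset.mem_filter.mp hω).2]
        unfold sg
        exact Finset.sum_congr rfl (fun x _ => by rw [← h2])
    · intro ω _
      rw [Finset.mem_coe, Fintype.mem_piFinset]
      intro x
      exact Finset.mem_range.mpr (Nat.lt_succ_of_le (mom_gam_le ω x))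
  rw [hfib, hcard, mu]
  push_cast
  rw [Finset.sum_div]
  refine Finset.sum_congr rfl (fun v _ => ?_)
  split_ifs
  · rw [← Finset.prod_div_distrib]
    rfl
  · simp

end Pool.Agent.BF

namespace Pool.Agent.BF

theorem mu_om : type_of% @mu_om_pr := @mu_om_pr

end Pool.Agent.BF
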