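import Pool.Agent.Lib_helper92.BFA.Defs2

set_option linter.unusedSectionVars false

/-!
# BF block NUM1
-/

namespace Pool.Agent.BF

open Finset

lemma num1_lower (a : ℕ) (ha : 1 ≤ a) : 16 ^ a ≤ 4 * a * a.centralBinom ^ 2 := by
  induction a, ha using Nat.le_induction with
  | base => simp [Nat.centralBinom]
  | succ a ha ih =>
    have h := Nat.succ_mul_centralBinom_succ a
    have h2 : 0 < a + 1 := by omega
    refine Nat.le_of_mul_le_mul_left ?_ h2
    have h3 : (a + 1) * (4 * (a + 1) * (a + 1).centralBinom ^ 2) =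
        4 * ((a + 1) * (a + 1).centralBinom) ^ 2 := by ring
    rw [h3, h]
    have h4 : 4 * (2 * (2 * a + 1) * a.centralBinom) ^ 2 =
        16 * (2 * a + 1) ^ 2 * a.centralBinom ^ 2 := by ring
    rw [h4]
    refine Nat.le_of_mul_le_mul_left (c := a) ?_ (by omega)
    have h5 : a * ((a + 1) * 16 ^ (a + 1)) = 16 * a * (a + 1) * 16 ^ a := by ring
    rw [h5]
    calc 16 * a * (a + 1) * 16 ^ a ≤ 16 * a * (a + 1) * (4 * a * a.centralBinom ^ 2) :=
          Nat.mul_le_mul_left _ ih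
      _ = (16 * (4 * a * (a + 1))) * (a * a.centralBinom ^ 2) := by ring
      _ ≤ (16 * (2 * a + 1) ^ 2) * (a * a.centralBinom ^ 2) := by
          apply Nat.mul_le_mul_right
          nlinarith
      _ = a * (16 * (2 * a + 1) ^ 2 * a.centralBinom ^ 2) := by ring

lemma num1_upper (a : ℕ) : (2 * a + 1) * a.centralBinom ^ 2 ≤ 16 ^ a := by
  induction a with
  | zero => simp
  | succ a ih =>
    have h := Nat.succ_mul_centralBinom_succ a
    refine Nat.le_of_mul_le_mul_left (c := (a + 1) ^ 2) ?_ (by positivity)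
    have h3 : (a + 1) ^ 2 * ((2 * (a + 1) + 1) * (a + 1).centralBinom ^ 2) =
        (2 * a + 3) * ((a + 1) * (a + 1).centralBinom) ^ 2 := by ring
    rw [h3, h]
    have h4 : (2 * a + 3) * (2 * (2 * a + 1) * a.centralBinom) ^ 2 =
        (4 * (2 * a + 3) * (2 * a + 1)) * ((2 * a + 1) * a.centralBinom ^ 2) := by ring
    rw [h4]
    calc (4 * (2 * a + 3) * (2 * a + 1)) * ((2 * a + 1) * a.centralBinom ^ 2)
        ≤ (4 * (2 * a + 3) * (2 * a + 1)) * 16 ^ a := Nat.mul_le_mul_left _ ih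
      _ ≤ (16 * (a + 1) ^ 2) * 16 ^ a := by
          apply Nat.mul_le_mul_right
          nlinarith
      _ = (a + 1) ^ 2 * 16 ^ (a + 1) := by ring

/-- `C(2a,a) ≥ 4^a / (2 √a)`. -/
theorem central_lower_pr {a : ℕ} (ha : 1 ≤ a) :
    (4 : ℝ) ^ a ≤ 2 * Real.sqrt a * (2 * a).choose a := by
  have h := num1_lower a ha
  have h' : (16 : ℝ) ^ a ≤ 4 * a * ((2 * a).choose a : ℝ) ^ 2 := by
    have : ((16 ^ a : ℕ) : ℝ) ≤ ((4 * a * a.centralBinom ^ 2 : ℕ) : ℝ) := by exact_mod_cast h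
    rw [Nat.centralBinom] at this
    push_cast at this
    exact this
  refine abs_le_of_sq_le_sq' ?_ (by positivity) |>.2
  have h1 : ((4 : ℝ) ^ a) ^ 2 = 16 ^ a := by rw [← pow_mul, mul_comm, pow_mul]; norm_num
  have h2 : (2 * Real.sqrt a * ((2 * a).choose a : ℝ)) ^ 2 = 4 * a * ((2 * a).choose a : ℝ) ^ 2 := by
    rw [mul_pow, mul_pow, Real.sq_sqrt (Nat.cast_nonneg a)]; ring
  rw [h1, h2]; exact h'

/-- `C(2a,a) ≤ 4^a / √a`. -/
theorem central_upper_pr {a : ℕ} (ha : 1 ≤ a) :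
    Real.sqrt a * (2 * a).choose a ≤ (4 : ℝ) ^ a := by
  have h := num1_upper a
  have h' : (2 * (a : ℝ) + 1) * ((2 * a).choose a : ℝ) ^ 2 ≤ (16 : ℝ) ^ a := by
    have : (((2 * a + 1) * a.centralBinom ^ 2 : ℕ) : ℝ) ≤ ((16 ^ a : ℕ) : ℝ) := by exact_mod_cast h
    rw [Nat.centralBinom] at this
    push_cast at this
    exact this
  refine abs_le_of_sq_le_sq' ?_ (by positivity) |>.2
  have h1 : ((4 : ℝ) ^ a) ^ 2 = 16 ^ a := by rw [← pow_mul, mul_comm, pow_mul]; norm_num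
  have h2 : (Real.sqrt a * ((2 * a).choose a : ℝ)) ^ 2 = a * ((2 * a).choose a : ℝ) ^ 2 := by
    rw [mul_pow, Real.sq_sqrt (Nat.cast_nonneg a)]
  rw [h1, h2]
  refine le_trans ?_ h'
  apply mul_le_mul_of_nonneg_right _ (sq_nonneg _)
  have : (0 : ℝ) ≤ a := Nat.cast_nonneg a
  linarith

end Pool.Agent.BF

namespace Pool.Agent.BF

theorem central_lower : type_of% @central_lower_pr := @central_lower_pr

theorem central_upper : type_of% @central_upper_pr := @central_upper_pr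

end Pool.Agent.BF
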