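import Pool.Agent.Lib_helper92.BFA.Defs2
import Pool.Agent.Lib_helper92.BFA.NUM1

set_option linter.unusedSectionVars false

/-! Block NUM2: from the general theorem to the final bound. -/

namespace Pool.Agent.BF

open Finset

/-- `v_a = a C(2a,a) / (2 · 4^a)` -/
noncomputable def num2_v (a : ℕ) : ℝ := (a * (2 * a).choose a : ℝ) / (2 * 4 ^ a)

theorem num2_v_low {a : ℕ} (ha : 1 ≤ a) : Real.sqrt a / 4 ≤ num2_v a := by
  have h := central_lower ha
  have ha0 : (0 : ℝ) < a := by exact_mod_cast ha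
  have hs : 0 < Real.sqrt a := Real.sqrt_pos.mpr ha0
  have h4 : (0 : ℝ) < 4 ^ a := by positivity
  rw [num2_v, div_le_div_iff₀ (by norm_num) (by positivity)]
  have h2 : Real.sqrt a * Real.sqrt a = a := Real.mul_self_sqrt ha0.le
  calc Real.sqrt a * (2 * 4 ^ a) ≤ Real.sqrt a * (2 * (2 * Real.sqrt a * (2 * a).choose a)) := by
        gcongr
    _ = (Real.sqrt a * Real.sqrt a) * ((2 * a).choose a) * 4 := by ring
    _ = _ := by rw [h2]

theorem num2_v_up {a : ℕ} (ha : 1 ≤ a) : num2_v a ≤ Real.sqrt a / 2 := by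
  have h := central_upper ha
  have ha0 : (0 : ℝ) < a := by exact_mod_cast ha
  have hs : 0 < Real.sqrt a := Real.sqrt_pos.mpr ha0
  have h4 : (0 : ℝ) < 4 ^ a := by positivity
  rw [num2_v, div_le_div_iff₀ (by positivity) (by norm_num)]
  have h2 : Real.sqrt a * Real.sqrt a = a := Real.mul_self_sqrt ha0.le
  calc (a : ℝ) * ((2 * a).choose a) * 2 = Real.sqrt a * (Real.sqrt a * (2 * a).choose a) * 2 := by
        rw [← mul_assoc, h2]
    _ ≤ Real.sqrt a * 4 ^ a * 2 := by gcongr
    _ = _ := by ring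

theorem num2_growth : ∃ a₀ : ℕ, ∀ a : ℕ, a₀ ≤ a → 1 ≤ a → 1600 * (a : ℝ) ≤ (2 : ℝ) ^ num2_v a := by
  have h1 := Real.tendsto_exp_div_pow_atTop 2
  have hlog : (0 : ℝ) < Real.log 2 := Real.log_pos one_lt_two
  have h2 : Filter.Tendsto (fun a : ℕ => Real.sqrt a * (Real.log 2 / 4)) Filter.atTop
      Filter.atTop :=
    (Real.tendsto_sqrt_atTop.comp tendsto_natCast_atTop_atTop).atTop_mul_const (by positivity)
  have h3 := (h1.comp h2).eventually (Filter.eventually_ge_atTop (100000 : ℝ))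
  obtain ⟨a₀, ha₀⟩ := Filter.eventually_atTop.mp h3
  refine ⟨a₀, fun a ha ha1 => ?_⟩
  have h4 := ha₀ a ha
  simp only [Function.comp_apply] at h4
  have ha0 : (0 : ℝ) < a := by exact_mod_cast ha1
  have hs : 0 < Real.sqrt a := Real.sqrt_pos.mpr ha0
  rw [le_div_iff₀ (by positivity), mul_pow, Real.sq_sqrt ha0.le] at h4
  have h5 : (2 : ℝ) ^ (Real.sqrt a / 4) = Real.exp (Real.sqrt a * (Real.log 2 / 4)) := by
    rw [Real.rpow_def_of_pos two_pos]
    congr 1
    ring
  have h6 : (2 : ℝ) ^ (Real.sqrt a / 4) ≤ (2 : ℝ) ^ num2_v a :=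
    Real.rpow_le_rpow_of_exponent_le one_le_two (num2_v_low ha1)
  rw [h5] at h6
  refine le_trans ?_ (h4.trans h6)
  have h7 : (0.69 : ℝ) ≤ Real.log 2 := by have := Real.log_two_gt_d9; linarith
  have h8 : (0.69 / 4 : ℝ) ^ 2 ≤ (Real.log 2 / 4) ^ 2 := by gcongr
  nlinarith

open Pool.Agent.Lib_helper75.Bent in
theorem final_bound_pr
    (H : ∀ (a R : ℕ), 1 ≤ a → 2 ≤ R → 8 * Real.log (8 * 4 ^ a) ≤ R →
      Real.log (25 * R) ≤ (a * (2 * a).choose a : ℝ) / (2 * 4 ^ a) * Real.log 2 →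
      0 < numBent (2 * a) →
      Real.log (numBent (2 * a)) ≤ 4 ^ a * (8 + 2 * Real.log R) / R + Real.log 4) :
    ∃ C : ℝ, ∀ n : ℕ, Even n → 2 ≤ n →
      Real.logb 2 (numBent n) ≤
        C * Real.sqrt n * 2 ^ ((n : ℝ) - n * (n.choose (n / 2) : ℝ) / 2 ^ (n + 2)) := by
  obtain ⟨a₀, ha₀⟩ := num2_growth
  set C₂ : ℝ := ∑ a ∈ range a₀, |Real.logb 2 (numBent (2 * a))| with hC₂
  have hC₂0 : 0 ≤ C₂ := Finset.sum_nonneg (fun _ _ => abs_nonneg _)
  have hlog2 : (0 : ℝ) < Real.log 2 := Real.log_pos one_lt_two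
  have hlog2h : (1 / 2 : ℝ) ≤ Real.log 2 := by have := Real.log_two_gt_d9; linarith
  have hlog2u : Real.log 2 ≤ 1 := by have := Real.log_two_lt_d9; linarith
  refine ⟨904 + C₂, ?_⟩
  intro n hn hn2
  obtain ⟨a, rfl⟩ : ∃ a, n = 2 * a := ⟨n / 2, by obtain ⟨b, hb⟩ := hn; omega⟩
  have ha1 : 1 ≤ a := by omega
  have ha0 : (0 : ℝ) < a := by exact_mod_cast ha1
  have ha1r : (1 : ℝ) ≤ a := by exact_mod_cast ha1
  have hhalf : 2 * a / 2 = a := by omega
  have hexp : ((2 * a : ℕ) : ℝ) - ((2 * a : ℕ) : ℝ) * ((2 * a).choose (2 * a / 2) : ℝ) /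
      2 ^ (2 * a + 2) = 2 * a - num2_v a := by
    rw [hhalf, num2_v, pow_add, pow_mul]
    push_cast
    have h4 : (0 : ℝ) < 4 ^ a := by positivity
    norm_num
    field_simp
    ring
  rw [hexp]
  have hvup := num2_v_up ha1
  have hvlow := num2_v_low ha1
  have hsa1 : (1 : ℝ) ≤ Real.sqrt a := Real.one_le_sqrt.mpr ha1r
  have hsaa : Real.sqrt a ≤ a := by
    rw [Real.sqrt_le_left ha0.le]
    nlinarith
  have hsn : Real.sqrt a ≤ Real.sqrt ((2 * a : ℕ) : ℝ) := by
    apply Real.sqrt_le_sqrt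
    push_cast
    linarith
  have hv0 : 0 ≤ num2_v a := by
    unfold num2_v
    positivity
  set E : ℝ := (2 : ℝ) ^ (2 * (a : ℝ) - num2_v a) with hE
  have hE1 : 1 ≤ E := Real.one_le_rpow one_le_two (by linarith)
  have hsn1 : (1 : ℝ) ≤ Real.sqrt ((2 * a : ℕ) : ℝ) := hsa1.trans hsn
  rcases lt_or_ge a a₀ with hsmall | hbig
  · have h1 : |Real.logb 2 (numBent (2 * a))| ≤ C₂ :=
      Finset.single_le_sum (f := fun a => |Real.logb 2 (numBent (2 * a))|)
        (fun _ _ => abs_nonneg _) (Finset.mem_range.mpr hsmall)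
    calc Real.logb 2 (numBent (2 * a)) ≤ |Real.logb 2 (numBent (2 * a))| := le_abs_self _
      _ ≤ C₂ := h1
      _ ≤ (904 + C₂) * 1 * 1 := by linarith
      _ ≤ (904 + C₂) * Real.sqrt ((2 * a : ℕ) : ℝ) * E := by gcongr
  · rcases Nat.eq_zero_or_pos (numBent (2 * a)) with h0 | hpos
    · rw [h0]
      simp only [Nat.cast_zero, Real.logb_zero]
      positivity
    · have hg := ha₀ a hbig ha1
      set V : ℝ := (2 : ℝ) ^ num2_v a with hV
      have hV0 : 0 < V := by positivity
      have hV1600 : 1600 ≤ V := by linarith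
      set R : ℕ := ⌊V / 25⌋₊ with hR
      have hRle : (R : ℝ) ≤ V / 25 := Nat.floor_le (by positivity)
      have hRlt : V / 25 < R + 1 := Nat.lt_floor_add_one _
      have hR50 : V / 50 ≤ R := by linarith
      have hR32 : (32 : ℝ) ≤ R := by linarith
      have hR2 : 2 ≤ R := by
        have : (2 : ℝ) ≤ R := by linarith
        exact_mod_cast this
      have hR0 : (0 : ℝ) < R := by linarith
      have hlog4 : Real.log 4 = 2 * Real.log 2 := by
        rw [show (4 : ℝ) = 2 ^ 2 by norm_num, Real.log_pow]; norm_num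
      have hlog8 : Real.log 8 = 3 * Real.log 2 := by
        rw [show (8 : ℝ) = 2 ^ 3 by norm_num, Real.log_pow]; norm_num
      have hcond1 : 8 * Real.log (8 * 4 ^ a) ≤ R := by
        rw [Real.log_mul (by norm_num) (by positivity), Real.log_pow, hlog8, hlog4]
        have h1 : 8 * (3 * Real.log 2 + a * (2 * Real.log 2)) ≤ 8 * (3 * 1 + a * (2 * 1)) := by
          gcongr
        linarith
      have hlogV : Real.log V = num2_v a * Real.log 2 := by
        rw [hV, Real.log_rpow two_pos]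
      have hcond2 : Real.log (25 * R) ≤ (a * (2 * a).choose a : ℝ) / (2 * 4 ^ a) * Real.log 2 := by
        have h1 : (a * (2 * a).choose a : ℝ) / (2 * 4 ^ a) * Real.log 2 = Real.log V := by
          rw [hlogV, num2_v]
        rw [h1]
        exact Real.log_le_log (by positivity) (by linarith)
      have hmain := H a R ha1 hR2 hcond1 hcond2 hpos
      have hlogR : Real.log R ≤ Real.sqrt a / 2 := by
        have h1 : Real.log R ≤ Real.log V := Real.log_le_log hR0 (by linarith)
        rw [hlogV] at h1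
        calc Real.log R ≤ num2_v a * Real.log 2 := h1
          _ ≤ Real.sqrt a / 2 * 1 := by gcongr
          _ = _ := mul_one _
      have hEV : E = 4 ^ a / V := by
        rw [hE, hV, Real.rpow_sub two_pos]
        congr 1
        rw [show (2 : ℝ) * (a : ℝ) = ((2 * a : ℕ) : ℝ) by push_cast; ring, Real.rpow_natCast,
          pow_mul]
        norm_num
      have h1 : (4 : ℝ) ^ a * (8 + 2 * Real.log R) / R ≤ 450 * Real.sqrt a * E := by
        have h2 : 8 + 2 * Real.log R ≤ 9 * Real.sqrt a := by linarith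
        calc (4 : ℝ) ^ a * (8 + 2 * Real.log R) / R ≤ (4 : ℝ) ^ a * (9 * Real.sqrt a) / R := by
              gcongr
          _ ≤ (4 : ℝ) ^ a * (9 * Real.sqrt a) / (V / 50) := by
              apply div_le_div_of_nonneg_left (by positivity) (by positivity) hR50
          _ = 450 * Real.sqrt a * E := by
              rw [hEV]
              field_simp
              ring
      have h3 : Real.log 4 ≤ 2 * Real.sqrt a * E := by
        calc Real.log 4 ≤ 2 * 1 * 1 := by rw [hlog4]; linarith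
          _ ≤ 2 * Real.sqrt a * E := by gcongr
      have h4 : Real.log (numBent (2 * a)) ≤ 452 * Real.sqrt a * E := by linarith
      have h5 : 0 ≤ 452 * Real.sqrt a * E := by positivity
      rw [Real.logb, div_le_iff₀ hlog2]
      calc Real.log (numBent (2 * a)) ≤ 452 * Real.sqrt a * E := h4
        _ = 904 * Real.sqrt a * E * (1 / 2) := by ring
        _ ≤ (904 + C₂) * Real.sqrt ((2 * a : ℕ) : ℝ) * E * Real.log 2 := by
            gcongr
            linarith

end Pool.Agent.BF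

namespace Pool.Agent.BF

theorem final_bound : type_of% @final_bound_pr := @final_bound_pr

end Pool.Agent.BF
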