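import Pool.Agent.Lib_helper92.BFA.Defs2

set_option linter.unusedSectionVars false

/-!
# BF blocks SCH and NUM1
-/

namespace Pool.Agent.BF

open Finset

theorem sum_choose_pr (a : ℕ) :
    2 * ∑ j ∈ range a, (a - j) * (2 * a).choose j = a * (2 * a).choose a := by
  have h : ∀ m, m ≤ a → 2 * ∑ j ∈ range m, (a - j) * (2 * a).choose j = m * (2 * a).choose m := by
    intro m
    induction m with
    | zero => intro _; simp
    | succ m ih =>
      intro hm
      rw [Finset.sum_range_succ, mul_add, ih (by omega)]
      have h1 := Nat.choose_succ_right_eq (2 * a) m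
      obtain ⟨d, rfl⟩ : ∃ d, a = m + d := ⟨a - m, by omega⟩
      have e1 : m + d - m = d := by omega
      have e2 : 2 * (m + d) - m = m + 2 * d := by omega
      rw [e2] at h1
      rw [e1]
      linarith
  exact h a le_rfl

end Pool.Agent.BF

namespace Pool.Agent.BF

theorem sum_choose : type_of% @sum_choose_pr := @sum_choose_pr

end Pool.Agent.BF
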