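import Pool.Agent.Lib_helper92.BFA.MU
import Pool.Agent.Lib_helper92.BFA.AREA
import Pool.Agent.Lib_helper92.BFA.BENT
import Pool.Agent.Lib_helper92.BFA.LAT1
import Pool.Agent.Lib_helper92.BFA.CARDQ
import Pool.Agent.Lib_helper92.BFA.EQD
import Pool.Agent.Lib_helper92.BFA.EXP1
import Pool.Agent.Lib_helper92.BFA.EXP2
import Pool.Agent.Lib_helper92.BFA.EST
import Pool.Agent.Lib_helper92.BFA.FC
import Pool.Agent.Lib_helper92.BFA.GOOD
import Pool.Agent.Lib_helper92.BFA.HUB
import Pool.Agent.Lib_helper92.BFA.LAT2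
import Pool.Agent.Lib_helper92.BFA.SYM
import Pool.Agent.Lib_helper92.BFA.RIC
import Pool.Agent.Lib_helper92.BFA.THR
import Pool.Agent.Lib_helper92.BFA.PACK
import Pool.Agent.Lib_helper92.BFA.MAIN
import Pool.Agent.Lib_helper92.BFA.MOM
import Pool.Agent.Lib_helper92.BFA.NUM1
import Pool.Agent.Lib_helper92.BFA.NUM2
import Pool.Agent.Lib_helper92.BFA.SCH

set_option linter.unusedSectionVars false
set_option linter.unusedVariables false

namespace Pool.Agent.BF

open Finset Pool.Agent.Lib_helper75.Bent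

theorem bent_H (a R : ℕ) (ha : 1 ≤ a) (hR : 2 ≤ R) (hR' : 8 * Real.log (8 * 4 ^ a) ≤ R)
    (hl : Real.log (25 * R) ≤ (a * (2 * a).choose a : ℝ) / (2 * 4 ^ a) * Real.log 2)
    (hpos : 0 < numBent (2 * a)) :
    Real.log (numBent (2 * a)) ≤ 4 ^ a * (8 + 2 * Real.log R) / R + Real.log 4 := by
  classical
  obtain ⟨𝓑, hc, h1, h2, h3⟩ := bent_family a
  have hfin : Finite (((Fin (2 * a) → ZMod 2) → ℤ) ⧸ Lam (2 * a) a) := finite_quot _ _
  let _ : Fintype (((Fin (2 * a) → ZMod 2) → ℤ) ⧸ Lam (2 * a) a) := Fintype.ofFinite _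
  have hcard : (Fintype.card (Fin (2 * a) → ZMod 2) : ℝ) = 4 ^ a := by
    rw [Fintype.card_fun, ZMod.card, Fintype.card_fin]
    push_cast
    rw [pow_mul]
    norm_num
  have hne : 𝓑.Nonempty := by
    rw [← Finset.card_pos, hc]; exact hpos
  have hS : (Fintype.card (Fin (2 * a) → ZMod 2) : ℝ) * Real.log (25 * R) ≤
      Real.log (Fintype.card (((Fin (2 * a) → ZMod 2) → ℤ) ⧸ Lam (2 * a) a)) := by
    have e1 := card_quot (2 * a) a
    rw [Nat.card_eq_fintype_card] at e1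
    have e2 := sum_choose a
    set s := ∑ j ∈ range a, (a - j) * (2 * a).choose j with hs
    have e3 : (2 : ℝ) * s = a * (2 * a).choose a := by exact_mod_cast e2
    have e4 : ((2 : ℝ) ^ s) ≤
        (Fintype.card (((Fin (2 * a) → ZMod 2) → ℤ) ⧸ Lam (2 * a) a) : ℝ) := by
      exact_mod_cast e1
    have e5 : Real.log ((2 : ℝ) ^ s) ≤ _ := Real.log_le_log (by positivity) e4
    rw [Real.log_pow] at e5
    refine le_trans ?_ e5
    rw [hcard]
    have h4 : (0 : ℝ) < 4 ^ a := by positivity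
    calc (4 : ℝ) ^ a * Real.log (25 * R) ≤
          4 ^ a * ((a * (2 * a).choose a : ℝ) / (2 * 4 ^ a) * Real.log 2) :=
          mul_le_mul_of_nonneg_left hl h4.le
      _ = s * Real.log 2 := by
          rw [← e3]; field_simp
  have hR'' : 8 * Real.log (8 * Fintype.card (Fin (2 * a) → ZMod 2)) ≤ (R : ℝ) := by
    rw [hcard]; exact hR'
  have key := main_group (ee (2 * a) a) (ee_gen _ _) (ee_trans _ _) (ee_sgn _ _) hR hR'' hS 𝓑 h1
    (fun X hX => ee_sum _ _ X (h2 X hX)) h3 hne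
  rw [hc, hcard] at key
  exact key

/-- The upper bound for the number of bent functions. -/
theorem bent_upper : ∃ C : ℝ, ∀ n : ℕ, Even n → 2 ≤ n →
    Real.logb 2 (numBent n) ≤
      C * Real.sqrt n * 2 ^ ((n : ℝ) - n * (n.choose (n / 2) : ℝ) / 2 ^ (n + 2)) :=
  final_bound bent_H

end Pool.Agent.BF
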