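import Pool.Agent.Lib_helper92.BFA.Defs2

set_option linter.unusedSectionVars false

/-! BLOCK LAT2 of MP_bb510f_co -/

namespace Pool.Agent.BF

open Finset

theorem lat2_pow_add (u v : ZMod 2) : (-1 : ℤ) ^ (u + v).val = (-1) ^ u.val * (-1) ^ v.val := by
  revert u v; decide

/-- an additive automorphism of the functions which preserves the lattice -/
theorem lat2_map (n a : ℕ) (T : ((Fin n → ZMod 2) → ℤ) ≃+ ((Fin n → ZMod 2) → ℤ))
    (h1 : ∀ X ∈ Lam n a, T X ∈ Lam n a) (h2 : ∀ X ∈ Lam n a, T.symm X ∈ Lam n a) :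
    (Lam n a).map (T : ((Fin n → ZMod 2) → ℤ) →+ ((Fin n → ZMod 2) → ℤ)) = Lam n a := by
  ext X
  rw [AddSubgroup.mem_map]
  constructor
  · rintro ⟨Y, hY, rfl⟩
    exact h1 Y hY
  · intro hX
    exact ⟨T.symm X, h2 X hX, by simp⟩

/-- translation by `c` -/
def lat2_shift (n : ℕ) (c : Fin n → ZMod 2) :
    ((Fin n → ZMod 2) → ℤ) ≃+ ((Fin n → ZMod 2) → ℤ) where
  toFun X := fun z => X (z - c)
  invFun X := fun z => X (z + c)
  left_inv X := by funext z; simp
  right_inv X := by funext z; simp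
  map_add' X Y := by funext z; simp

theorem lat2_wt_shift (n : ℕ) (c : Fin n → ZMod 2) (X : (Fin n → ZMod 2) → ℤ)
    (y : Fin n → ZMod 2) :
    wt (fun z => X (z - c)) y = (-1) ^ (∑ i, y i * c i).val * wt X y := by
  unfold wt
  rw [Finset.mul_sum]
  rw [← Equiv.sum_comp (Equiv.addRight c)]
  refine Finset.sum_congr rfl fun x _ => ?_
  simp only [Equiv.coe_addRight, add_sub_cancel_right, Pi.add_apply, mul_add,
    Finset.sum_add_distrib, lat2_pow_add]
  ring

theorem lat2_shift_mem (n a : ℕ) (c : Fin n → ZMod 2) (X : (Fin n → ZMod 2) → ℤ)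
    (hX : X ∈ Lam n a) : (fun z => X (z - c)) ∈ Lam n a := by
  intro y
  have h := hX y
  show (2 : ℤ) ^ a ∣ wt (fun z => X (z - c)) y
  rw [lat2_wt_shift]
  exact Dvd.dvd.mul_left h _

theorem ee_trans_pr (n a : ℕ) : Trans (ee n a) := by
  intro x y
  have hmap : (Lam n a).map ((lat2_shift n (y - x)) :
      ((Fin n → ZMod 2) → ℤ) →+ ((Fin n → ZMod 2) → ℤ)) = Lam n a := by
    refine lat2_map n a _ (fun X hX => lat2_shift_mem n a _ X hX) (fun X hX => ?_)
    have := lat2_shift_mem n a (-(y - x)) X hX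
    simp only [sub_neg_eq_add] at this
    exact this
  refine ⟨QuotientAddGroup.congr (Lam n a) (Lam n a) (lat2_shift n (y - x)) hmap,
    Equiv.addRight (y - x), by simp, fun z => ?_⟩
  show QuotientAddGroup.mk (lat2_shift n (y - x) (Pi.single z 1)) = ee n a (z + (y - x))
  unfold ee
  congr 1
  funext w
  simp only [lat2_shift, AddEquiv.coe_mk, Equiv.coe_fn_mk, Pi.single_apply, sub_eq_iff_eq_add]

/-- multiplication by the signs `(-1)^(z i - x i)` -/
def lat2_sgn (n : ℕ) (i : Fin n) (x : Fin n → ZMod 2) :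
    ((Fin n → ZMod 2) → ℤ) ≃+ ((Fin n → ZMod 2) → ℤ) where
  toFun X := fun z => (-1) ^ (z i - x i).val * X z
  invFun X := fun z => (-1) ^ (z i - x i).val * X z
  left_inv X := by
    funext z
    simp only
    rw [← mul_assoc, ← pow_add, ← two_mul, pow_mul]
    simp
  right_inv X := by
    funext z
    simp only
    rw [← mul_assoc, ← pow_add, ← two_mul, pow_mul]
    simp
  map_add' X Y := by funext z; simp [mul_add]

theorem lat2_wt_sgn (n : ℕ) (i : Fin n) (x : Fin n → ZMod 2) (X : (Fin n → ZMod 2) → ℤ)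
    (y : Fin n → ZMod 2) :
    wt (fun z => (-1) ^ (z i - x i).val * X z) y =
      (-1) ^ (x i).val * wt X (y + Pi.single i 1) := by
  unfold wt
  rw [Finset.mul_sum]
  refine Finset.sum_congr rfl fun z _ => ?_
  have h1 : (-1 : ℤ) ^ (z i - x i).val = (-1) ^ (z i).val * (-1) ^ (x i).val := by
    have : ∀ u v : ZMod 2, (-1 : ℤ) ^ (u - v).val = (-1) ^ u.val * (-1) ^ v.val := by decide
    exact this _ _
  have h2 : (∑ j, (y + Pi.single i (1 : ZMod 2) : Fin n → ZMod 2) j * z j) =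
      (∑ j, y j * z j) + z i := by
    simp [add_mul, Finset.sum_add_distrib, Pi.single_apply, ite_mul]
  rw [h2, lat2_pow_add]
  simp only [h1]
  ring

theorem lat2_sgn_mem (n a : ℕ) (i : Fin n) (x : Fin n → ZMod 2) (X : (Fin n → ZMod 2) → ℤ)
    (hX : X ∈ Lam n a) : lat2_sgn n i x X ∈ Lam n a := by
  intro y
  have h := hX (y + Pi.single i 1)
  show (2 : ℤ) ^ a ∣ wt (fun z => (-1) ^ (z i - x i).val * X z) y
  rw [lat2_wt_sgn]
  exact Dvd.dvd.mul_left h _

theorem ee_sgn_pr (n a : ℕ) (x) : SgnSym (ee n a) x := by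
  intro y hy
  obtain ⟨i, hi⟩ : ∃ i, y i ≠ x i := by
    by_contra hc
    push Not at hc
    exact hy (funext hc)
  have hmap : (Lam n a).map ((lat2_sgn n i x) :
      ((Fin n → ZMod 2) → ℤ) →+ ((Fin n → ZMod 2) → ℤ)) = Lam n a :=
    lat2_map n a _ (fun X hX => lat2_sgn_mem n a i x X hX)
      (fun X hX => lat2_sgn_mem n a i x X hX)
  refine ⟨QuotientAddGroup.congr (Lam n a) (Lam n a) (lat2_sgn n i x) hmap,
    fun z => decide (z i ≠ x i), by simp, by simpa using hi, fun z => ?_⟩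
  show QuotientAddGroup.mk (lat2_sgn n i x (Pi.single z 1)) = _
  by_cases hz : z i = x i
  · rw [if_neg (by simpa using hz)]
    unfold ee
    congr 1
    funext w
    simp only [lat2_sgn, AddEquiv.coe_mk, Equiv.coe_fn_mk, Pi.single_apply]
    by_cases hw : w = z
    · subst hw; simp [hz]
    · simp [hw]
  · rw [if_pos (by simpa using hz)]
    unfold ee
    rw [← QuotientAddGroup.mk_neg]
    congr 1
    funext w
    simp only [lat2_sgn, AddEquiv.coe_mk, Equiv.coe_fn_mk, Pi.single_apply, Pi.neg_apply]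
    by_cases hw : w = z
    · subst hw
      have h3 : ∀ u v : ZMod 2, u ≠ v → (-1 : ℤ) ^ (u - v).val = -1 := by decide
      simp [h3 _ _ hz]
    · simp [hw]

end Pool.Agent.BF

namespace Pool.Agent.BF

theorem ee_trans : type_of% @ee_trans_pr := @ee_trans_pr

theorem ee_sgn : type_of% @ee_sgn_pr := @ee_sgn_pr

end Pool.Agent.BF
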